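import Pool.Agent.P.MP_898f40_nt.Bet.Defs

/-! The correspondence `D` is homotopic to zero on the first page. -/

set_option autoImplicit false

namespace Pool.Agent.P.MP_898f40_nt.Bet

open Module Polynomial

/-- projector onto the generalized kernel, on an invariant subspace -/
lemma proj_spec {K V : Type} [Field K] [AddCommGroup V] [Module K V] (D : End K V)
    {W : Submodule K V} (hW : ∀ x ∈ W, D x ∈ W) {u g v : K[X]} {m : ℕ}
    (h1 : u * g + v * X ^ (m + 1) = 1) (h2 : ∀ x ∈ W, aeval D (X ^ m * g) x = 0) :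
    (∀ x ∈ W, aeval D (u * g) x ∈ W ⊓ D.maxGenEigenspace 0) ∧
      ∀ x ∈ W ⊓ D.maxGenEigenspace 0, aeval D (u * g) x = x := by
  have hp : ∀ (p : K[X]), ∀ x ∈ W, aeval D p x ∈ W := fun p x hx =>
    aeval_apply_smul_mem_of_le_comap hx p D hW
  constructor
  · intro x hx
    refine ⟨hp _ x hx, End.mem_maxGenEigenspace _ _ _ |>.2 ⟨m, ?_⟩⟩
    have : aeval D (u * (X ^ m * g)) x = 0 := by rw [map_mul, End.mul_apply, h2 x hx, map_zero]
    rw [show u * (X ^ m * g) = X ^ m * (u * g) by ring, map_mul] at this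
    simpa using this
  · rintro x ⟨hx, hG⟩
    obtain ⟨r, hr⟩ := (End.mem_maxGenEigenspace _ _ _).1 hG
    simp only [zero_smul, sub_zero] at hr
    have h3 : ∀ s : ℕ, aeval D ((v * X ^ (m + 1)) ^ (s + 1)) x = aeval D (v * X ^ (m + 1)) x := by
      intro s
      induction s with
      | zero => rw [zero_add, pow_one]
      | succ s ih =>
        have e : (v * X ^ (m + 1)) ^ (s + 1 + 1) = (v * X ^ (m + 1)) ^ (s + 1) -
            (v * X ^ (m + 1)) ^ s * v * X * u * (X ^ m * g) := by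
          linear_combination (v * X ^ (m + 1)) ^ (s + 1) * h1
        rw [e, map_sub, LinearMap.sub_apply, ih, map_mul _ _ (X ^ m * g), End.mul_apply, h2 x hx,
          map_zero, sub_zero]
    have h4 : aeval D (v * X ^ (m + 1)) x = 0 := by
      rw [← h3 r, show (v * X ^ (m + 1)) ^ (r + 1) = (v * X ^ m) ^ (r + 1) * X * X ^ r by ring,
        map_mul, End.mul_apply, map_pow, aeval_X, hr, map_zero]
    have h5 := congrArg (fun p => aeval D p x) h1
    simpa only [map_add, LinearMap.add_apply, h4, add_zero, map_one, End.one_apply] using h5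

lemma split_poly {K : Type} [Field K] {P : K[X]} (hP : P ≠ 0) :
    ∃ (u g v : K[X]) (m : ℕ), u * g + v * X ^ (m + 1) = 1 ∧ X ^ m * g = P := by
  obtain ⟨g, h1, h2⟩ := exists_eq_pow_rootMultiplicity_mul_and_not_dvd P hP 0
  rw [map_zero, sub_zero] at h1 h2
  obtain ⟨u, v, h⟩ : IsCoprime g (X ^ (P.rootMultiplicity 0 + 1)) :=
    ((irreducible_X.coprime_iff_not_dvd.2 h2).symm).pow_right
  exact ⟨u, g, v, _, h, h1.symm⟩

namespace Page

variable {K : Type} [Field K] [CharZero K] {q n : ℕ} {X : Page K q n}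

omit [CharZero K] in
lemma eig {x : X.S} {μ : K} (h : X.A x = μ • x) (hμ : ∀ a : ℕ, a ≤ n → μ ≠ a) : x = 0 := by
  have h1 := X.A.eigenspaces_iSupIndep μ
  refine Submodule.disjoint_def.1 h1 x (End.mem_eigenspace_iff.2 h) ?_
  have : (⊤ : Submodule K X.S) ≤ ⨆ ν, ⨆ _ : ν ≠ μ, X.A.eigenspace ν := by
    rw [← X.top]
    exact iSup₂_le fun a ha => iSup_le fun j => le_iSup₂_of_le (a : K)
      (hμ a (Finset.mem_range_succ_iff.1 ha)).symm inf_le_left
  exact this trivial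

lemma H_bot {a : ℕ} {j : ℤ} (h : n < a) {x : X.S} (hx : x ∈ X.H a j) : x = 0 :=
  eig (mem_H.1 hx).1 fun b hb e => by have := Nat.cast_injective (R := K) e; omega

omit [CharZero K] in
lemma ρ_H {a : ℕ} {j : ℤ} {x : X.S} (hx : x ∈ X.H a j) : X.ρ x ∈ X.H (a + 1) j := by
  rw [mem_H] at hx ⊢
  have h1 := LinearMap.congr_fun X.Aρ x
  have h2 := LinearMap.congr_fun X.Jρ x
  simp only [End.mul_apply, LinearMap.add_apply, End.one_apply, hx.1, hx.2, map_add,
    map_smul] at h1 h2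
  exact ⟨by rw [h1, Nat.cast_succ, add_smul, one_smul], h2⟩

omit [CharZero K] in
lemma γ_eig {a : ℕ} {j : ℤ} {x : X.S} (hx : x ∈ X.H a j) :
    X.A (X.γ x) = ((a : K) - 1) • X.γ x ∧ X.J (X.γ x) = ((j : K) + 2) • X.γ x := by
  rw [mem_H] at hx
  have h1 := LinearMap.congr_fun X.Aγ x
  have h2 := LinearMap.congr_fun X.Jγ x
  simp only [End.mul_apply, LinearMap.add_apply, LinearMap.sub_apply, End.one_apply, hx.1, hx.2,
    map_add, map_sub, map_smul, End.ofNat_apply, map_nsmul] at h1 h2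
  exact ⟨by rw [h1]; module, by rw [h2]; module⟩

omit [CharZero K] in
lemma γ_H {a : ℕ} {j : ℤ} {x : X.S} (hx : x ∈ X.H (a + 1) j) : X.γ x ∈ X.H a (j + 2) := by
  simpa [mem_H] using γ_eig hx

lemma γ_H0 {j : ℤ} {x : X.S} (hx : x ∈ X.H 0 j) : X.γ x = 0 :=
  eig (γ_eig hx).1 fun b _ e => by
    have : ((b + 1 : ℕ) : K) = 0 := by push_cast at e ⊢; linear_combination -e
    exact Nat.succ_ne_zero b (Nat.cast_eq_zero.1 this)

omit [CharZero K] in
lemma Λ_H {a : ℕ} {j : ℤ} {x : X.S} (hx : x ∈ X.H a j) : X.Λ x ∈ X.H a (j - 2) := by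
  rw [mem_H] at hx ⊢
  have h1 := LinearMap.congr_fun X.AΛ x
  have h2 := LinearMap.congr_fun X.JΛ x
  simp only [End.mul_apply, LinearMap.sub_apply, hx.1, hx.2, map_sub, map_smul, End.ofNat_apply,
    map_nsmul] at h1 h2
  exact ⟨h1, by rw [h2]; push_cast; module⟩

variable (X) in
/-- the `k`-th coordinate space -/
def T (i : ℤ) (k : ℕ) : Submodule K X.S := ⨆ a ∈ Finset.Icc k n, X.H a (i - a)

lemma mem_T {i j : ℤ} {k a : ℕ} (hk : k ≤ a) (hj : j = i - a) {x : X.S} (hx : x ∈ X.H a j) :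
    x ∈ X.T i k := by
  by_cases h : a ≤ n
  · exact mem_sup (Finset.mem_Icc.2 ⟨hk, h⟩) (hj ▸ hx)
  · rw [H_bot (by omega) hx]; exact zero_mem _

omit [CharZero K] in
lemma T_map {f : End K X.S} {W : Submodule K X.S} {i : ℤ} {k : ℕ}
    (h : ∀ a, k ≤ a → ∀ x ∈ X.H a (i - a), f x ∈ W) {x : X.S} (hx : x ∈ X.T i k) : f x ∈ W :=
  sup_mem (fun a ha => h a (Finset.mem_Icc.1 ha).1) hx

lemma ρ_T {i : ℤ} {k : ℕ} {x : X.S} (hx : x ∈ X.T i k) : X.ρ x ∈ X.T (i + 1) (k + 1) :=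
  T_map (fun a ha _ hy => mem_T (by omega) (by push_cast; ring) (ρ_H hy)) hx

lemma γ_T {i : ℤ} {k : ℕ} {x : X.S} (hx : x ∈ X.T i (k + 1)) : X.γ x ∈ X.T (i + 1) k :=
  T_map (fun a ha y hy => by
    obtain ⟨b, rfl⟩ : ∃ b, a = b + 1 := ⟨a - 1, by omega⟩
    exact mem_T (by omega) (by push_cast; ring) (γ_H hy)) hx

lemma Λ_T {i : ℤ} {k : ℕ} {x : X.S} (hx : x ∈ X.T i k) : X.Λ x ∈ X.T (i - 2) k :=
  T_map (fun a ha _ hy => mem_T ha (by ring) (Λ_H hy)) hx

lemma A_T {i : ℤ} {k : ℕ} {x : X.S} (hx : x ∈ X.T i k) : (X.A - k) x ∈ X.T i (k + 1) :=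
  T_map (fun a ha y hy => by
    rw [LinearMap.sub_apply, (mem_H.1 hy).1, End.natCast_apply, ← Nat.cast_smul_eq_nsmul K,
      ← sub_smul]
    rcases ha.eq_or_lt with rfl | h
    · simp
    · exact Submodule.smul_mem _ _ (mem_T h rfl hy)) hx

lemma T_mono {i : ℤ} {k l : ℕ} (h : k ≤ l) {x : X.S} (hx : x ∈ X.T i l) : x ∈ X.T i k :=
  T_map (f := 1) (fun _ ha _ hy => mem_T (h.trans ha) rfl hy) hx

lemma ργ_T {i : ℤ} {k : ℕ} {x : X.S} (hx : x ∈ X.T i (k + 1)) :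
    X.ρ (X.γ x) + X.γ (X.ρ x) = 0 :=
  (Submodule.mem_bot K).1 (T_map (f := X.ρ * X.γ + X.γ * X.ρ) (fun a ha y hy => by
    have h := LinearMap.congr_fun X.ργ y
    rw [End.mul_apply, (mem_H.1 hy).1, map_smul, LinearMap.zero_apply, smul_eq_zero] at h
    exact (Submodule.mem_bot K).2 (h.resolve_left (Nat.cast_ne_zero.2 (by omega)))) hx)

lemma d_C {i : ℤ} {x : ℕ → X.S} (hx : x ∈ X.C i) : X.d x ∈ X.C (i + 1) :=
  mem_C.2 fun k => add_mem (T_mono (Nat.le_succ k) (ρ_T (mem_C.1 hx k))) (γ_T (mem_C.1 hx _))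

lemma dd {i : ℤ} {x : ℕ → X.S} (hx : x ∈ X.C i) : X.d (X.d x) = 0 := by
  funext k
  have h1 : ∀ y, X.ρ (X.ρ y) = 0 := LinearMap.congr_fun X.ρρ
  have h2 : ∀ y, X.γ (X.γ y) = 0 := LinearMap.congr_fun X.γγ
  have h3 := ργ_T (i := i) (mem_C.1 hx (k + 1))
  simp only [d_apply, map_add, h1, h2, Pi.zero_apply, zero_add, add_zero, h3]

lemma B_le_Z (i : ℤ) : X.B i ≤ X.Z i := by
  rintro _ ⟨x, hx, rfl⟩
  exact ⟨by simpa using d_C hx, dd hx⟩

variable (X) in
/-- commutators with `Λ` -/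
def ρ2 : End K X.S := X.Λ * X.ρ - X.ρ * X.Λ

variable (X) in
/-- commutators with `Λ` -/
def γ2 : End K X.S := X.Λ * X.γ - X.γ * X.Λ

variable (X) in
/-- the homotopy -/
def e : End K (ℕ → X.S) := LinearMap.pi fun k =>
  (k : K) • X.ρ2 ∘ₗ LinearMap.proj (k - 1) - (X.γ2 * (X.A - (k : End K X.S))) ∘ₗ LinearMap.proj k

omit [CharZero K] in
lemma e_apply (x : ℕ → X.S) (k : ℕ) :
    X.e x k = (k : K) • X.ρ2 (x (k - 1)) - X.γ2 ((X.A - k) (x k)) := rfl

lemma e_C {i : ℤ} {x : ℕ → X.S} (hx : x ∈ X.C i) : X.e x ∈ X.C (i - 1) := by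
  refine mem_C.2 fun k => sub_mem ?_ ?_
  · cases k with
    | zero => simp
    | succ k =>
      have h := mem_C.1 hx k
      refine Submodule.smul_mem _ _ (sub_mem ?_ ?_)
      · exact (show i + 1 - 2 = i - 1 by ring) ▸ Λ_T (ρ_T h)
      · exact (show i - 2 + 1 = i - 1 by ring) ▸ ρ_T (Λ_T h)
  · have h := A_T (i := i) (mem_C.1 hx k)
    refine sub_mem ?_ ?_
    · exact (show i + 1 - 2 = i - 1 by ring) ▸ Λ_T (γ_T h)
    · exact (show i - 2 + 1 = i - 1 by ring) ▸ γ_T (Λ_T h)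

lemma de {i : ℤ} {x : ℕ → X.S} (hx : x ∈ X.C i) (k : ℕ) :
    X.d (X.e x) k + X.e (X.d x) k = X.D (x k) := by
  have h1 : ∀ y, X.ρ (X.ρ y) = 0 := LinearMap.congr_fun X.ρρ
  have h2 : ∀ y, X.γ (X.γ y) = 0 := LinearMap.congr_fun X.γγ
  have a1 : ∀ y, X.A (X.ρ y) = X.ρ (X.A y) + X.ρ y := fun y => by
    simpa using LinearMap.congr_fun X.Aρ y
  have a2 : ∀ y, X.A (X.γ y) = X.γ (X.A y) - X.γ y := fun y => by
    simpa using LinearMap.congr_fun X.Aγ y
  have a4 : X.ρ (X.γ (X.Λ (X.A (x k)))) = -X.γ (X.ρ (X.Λ (X.A (x k)))) := by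
    have := LinearMap.congr_fun X.ργ (X.Λ (x k))
    have h : X.A (X.Λ (x k)) = X.Λ (X.A (x k)) := LinearMap.congr_fun X.AΛ _
    rw [End.mul_apply, h] at this
    exact eq_neg_of_add_eq_zero_left this
  cases k with
  | zero =>
    simp only [d_apply, e_apply, ρ2, γ2, D, LinearMap.sub_apply, LinearMap.add_apply,
      End.mul_apply, End.natCast_apply, End.ofNat_apply, End.one_apply, map_add, map_sub,
      map_smul, map_nsmul, a1, a2, h1, h2, a4, map_zero, Nat.add_sub_cancel]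
    module
  | succ k =>
    have h := mem_C.1 hx (k + 1)
    have b1 := eq_neg_of_add_eq_zero_left (ργ_T (i := i) h)
    have b2 := eq_neg_of_add_eq_zero_left (ργ_T (Λ_T (i := i) h))
    simp only [d_apply, e_apply, ρ2, γ2, D, LinearMap.sub_apply, LinearMap.add_apply,
      End.mul_apply, End.natCast_apply, End.ofNat_apply, End.one_apply, map_add, map_sub,
      map_smul, map_nsmul, a1, a2, h1, h2, a4, b1, b2, map_zero, map_neg, Nat.add_sub_cancel]
    module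

omit [CharZero K] in
lemma ext_H {f g : End K X.S} (h : ∀ a j, ∀ x ∈ X.H a j, f x = g x) : f = g := by
  ext1 x
  have : x ∈ ⨆ a ∈ Finset.range (n + 1), ⨆ j : ℤ, X.H a j := X.top ▸ Submodule.mem_top
  refine sub_eq_zero.1 (sup_mem (f := f - g) (W := ⊥) (fun a _ y hy => ?_) this)
  exact (iSup_le fun j z hz => sub_eq_zero.2 (h a j z hz) :
    ⨆ j : ℤ, X.H a j ≤ LinearMap.ker (f - g)) hy

lemma de' {i : ℤ} {x : ℕ → X.S} (hx : x ∈ X.C i) :
    X.D.compLeft ℕ x = X.d (X.e x) + X.e (X.d x) := funext fun k => (de hx k).symm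

lemma dD {i : ℤ} {x : ℕ → X.S} (hx : x ∈ X.C i) :
    X.d (X.D.compLeft ℕ x) = X.D.compLeft ℕ (X.d x) := by
  rw [de' hx, de' (d_C hx), map_add, dd hx, dd (e_C hx), map_zero, zero_add, add_zero]

lemma single_C {a k : ℕ} {j : ℤ} {x : X.S} (hx : x ∈ X.H a j) (hk : k ≤ a) :
    Pi.single k x ∈ X.C (a + j) := mem_C.2 fun l => by
  by_cases h : l = k
  · subst h; rw [Pi.single_eq_same]; exact mem_T hk (by ring) hx
  · rw [Pi.single_eq_of_ne h]; exact zero_mem _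

lemma Dρ : X.D * X.ρ = X.ρ * X.D := ext_H fun a j x hx => by
  simpa [d_apply] using (congr_fun (dD (single_C hx a.zero_le)) 0).symm

lemma Dγ : X.D * X.γ = X.γ * X.D := ext_H fun a j x hx => by
  cases a with
  | zero => rw [End.mul_apply, End.mul_apply, γ_H0 hx, γ_H0 (comm_mem X.AD X.JD x hx), map_zero]
  | succ a => simpa [d_apply] using (congr_fun (dD (single_C hx (Nat.le_add_left 1 a))) 0).symm

lemma FD (hq : q ≠ 0) : X.F * X.D = X.D * X.F := by
  have hq' : (q : K) ≠ 0 := Nat.cast_ne_zero.2 hq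
  have r : ∀ y, X.F (X.ρ y) = X.ρ (X.F y) := LinearMap.congr_fun X.Fρ
  have a : ∀ y, X.F (X.A y) = X.A (X.F y) := LinearMap.congr_fun X.AF.symm
  have g : ∀ y, X.F (X.γ y) = (q : K) • X.γ (X.F y) := fun y => by
    simpa [Nat.cast_smul_eq_nsmul] using LinearMap.congr_fun X.Fγ y
  have l : ∀ y, X.F (X.Λ y) = (q : K)⁻¹ • X.Λ (X.F y) := fun y => by
    rw [eq_inv_smul_iff₀ hq']
    simpa [Nat.cast_smul_eq_nsmul] using LinearMap.congr_fun X.FΛ y
  ext1 x
  simp only [D, LinearMap.sub_apply, LinearMap.add_apply, End.mul_apply, End.ofNat_apply,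
    End.one_apply, map_add, map_sub, map_smul, map_nsmul, r, a, g, l, smul_inv_smul₀ hq',
    inv_smul_smul₀ hq']

omit [CharZero K] in
lemma comm_G {f : End K X.S} (h : f * X.D = X.D * f) (x : X.S) (hx : x ∈ X.G) : f x ∈ X.G :=
  End.mapsTo_maxGenEigenspace_of_comm (f := X.D) h.symm 0 hx

omit [CharZero K] in
/-- the projector onto `G` is a polynomial in `D` -/
lemma exists_proj : ∃ p v : K[X], p + v * Polynomial.X = 1 ∧ (∀ x, aeval X.D p x ∈ X.G) ∧
    ∀ x ∈ X.G, aeval X.D p x = x := by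
  obtain ⟨u, g, v, m, h1, h2⟩ := split_poly X.D.charpoly_monic.ne_zero
  obtain ⟨h3, h4⟩ := proj_spec X.D (W := ⊤) (fun _ _ => trivial) h1
    (fun x _ => by rw [h2, LinearMap.aeval_self_charpoly, LinearMap.zero_apply])
  exact ⟨u * g, v * Polynomial.X ^ m, by linear_combination h1, fun x => (h3 x trivial).2,
    fun x hx => h4 x ⟨trivial, hx⟩⟩

omit [CharZero K] in
lemma aeval_compLeft (f : End K X.S) (p : K[X]) (x : ℕ → X.S) (k : ℕ) :
    aeval (f.compLeft ℕ) p x k = aeval f p (x k) := by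
  induction p using Polynomial.induction_on generalizing x with
  | C a => simp
  | add p r hp hr => simp [hp, hr]
  | monomial m a h =>
    rw [pow_succ, ← mul_assoc, map_mul, map_mul (aeval f), aeval_X, aeval_X, End.mul_apply,
      End.mul_apply, h]
    rfl

end Page

end Pool.Agent.P.MP_898f40_nt.Bet
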