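import Mathlib

/-! Linear data of the first page of the weight spectral sequence of a strictly semistable model. -/

set_option autoImplicit false

namespace Pool.Agent.P.MP_898f40_nt.Bet

open Module Polynomial

/-- Cohomology `S` of all strata. `A` acts by `a` and `J` by `j` on the cohomology in degree `j` of
the `(a+1)`-fold intersections; `ρ` restriction, `γ` Gysin map, `Λ` a correspondence lowering the
degree by two, `F` geometric Frobenius. -/
structure Page (K : Type) [Field K] (q n : ℕ) where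
  S : Type
  [grp : AddCommGroup S]
  [mod : Module K S]
  [fin : FiniteDimensional K S]
  (A J ρ γ Λ F : End K S)
  top : ⨆ a ∈ Finset.range (n + 1), ⨆ j : ℤ, A.eigenspace a ⊓ J.eigenspace j = ⊤
  Aρ : A * ρ = ρ * (A + 1)
  Aγ : A * γ = γ * (A - 1)
  AΛ : A * Λ = Λ * A
  AF : A * F = F * A
  Jρ : J * ρ = ρ * J
  Jγ : J * γ = γ * (J + 2)
  JΛ : J * Λ = Λ * (J - 2)
  JF : J * F = F * J
  ρρ : ρ * ρ = 0
  γγ : γ * γ = 0
  ργ : (ρ * γ + γ * ρ) * A = 0
  Fρ : F * ρ = ρ * F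
  Fγ : F * γ = q * γ * F
  FΛ : q * F * Λ = Λ * F
  int : IsIntegral ℤ F

attribute [instance] Page.grp Page.mod Page.fin

/-- endomorphism of a subquotient -/
def ind {K V : Type} [Field K] [AddCommGroup V] [Module K V] {Z B : Submodule K V} (f : End K V)
    (hZ : ∀ x ∈ Z, f x ∈ Z) (hB : ∀ x ∈ B, f x ∈ B) : End K (Z ⧸ B.comap Z.subtype) :=
  Submodule.mapQ _ _ (f.restrict hZ) fun x hx => hB x hx

namespace Page

variable {K : Type} [Field K] {q n : ℕ} (X : Page K q n)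

/-- cohomology in degree `j` of the `(a+1)`-fold intersections -/
def H (a : ℕ) (j : ℤ) : Submodule K X.S := X.A.eigenspace a ⊓ X.J.eigenspace j

/-- the correspondence `D` -/
def D : End K X.S :=
  X.γ * X.Λ * X.ρ * (X.A + 2) - X.ρ * X.Λ * X.γ * X.A -
    (X.Λ * X.γ * X.ρ + X.γ * X.ρ * X.Λ) * (X.A + 1)

/-- total degree `i` of the first page: the `k`-th coordinate (Tate twist `-k`) lies in the sum
of the `H a (i - a)` over `k ≤ a ≤ n` -/
def C (i : ℤ) : Submodule K (ℕ → X.S) :=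
  Submodule.pi Set.univ fun k => ⨆ a ∈ Finset.Icc k n, X.H a (i - a)

/-- monodromy -/
def N : End K (ℕ → X.S) := LinearMap.funLeft K X.S (· + 1)

/-- differential -/
def d : End K (ℕ → X.S) := X.ρ.compLeft ℕ + X.γ.compLeft ℕ * X.N

/-- Frobenius -/
def Fr : End K (ℕ → X.S) := LinearMap.pi fun k => (q : K) ^ k • X.F ∘ₗ LinearMap.proj k

/-- cycles -/
def Z (i : ℤ) : Submodule K (ℕ → X.S) := X.C i ⊓ LinearMap.ker X.d

/-- boundaries -/
def B (i : ℤ) : Submodule K (ℕ → X.S) := (X.C (i - 1)).map X.d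

/-- total degree `i` of the second page -/
abbrev E2 (i : ℤ) : Type := X.Z i ⧸ (X.B i).comap (X.Z i).subtype

lemma N_apply (x : ℕ → X.S) (k : ℕ) : X.N x k = x (k + 1) := rfl
lemma d_apply (x : ℕ → X.S) (k : ℕ) : X.d x k = X.ρ (x k) + X.γ (x (k + 1)) := rfl
lemma Fr_apply (x : ℕ → X.S) (k : ℕ) : X.Fr x k = (q : K) ^ k • X.F (x k) := rfl

variable {X}

lemma mem_H {a : ℕ} {j : ℤ} {x : X.S} :
    x ∈ X.H a j ↔ X.A x = (a : K) • x ∧ X.J x = (j : K) • x := by
  simp [H]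

lemma mem_C {i : ℤ} {x : ℕ → X.S} :
    x ∈ X.C i ↔ ∀ k, x k ∈ ⨆ a ∈ Finset.Icc k n, X.H a (i - a) := by
  simp [C]

lemma comm_mem {f : End K X.S} (hA : X.A * f = f * X.A) (hJ : X.J * f = f * X.J) {a : ℕ} {j : ℤ}
    (x : X.S) (hx : x ∈ X.H a j) : f x ∈ X.H a j := by
  rw [mem_H] at hx ⊢
  have h1 := LinearMap.congr_fun hA x
  have h2 := LinearMap.congr_fun hJ x
  simp only [End.mul_apply, hx.1, hx.2, map_smul] at h1 h2
  exact ⟨h1, h2⟩

lemma sup_mem {f : End K X.S} {s : Finset ℕ} {U : ℕ → Submodule K X.S} {W : Submodule K X.S}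
    (h : ∀ a ∈ s, ∀ x ∈ U a, f x ∈ W) {x : X.S} (hx : x ∈ ⨆ a ∈ s, U a) : f x ∈ W :=
  (iSup₂_le fun a ha y hy => h a ha y hy : ⨆ a ∈ s, U a ≤ W.comap f) hx

lemma mem_sup {s : Finset ℕ} {U : ℕ → Submodule K X.S} {a : ℕ} (ha : a ∈ s) {x : X.S}
    (hx : x ∈ U a) : x ∈ ⨆ a ∈ s, U a :=
  (le_iSup₂_of_le a ha le_rfl : U a ≤ ⨆ a ∈ s, U a) hx

lemma N_C {i : ℤ} (x : ℕ → X.S) (hx : x ∈ X.C i) : X.N x ∈ X.C i :=
  mem_C.2 fun k => sup_mem (f := 1) (fun _ ha _ hy => mem_sup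
    (Finset.Icc_subset_Icc_left (Nat.le_succ k) ha) hy) (mem_C.1 hx (k + 1))

lemma Fr_C {i : ℤ} (x : ℕ → X.S) (hx : x ∈ X.C i) : X.Fr x ∈ X.C i :=
  mem_C.2 fun k => Submodule.smul_mem _ _
    (sup_mem (fun _ ha y hy => mem_sup ha (comm_mem X.AF X.JF y hy)) (mem_C.1 hx k))

lemma dN : X.d * X.N = X.N * X.d := rfl

lemma dFr : X.d * X.Fr = X.Fr * X.d := by
  ext1 x
  funext k
  have h1 := LinearMap.congr_fun X.Fρ (x k)
  have h2 := LinearMap.congr_fun X.Fγ (x (k + 1))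
  simp only [End.mul_apply, End.natCast_apply] at h1 h2
  simp only [End.mul_apply, d_apply, Fr_apply, map_add, map_smul, h1, h2, smul_add, pow_succ,
    mul_smul, Nat.cast_smul_eq_nsmul, map_nsmul]

lemma NFr (x : ℕ → X.S) : X.N (X.Fr x) = (q : K) • X.Fr (X.N x) := by
  funext k
  simp only [N_apply, Fr_apply, Pi.smul_apply, pow_succ', mul_smul]

lemma chain {f : End K (ℕ → X.S)} (hd : X.d * f = f * X.d) (hC : ∀ i, ∀ x ∈ X.C i, f x ∈ X.C i)
    (i : ℤ) : (∀ x ∈ X.Z i, f x ∈ X.Z i) ∧ ∀ x ∈ X.B i, f x ∈ X.B i := by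
  refine ⟨fun x hx => ⟨hC i x hx.1, ?_⟩, ?_⟩
  · have h := LinearMap.congr_fun hd x
    have h0 : X.d x = 0 := hx.2
    simp only [End.mul_apply, h0, map_zero] at h
    exact h
  · rintro _ ⟨x, hx, rfl⟩
    exact ⟨f x, hC _ x hx, LinearMap.congr_fun hd x⟩

variable (X)

/-- monodromy on the second page -/
def N2 (i : ℤ) : End K (X.E2 i) :=
  ind X.N (chain dN (fun _ => N_C) i).1 (chain dN (fun _ => N_C) i).2

/-- Frobenius on the second page -/
def F2 (i : ℤ) : End K (X.E2 i) :=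
  ind X.Fr (chain dFr (fun _ => Fr_C) i).1 (chain dFr (fun _ => Fr_C) i).2

lemma F2_ker (i : ℤ) : ∀ x ∈ LinearMap.ker (X.N2 i), X.F2 i x ∈ LinearMap.ker (X.N2 i) := by
  intro x hx
  have : X.N2 i (X.F2 i x) = (q : K) • X.F2 i (X.N2 i x) := by
    obtain ⟨y, rfl⟩ := Submodule.Quotient.mk_surjective _ x
    exact congrArg Submodule.Quotient.mk (Subtype.ext (NFr y.1))
  rw [LinearMap.mem_ker] at hx ⊢
  rw [this, hx, map_zero, smul_zero]

/-- a product of submodules that vanish beyond `n` -/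
def piEquiv (W : ℕ → Submodule K X.S) (h : ∀ k, n < k → W k = ⊥) :
    Submodule.pi Set.univ W ≃ₗ[K] ∀ k : Fin (n + 1), W k where
  toFun x k := ⟨x.1 k, x.2 k trivial⟩
  map_add' _ _ := rfl
  map_smul' _ _ := rfl
  invFun y := ⟨fun k => if hk : k < n + 1 then (y ⟨k, hk⟩ : X.S) else 0, fun k _ => by
    by_cases hk : k < n + 1
    · simp only [dif_pos hk]; exact (y ⟨k, hk⟩).2
    · simp only [dif_neg hk]; exact zero_mem _⟩
  left_inv x := Subtype.ext (funext fun k => by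
    have : x.1 k ∈ W k := x.2 k trivial
    by_cases hk : k < n + 1
    · exact dif_pos hk
    · rw [h k (by omega)] at this
      exact (dif_neg hk).trans ((Submodule.mem_bot K).1 this).symm)
  right_inv y := funext fun k => Subtype.ext (dif_pos k.2)

instance (i : ℤ) : FiniteDimensional K (X.C i) :=
  (X.piEquiv _ fun k hk => by simp [Finset.Icc_eq_empty_of_lt hk]).symm.finiteDimensional

instance (i : ℤ) : FiniteDimensional K (X.Z i) := Submodule.finiteDimensional_of_le inf_le_left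

/-- the local Euler factor `det (1 - T F | ker N)` in degree `i` -/
noncomputable def euler (i : ℤ) : K[X] :=
  (LinearMap.charpoly ((X.F2 i).restrict (X.F2_ker i))).reverse

lemma AD : X.A * X.D = X.D * X.A := by
  have h1 : X.A * (X.γ * X.Λ * X.ρ) = X.γ * X.Λ * X.ρ * X.A := by
    calc _ = X.γ * ((X.A * X.Λ) * X.ρ - X.Λ * X.ρ) := by
          rw [← mul_assoc, ← mul_assoc, X.Aγ]; noncomm_ring
      _ = _ := by rw [X.AΛ, mul_assoc X.Λ, X.Aρ]; noncomm_ring
  have h2 : X.A * (X.ρ * X.Λ * X.γ) = X.ρ * X.Λ * X.γ * X.A := by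
    calc _ = X.ρ * ((X.A * X.Λ) * X.γ + X.Λ * X.γ) := by
          rw [← mul_assoc, ← mul_assoc, X.Aρ]; noncomm_ring
      _ = _ := by rw [X.AΛ, mul_assoc X.Λ, X.Aγ]; noncomm_ring
  have h0 : X.A * (X.γ * X.ρ) = X.γ * X.ρ * X.A := by
    calc _ = X.γ * (X.A * X.ρ - X.ρ) := by rw [← mul_assoc, X.Aγ]; noncomm_ring
      _ = _ := by rw [X.Aρ]; noncomm_ring
  have h3 : Commute X.A (X.Λ * X.γ * X.ρ + X.γ * X.ρ * X.Λ) := by
    rw [mul_assoc X.Λ]
    exact (Commute.mul_right X.AΛ h0).add_right (Commute.mul_right h0 X.AΛ)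
  have a := Commute.refl X.A
  exact ((Commute.mul_right h1 (a.add_right (Commute.ofNat_right _ 2))).sub_right
    (Commute.mul_right h2 a)).sub_right (h3.mul_right (a.add_right (Commute.one_right _)))

lemma JD : X.J * X.D = X.D * X.J := by
  have a : Commute X.J X.A := by
    ext1 x
    have : x ∈ ⨆ a ∈ Finset.range (n + 1), ⨆ j : ℤ, X.H a j := X.top ▸ Submodule.mem_top
    refine sub_eq_zero.1 (sup_mem (f := X.J * X.A - X.A * X.J) (W := ⊥) (fun a _ y hy => ?_) this)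
    refine (iSup_le fun j z hz => ?_ : ⨆ j : ℤ, X.H a j ≤ LinearMap.ker _) hy
    simp [(mem_H.1 hz).1, (mem_H.1 hz).2, smul_comm (a : K)]
  have h1 : X.J * (X.γ * X.Λ) = X.γ * X.Λ * X.J := by
    calc _ = X.γ * (X.J * X.Λ + 2 * X.Λ) := by rw [← mul_assoc, X.Jγ]; noncomm_ring
      _ = _ := by rw [X.JΛ]; noncomm_ring
  have h2 : X.J * (X.Λ * X.γ) = X.Λ * X.γ * X.J := by
    calc _ = X.Λ * (X.J * X.γ - 2 * X.γ) := by rw [← mul_assoc, X.JΛ]; noncomm_ring
      _ = _ := by rw [X.Jγ]; noncomm_ring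
  have h3 : X.J * (X.γ * X.ρ * X.Λ) = X.γ * X.ρ * X.Λ * X.J := by
    calc _ = X.γ * ((X.J * X.ρ) * X.Λ + 2 * X.ρ * X.Λ) := by
          rw [← mul_assoc, ← mul_assoc, X.Jγ]; noncomm_ring
      _ = _ := by rw [X.Jρ, mul_assoc X.ρ, X.JΛ]; noncomm_ring
  have r : Commute X.J X.ρ := X.Jρ
  rw [D, mul_assoc X.ρ]
  exact (((Commute.mul_right h1 r).mul_right (a.add_right (Commute.ofNat_right _ 2))).sub_right
    ((r.mul_right h2).mul_right a)).sub_right (((Commute.mul_right h2 r).add_right h3).mul_right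
      (a.add_right (Commute.one_right _)))

/-- the trace of `F ^ m * D ^ k` on `H a j` -/
noncomputable def tr (a : ℕ) (j : ℤ) (m k : ℕ) : K :=
  LinearMap.trace K _ ((X.F ^ m * X.D ^ k).restrict (p := X.H a j) (comm_mem
    ((Commute.pow_right X.AF m).mul_right (Commute.pow_right X.AD k))
    ((Commute.pow_right X.JF m).mul_right (Commute.pow_right X.JD k))))

/-- the generalized kernel of `D` -/
def G : Submodule K X.S := X.D.maxGenEigenspace 0

/-- the dimension of the generalized kernel of `D` on total degree `i` of the first page -/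
noncomputable def null (i : ℤ) : ℕ :=
  ∑ a ∈ Finset.range (n + 1), (a + 1) * finrank K ↥(X.H a (i - a) ⊓ X.G)

/-- `L` is a Lefschetz operator: it forms an sl2-triple with `Λ` on the strata and satisfies hard
Lefschetz on the second page -/
structure Lef (L : End K X.S) : Prop where
  AL : X.A * L = L * X.A
  JL : X.J * L = L * (X.J + 2)
  Lρ : L * X.ρ = X.ρ * L
  Lγ : L * X.γ = X.γ * L
  FL : X.F * L = q * L * X.F
  LΛ : L * X.Λ - X.Λ * L = X.J + X.A - n
  inj : ∀ r : ℕ, ∀ x ∈ X.Z (n - r), (L ^ r).compLeft ℕ x ∈ X.B (n + r) → x ∈ X.B (n - r)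
  surj : ∀ r : ℕ, ∀ y ∈ X.Z (n + r), ∃ x ∈ X.Z (n - r), (L ^ r).compLeft ℕ x - y ∈ X.B (n + r)

/-- multiplicity of the Frobenius eigenvalue `α` on the primitive part of `H a j` in the
generalized kernel of `D` -/
noncomputable def mult (a : ℕ) (j : ℤ) (α : K) : ℕ :=
  finrank K ↥(X.H a j ⊓ LinearMap.ker X.Λ ⊓ X.G ⊓ X.F.maxGenEigenspace α)

/-- a multiple eigenvalue in codimension `a + 1` is missing in one of the two neighbouring
primitive parts in codimension `a` -/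
def NoV : Prop := ∀ (a : ℕ) (j : ℤ) (α : K), 2 ≤ X.mult (a + 1) j α →
  X.mult a j α = 0 ∨ (j + a + 1 < n ∧ X.mult a (j + 2) (q * α) = 0)

end Page

end Pool.Agent.P.MP_898f40_nt.Bet
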