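import Pool.Agent.P.MP_898f40_nt.Bet.Defs

/-! A correspondence on the strata that cuts out a direct summand of the second page. -/

set_option autoImplicit false

namespace Pool.Agent.P.MP_898f40_nt.Bet

open Module Polynomial

/-- an operator `ε` on the cohomology of the strata that commutes with the gradings, restriction,
Gysin map and Frobenius and is idempotent on the second page -/
structure Cut {K : Type} [Field K] {q n : ℕ} (X : Page K q n) where
  ε : End K X.S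
  Aε : X.A * ε = ε * X.A
  Jε : X.J * ε = ε * X.J
  ρε : X.ρ * ε = ε * X.ρ
  γε : X.γ * ε = ε * X.γ
  Fε : X.F * ε = ε * X.F
  idem : ∀ i, ∀ x ∈ X.Z i, (ε * ε - ε).compLeft ℕ x ∈ X.B i

namespace Cut

open Page

variable {K : Type} [Field K] {q n : ℕ} {X : Page K q n} (c : Cut X)

lemma dε : X.d * c.ε.compLeft ℕ = c.ε.compLeft ℕ * X.d := by
  ext1 x
  funext k
  have h1 : X.ρ (c.ε (x k)) = c.ε (X.ρ (x k)) := LinearMap.congr_fun c.ρε _
  have h2 : X.γ (c.ε (x (k + 1))) = c.ε (X.γ (x (k + 1))) := LinearMap.congr_fun c.γε _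
  change X.ρ (c.ε (x k)) + X.γ (c.ε (x (k + 1))) = c.ε (X.ρ (x k) + X.γ (x (k + 1)))
  rw [h1, h2, map_add]

lemma ε_C (i : ℤ) (x : ℕ → X.S) (hx : x ∈ X.C i) : c.ε.compLeft ℕ x ∈ X.C i :=
  mem_C.2 fun k => sup_mem (fun _ ha y hy => mem_sup ha (comm_mem c.Aε c.Jε y hy)) (mem_C.1 hx k)

/-- the idempotent on the second page -/
def ε2 (i : ℤ) : End K (X.E2 i) :=
  ind (c.ε.compLeft ℕ) (chain c.dε c.ε_C i).1 (chain c.dε c.ε_C i).2

lemma F2ε2 (i : ℤ) (x : X.E2 i) : c.ε2 i (X.F2 i x) = X.F2 i (c.ε2 i x) := by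
  obtain ⟨y, rfl⟩ := Submodule.Quotient.mk_surjective _ x
  refine congrArg Submodule.Quotient.mk (Subtype.ext (funext fun k => ?_))
  have h : X.F (c.ε (y.1 k)) = c.ε (X.F (y.1 k)) := LinearMap.congr_fun c.Fε _
  change c.ε ((q : K) ^ k • X.F (y.1 k)) = (q : K) ^ k • X.F (c.ε (y.1 k))
  rw [map_smul, h]

/-- the kernel of the monodromy on the summand -/
def inv (i : ℤ) : Submodule K (X.E2 i) := LinearMap.ker (X.N2 i) ⊓ LinearMap.ker (c.ε2 i - 1)

lemma F2_inv (i : ℤ) : ∀ x ∈ c.inv i, X.F2 i x ∈ c.inv i := fun x hx =>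
  ⟨X.F2_ker i x hx.1, sub_eq_zero.2 ((c.F2ε2 i x).trans (congrArg _ (sub_eq_zero.1 hx.2)))⟩

/-- the local Euler factor `det (1 - T F | inv i)` -/
noncomputable def euler (i : ℤ) : K[X] :=
  (LinearMap.charpoly ((X.F2 i).restrict (c.F2_inv i))).reverse

/-- the trace of `F ^ m * ε * D ^ k` on `H a j` -/
noncomputable def tr (a : ℕ) (j : ℤ) (m k : ℕ) : K :=
  LinearMap.trace K _ ((X.F ^ m * c.ε * X.D ^ k).restrict (p := X.H a j) (comm_mem
    (((Commute.pow_right X.AF m).mul_right c.Aε).mul_right (Commute.pow_right X.AD k))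
    (((Commute.pow_right X.JF m).mul_right c.Jε).mul_right (Commute.pow_right X.JD k))))

end Cut

end Pool.Agent.P.MP_898f40_nt.Bet
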