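import Pool.Agent.P.MP_898f40_nt.Bet.LowDefs
import Pool.Agent.P.MP_898f40_nt.Bet.Core

/-! Hard Lefschetz, weight-monodromy and vanishing in low degrees kill the differential on the
generalized kernel of `D`. -/

set_option autoImplicit false

namespace Pool.Agent.P.MP_898f40_nt.Bet.Page

open Module Polynomial

variable {K : Type} [Field K] [CharZero K] {q n : ℕ} {X : Page K q n} {L : End K X.S}

namespace LowX

lemma T_eig {i : ℤ} {k : ℕ} {b : ℤ} (hb : b < k) {y : X.S} (hy : y ∈ X.T i k)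
    (h : X.A y = (b : K) • y) : y = 0 := by
  refine Submodule.disjoint_def.1 (X.A.eigenspaces_iSupIndep (b : K)) y
    (End.mem_eigenspace_iff.2 h) (T_map (f := 1) (fun a ha z hz => ?_) hy)
  refine (le_iSup₂_of_le (f := fun ν (_ : ν ≠ (b : K)) => X.A.eigenspace ν) (a : K) ?_ le_rfl) hz.1
  intro e
  have : (a : ℤ) = b := by exact_mod_cast e
  omega

lemma bd : ∃ M : ℕ, ∀ (a : ℕ) (j : ℤ), (M : ℤ) < j → ∀ x ∈ X.H a j, x = 0 := by
  have h : {j : ℤ | X.J.HasEigenvalue (j : K)}.Finite :=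
    X.J.finite_hasEigenvalue.preimage (f := fun j : ℤ => (j : K)) Int.cast_injective.injOn
  obtain ⟨M, hM⟩ := h.bddAbove
  refine ⟨M.toNat, fun a j hj x hx => by_contra fun h0 => ?_⟩
  have : j ≤ M := hM (End.hasEigenvalue_of_hasEigenvector ⟨hx.2, h0⟩)
  omega

omit [CharZero K] in
lemma L_H (hL : X.Lef L) {a : ℕ} {j : ℤ} {x : X.S} (hx : x ∈ X.H a j) : L x ∈ X.H a (j + 2) := by
  rw [mem_H] at hx ⊢
  have h1 := LinearMap.congr_fun hL.AL x
  have h2 := LinearMap.congr_fun hL.JL x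
  simp only [End.mul_apply, LinearMap.add_apply, hx.1, hx.2, map_add, map_smul, End.ofNat_apply,
    map_nsmul] at h1 h2
  exact ⟨h1, by rw [h2]; push_cast; module⟩

omit [CharZero K] in
lemma LΛ_H (hL : X.Lef L) {a : ℕ} {j : ℤ} {x : X.S} (hx : x ∈ X.H a j) :
    L (X.Λ x) = X.Λ (L x) + ((j : K) + a - n) • x := by
  have h := LinearMap.congr_fun hL.LΛ x
  simp only [End.mul_apply, LinearMap.add_apply, LinearMap.sub_apply, (mem_H.1 hx).1,
    (mem_H.1 hx).2, End.natCast_apply] at h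
  rw [sub_eq_iff_eq_add.1 h]
  module

lemma DL (hL : X.Lef L) : X.D * L = L * X.D := ext_H fun a j x hx => by
  have r : ∀ y, L (X.ρ y) = X.ρ (L y) := LinearMap.congr_fun hL.Lρ
  have g : ∀ y, L (X.γ y) = X.γ (L y) := LinearMap.congr_fun hL.Lγ
  have h1 := LΛ_H hL hx
  have h2 := LΛ_H hL (ρ_H hx)
  have h3 := LΛ_H hL (γ_H (ρ_H hx))
  have h4 : L (X.Λ (X.γ x)) = X.Λ (L (X.γ x)) + ((j : K) + a + 1 - n) • X.γ x := by
    cases a with
    | zero => simp [γ_H0 hx]
    | succ a => rw [LΛ_H hL (γ_H hx)]; push_cast; module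
  have h5 := LinearMap.congr_fun X.ργ x
  simp only [End.mul_apply, LinearMap.add_apply, (mem_H.1 hx).1, map_smul,
    LinearMap.zero_apply] at h5
  simp only [D, LinearMap.sub_apply, LinearMap.add_apply, End.mul_apply, End.ofNat_apply,
    End.one_apply, map_add, map_sub, map_smul, map_nsmul, (mem_H.1 hx).1,
    (mem_H.1 (L_H hL hx)).1, r, g, h1, h2, h3, h4]
  push_cast
  linear_combination (norm := module) ((j : K) + a + 1 - n) • h5

/-- vectors of positive weight are divisible by `L` -/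
lemma L_surj (hL : X.Lef L) {a : ℕ} {j : ℤ} (h : (n : ℤ) < a + j) {x : X.S} (hx : x ∈ X.H a j) :
    ∃ u ∈ X.H a (j - 2), L u = x := by
  have hT : ∀ y ∈ X.H a j, (L * X.Λ) y ∈ X.H a j := fun y hy => by
    simpa using L_H hL (Λ_H hy)
  have hp : ∀ k : ℕ, ∀ y ∈ X.H a j, (L ^ k) y ∈ X.H a (j + 2 * k) := by
    intro k y hy
    induction k with
    | zero => simpa using hy
    | succ k ih =>
      rw [pow_succ', End.mul_apply]
      exact (show j + 2 * k + 2 = j + 2 * (k + 1 : ℕ) by push_cast; ring) ▸ L_H hL ih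
  have hi : Function.Injective ((L * X.Λ).restrict hT) := by
    refine (injective_iff_map_eq_zero _).2 fun y hy => ?_
    have h0 : L (X.Λ y) = 0 := congrArg Subtype.val hy
    have h1 : ∀ k : ℕ, X.Λ ((L ^ (k + 1)) y) =
        -((((k : K) + 1) * ((j : K) + a - n + k)) • (L ^ k) y) := by
      intro k
      induction k with
      | zero =>
        have := LΛ_H hL y.2
        rw [h0] at this
        simp only [zero_add, pow_one, pow_zero, End.one_apply, Nat.cast_zero, add_zero, one_mul]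
        exact eq_neg_of_add_eq_zero_left this.symm
      | succ k ih =>
        have := LΛ_H hL (hp (k + 1) y y.2)
        rw [ih, map_neg, map_smul, ← End.mul_apply L (L ^ k), ← pow_succ',
          ← End.mul_apply L (L ^ (k + 1)), ← pow_succ'] at this
        push_cast at this ⊢
        linear_combination (norm := module) -this
    have h2 : ∀ k : ℕ, (L ^ k) y = 0 → y.1 = 0 := by
      intro k
      induction k with
      | zero => simp
      | succ k ih =>
        intro hk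
        have := h1 k
        rw [hk, map_zero, eq_comm, neg_eq_zero, smul_eq_zero] at this
        refine ih (this.resolve_left (mul_ne_zero (by exact_mod_cast k.succ_ne_zero) ?_))
        have : j + a - n + k ≠ 0 := by omega
        exact_mod_cast this
    obtain ⟨M, hM⟩ := bd (X := X)
    exact Subtype.ext (h2 (M + 1 + j.natAbs) (hM a _ (by omega) _ (hp _ y y.2)))
  obtain ⟨y, hy⟩ := LinearMap.injective_iff_surjective.1 hi ⟨x, hx⟩
  exact ⟨X.Λ y, Λ_H y.2, congrArg Subtype.val hy⟩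

omit [CharZero K] in
lemma d_single0 (x : X.S) : X.d (Pi.single 0 x) = Pi.single 0 (X.ρ x) := by
  funext k
  cases k <;> simp [d_apply]

omit [CharZero K] in
lemma d_single1 {y : X.S} (h : X.ρ y = 0) : X.d (Pi.single 1 y) = Pi.single 0 (X.γ y) := by
  funext k
  rcases k with _ | _ | k <;> simp [d_apply, h]

omit [CharZero K] in
lemma N_pow (r : ℕ) (x : ℕ → X.S) (k : ℕ) : (X.N ^ r) x k = x (k + r) := by
  induction r generalizing k with
  | zero => rfl
  | succ r ih => rw [pow_succ', End.mul_apply, N_apply, ih]; congr 1; omega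

omit [CharZero K] in
lemma single_P {a k : ℕ} {j p : ℤ} {x : X.S} (hx : x ∈ X.H a j) (h : p + 2 * k = a) :
    Pi.single k x ∈ X.P p := fun l _ => by
  change _ ∈ X.A.eigenspace ((p + 2 * l : ℤ) : K)
  by_cases e : l = k
  · subst e
    rw [Pi.single_eq_same, h]
    simpa using hx.1
  · rw [Pi.single_eq_of_ne e]
    exact zero_mem _

end LowX

open LowX in
theorem low' (hL : X.Lef L)
    (hi : ∀ x ∈ X.Z n ⊓ X.P (-(1 : ℕ)), (X.N ^ 1) x ∈ X.B n → x ∈ X.B n)
    (hs : ∀ (i : ℤ) (r : ℕ), i ≤ n → ∀ y ∈ X.Z i ⊓ X.P r, ∃ x ∈ X.Z i ⊓ X.P (-r),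
      (X.N ^ r) x - y ∈ X.B i) (hlow : X.Low) : ∀ x ∈ X.G, X.ρ x = 0 ∧ X.γ x = 0 := by
  obtain ⟨p, -, -, πG, πid⟩ := exists_proj (X := X)
  set π := aeval X.D p
  have c : ∀ f : End K X.S, X.D * f = f * X.D → ∀ z, π (f z) = f (π z) := fun f hf z =>
    LinearMap.congr_fun (Algebra.commute_of_mem_adjoin_singleton_of_commute
      (aeval_mem_adjoin_singleton K X.D) (Commute.symm hf)).symm.eq z
  have πH : ∀ {a j y}, y ∈ X.H a j → π y ∈ X.H a j ⊓ X.G := fun hy =>
    ⟨aeval_apply_smul_mem_of_le_comap hy p _ (comm_mem X.AD X.JD), πG _⟩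
  have r : ∀ y, L (X.ρ y) = X.ρ (L y) := LinearMap.congr_fun hL.Lρ
  have g : ∀ y, L (X.γ y) = X.γ (L y) := LinearMap.congr_fun hL.Lγ
  have LG : ∀ {a : ℕ} {j : ℤ} {x}, (n : ℤ) < a + j → x ∈ X.H a j ⊓ X.G →
      ∃ u ∈ X.H a (j - 2) ⊓ X.G, L u = x := fun h hx => by
    obtain ⟨u, hu, e⟩ := L_surj hL h hx.1
    exact ⟨π u, πH hu, by rw [← c L (DL hL), e, πid _ hx.2]⟩
  have ρG : ∀ {a j x}, x ∈ X.H a j ⊓ X.G → X.ρ x ∈ X.H (a + 1) j ⊓ X.G := fun hx =>
    ⟨ρ_H hx.1, comm_G Dρ.symm _ hx.2⟩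
  have γG : ∀ {a j x}, x ∈ X.H (a + 1) j ⊓ X.G → X.γ x ∈ X.H a (j + 2) ⊓ X.G := fun hx =>
    ⟨γ_H hx.1, comm_G Dγ.symm _ hx.2⟩
  -- the Gysin map vanishes in low degrees
  have s1 : ∀ (a : ℕ) (j : ℤ), j + 2 ≤ n → a + j ≤ n → ∀ x ∈ X.H a j ⊓ X.G, X.γ x = 0 := by
    intro a j hj ha x hx
    cases a with
    | zero => exact γ_H0 hx.1
    | succ a =>
    obtain ⟨x', hx', v, hv, e⟩ := hs _ (a + 1) ha (Pi.single 0 x)
      ⟨⟨single_C hx.1 (Nat.zero_le _), show X.d _ = 0 by
        rw [d_single0, hlow _ j hj x hx, Pi.single_zero]⟩,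
        single_P hx.1 (by simp)⟩
    have e0 := congr_fun e 0
    rw [d_apply, Pi.sub_apply, N_pow, Pi.single_eq_same, zero_add, zero_add] at e0
    have e1 : X.γ (x' (a + 1)) = 0 := by
      have h1 := congr_fun (show X.d x' = 0 from hx'.1.2) a
      rwa [d_apply, T_eig (b := -((a + 1 : ℕ) : ℤ) + 2 * a) (by omega) (mem_C.1 hx'.1.1 a)
        (End.mem_eigenspace_iff.1 (hx'.2 a trivial)), map_zero, zero_add] at h1
    have e2 : X.γ x = -(X.γ * X.ρ * π) (v 0) := by
      have h1 := congrArg (fun z => X.γ (π z)) e0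
      simp only [map_add, map_sub, c _ Dρ, c _ Dγ, πid _ hx.2] at h1
      rw [← c _ Dγ (x' (a + 1)), e1, map_zero, show X.γ (X.γ (π (v 1))) = 0 from
        LinearMap.congr_fun X.γγ _, add_zero, zero_sub] at h1
      rw [End.mul_apply, End.mul_apply, h1, neg_neg]
    cases a with
    | zero =>
      rw [e2, neg_eq_zero]
      exact T_map (W := ⊥) (fun b _ y hy => by
        rw [End.mul_apply, End.mul_apply, hlow _ _ (by push_cast; omega) _ (πH hy), map_zero]
        exact zero_mem _) (mem_C.1 hv 0)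
    | succ a =>
      have h1 : (X.γ * X.ρ * π) (v 0) ∈ X.A.eigenspace ((0 : ℕ) : K) :=
        T_map (fun b _ y hy => by
          cases b with
          | zero => exact (γ_H (ρ_H (πH hy).1)).1
          | succ b =>
            rw [End.mul_apply, End.mul_apply, hlow _ _ (by push_cast at ha ⊢; omega) _ (πH hy),
              map_zero]
            exact zero_mem _) (mem_C.1 hv 0)
      have h2 := End.mem_eigenspace_iff.1 (neg_mem h1)
      rw [← e2, (mem_H.1 (γ_H hx.1)).1, Nat.cast_zero, zero_smul, smul_eq_zero] at h2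
      exact h2.resolve_left (Nat.cast_ne_zero.2 a.succ_ne_zero)
  -- boundaries in low degrees are killed by the projector
  have s2 : ∀ (i : ℤ) (k : ℕ), i ≤ n → i - k + 1 ≤ n → ∀ z ∈ X.B i, π (z k) = 0 := by
    rintro i k h1 h2 _ ⟨w, hw, rfl⟩
    rw [d_apply, map_add, c _ Dρ, c _ Dγ]
    have a1 : (X.ρ * π) (w k) ∈ (⊥ : Submodule K X.S) :=
      T_map (fun b hb y hy => hlow _ _ (by omega) _ (πH hy)) (mem_C.1 hw k)
    have a2 : (X.γ * π) (w (k + 1)) ∈ (⊥ : Submodule K X.S) :=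
      T_map (fun b hb y hy => s1 _ _ (by omega) (by omega) _ (πH hy)) (mem_C.1 hw (k + 1))
    rw [show X.ρ (π (w k)) = 0 from a1, show X.γ (π (w (k + 1))) = 0 from a2, add_zero]
  -- hard Lefschetz next to the middle degree
  have s3 : ∀ (a : ℕ) (j : ℤ), a + j + 1 = n → ∀ u ∈ X.H a j ⊓ X.G, X.ρ u = 0 →
      Pi.single 0 (L u) ∈ X.B (n + 1) → u = 0 := by
    intro a j h u hu h1 h2
    have h3 := hL.inj 1 (Pi.single 0 u) ⟨(show a + j = n - (1 : ℕ) by push_cast; omega) ▸
      single_C hu.1 (Nat.zero_le _), show X.d _ = 0 by rw [d_single0, h1, Pi.single_zero]⟩ (by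
        have : (L ^ 1).compLeft ℕ (Pi.single 0 u) = Pi.single 0 (L u) := by
          funext k
          cases k <;> simp
        rw [this]
        exact h2)
    have h4 := s2 _ 0 (by push_cast; omega) (by push_cast; omega) _ h3
    rwa [Pi.single_eq_same, πid _ hu.2] at h4
  have s4 : ∀ (a : ℕ) (j : ℤ), a + j = n → ∀ x ∈ X.H a j ⊓ X.G, X.ρ x = 0 := by
    intro a j h x hx
    obtain ⟨u, hu, e⟩ := LG (by push_cast; omega) (ρG hx)
    rw [← e, s3 _ _ (by push_cast; omega) u hu (hlow _ _ (by omega) u hu)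
      ⟨Pi.single 0 x, (show (a : ℤ) + j = n + 1 - 1 by omega) ▸ single_C hx.1 (Nat.zero_le _),
        by rw [d_single0, e]⟩, map_zero]
  have s5 : ∀ y ∈ X.H 1 (n - 1) ⊓ X.G, ∃ u ∈ X.H 0 (n - 1) ⊓ X.G, L u = X.γ y ∧
      (X.ρ u = 0 → u = 0) := by
    intro y hy
    obtain ⟨u, hu, e⟩ := LG (by push_cast; omega) (γG hy)
    rw [add_sub_cancel_right] at hu
    refine ⟨u, hu, e, fun h => s3 _ _ (by push_cast; omega) u hu h
      ⟨Pi.single 1 y, (show ((1 : ℕ) : ℤ) + (n - 1) = n + 1 - 1 by push_cast; omega) ▸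
        single_C hy.1 le_rfl, by rw [d_single1 (s4 _ _ (by push_cast; omega) y hy), e]⟩⟩
  have s6 : ∀ x ∈ X.H 0 (n - 1) ⊓ X.G, X.γ (X.ρ x) = 0 → X.ρ x = 0 := by
    intro x hx h
    have hy := ρG hx
    have h3 := hi (Pi.single 1 (X.ρ x))
      ⟨⟨(show ((0 + 1 : ℕ) : ℤ) + (n - 1) = n by push_cast; omega) ▸ single_C hy.1 le_rfl,
        show X.d _ = 0 by rw [d_single1 (LinearMap.congr_fun X.ρρ x), h, Pi.single_zero]⟩,
        single_P hy.1 (by simp)⟩
      ⟨Pi.single 0 x, (show ((0 : ℕ) : ℤ) + (n - 1) = n - 1 by simp) ▸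
        single_C hx.1 le_rfl, by
          rw [d_single0]
          funext k
          rw [N_pow]
          cases k <;> simp⟩
    have h4 := s2 _ 1 le_rfl (by push_cast; omega) _ h3
    rwa [Pi.single_eq_same, πid _ hy.2] at h4
  have s7 : ∀ x ∈ X.H 0 (n - 1) ⊓ X.G, X.ρ x = 0 := by
    have key : ∀ m : ℕ, ∀ x ∈ X.H 0 (n - 1) ⊓ X.G, (X.D ^ m) x = 0 → X.ρ x = 0 := by
      intro m
      induction m with
      | zero => intro x _ h; rw [show x = 0 from h, map_zero]
      | succ m ih =>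
        intro x hx h
        have hD : X.D x ∈ X.H 0 (n - 1) ⊓ X.G :=
          ⟨comm_mem X.AD X.JD x hx.1, comm_G rfl x hx.2⟩
        have h1 := ih _ hD (by rwa [pow_succ, End.mul_apply] at h)
        obtain ⟨u, hu, e, hu0⟩ := s5 _ (ρG hx)
        have b1 : X.γ (π (X.Λ (X.ρ x))) = 0 :=
          s1 _ _ (by omega) (by push_cast; omega) _ (πH (Λ_H (ρ_H hx.1)))
        have b2 : X.ρ (π (X.Λ x)) = 0 := hlow _ _ (by omega) _ (πH (Λ_H hx.1))
        have b3 : X.ρ (π (X.Λ u)) = 0 := hlow _ _ (by omega) _ (πH (Λ_H hu.1))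
        have b4 : X.Λ (L u) = L (X.Λ u) + u := by
          rw [LΛ_H hL hu.1]
          push_cast
          module
        rw [← πid _ hD.2] at h1
        simp only [D, LinearMap.sub_apply, LinearMap.add_apply, End.mul_apply, End.ofNat_apply,
          End.one_apply, map_add, map_sub, map_nsmul, (mem_H.1 hx.1).1, Nat.cast_zero, zero_smul,
          map_zero, zero_add, c _ Dρ, c _ Dγ, b1, b2, ← e, b4, c L (DL hL), ← r, b3, πid _ hu.2,
          smul_zero, add_zero, sub_zero, zero_sub, neg_eq_zero, map_neg] at h1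
        exact s6 x hx (by rw [← e, hu0 h1, map_zero])
    intro x hx
    obtain ⟨m, hm⟩ := (End.mem_maxGenEigenspace _ _ _).1 hx.2
    exact key m x hx (by simpa using hm)
  have s8 : ∀ (m a : ℕ) (j : ℤ), a + j ≤ n + m → ∀ x ∈ X.H a j ⊓ X.G,
      X.ρ x = 0 ∧ X.γ x = 0 := by
    intro m
    induction m with
    | zero =>
      intro a j h x hx
      by_cases hj : j + 2 ≤ n
      · exact ⟨hlow _ _ hj x hx, s1 _ _ hj (by omega) x hx⟩
      rcases a with _ | _ | a
      · refine ⟨?_, γ_H0 hx.1⟩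
        by_cases h1 : j = n - 1
        · exact s7 x (h1 ▸ hx)
        · exact s4 _ _ (by omega) x hx
      · obtain ⟨u, hu, e, hu0⟩ := s5 x ((show j = n - 1 by omega) ▸ hx)
        exact ⟨s4 _ _ (by omega) x hx, by rw [← e, hu0 (s7 u hu), map_zero]⟩
      · omega
    | succ m ih =>
      intro a j h x hx
      by_cases h1 : a + j ≤ n + m
      · exact ih a j h1 x hx
      obtain ⟨u, hu, rfl⟩ := LG (by omega) hx
      obtain ⟨h2, h3⟩ := ih a _ (by omega) u hu
      exact ⟨by rw [← r, h2, map_zero], by rw [← g, h3, map_zero]⟩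
  have s9 : ∀ a j, ∀ y ∈ X.H a j, X.ρ (π y) = 0 ∧ X.γ (π y) = 0 := fun a j y hy =>
    s8 (a + j).toNat a j (by omega) _ (πH hy)
  intro x hx
  rw [← πid x hx]
  exact ⟨LinearMap.congr_fun (ext_H (f := X.ρ * π) (g := 0) fun a j y hy => (s9 a j y hy).1) x,
    LinearMap.congr_fun (ext_H (f := X.γ * π) (g := 0) fun a j y hy => (s9 a j y hy).2) x⟩

theorem low (hL : X.Lef L) (hW : X.WM) (hlow : X.Low) : ∀ x ∈ X.G, X.ρ x = 0 ∧ X.γ x = 0 :=
  low' hL (hW.inj n 1) (fun i r _ => hW.surj i r) hlow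

end Pool.Agent.P.MP_898f40_nt.Bet.Page
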