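import Pool.Agent.P.MP_898f40_nt.Bet.Defs

/-! Weight-monodromy on the second page, and vanishing of restriction maps in low degrees. -/

set_option autoImplicit false

namespace Pool.Agent.P.MP_898f40_nt.Bet.Page

variable {K : Type} [Field K] {q n : ℕ} (X : Page K q n)

/-- the column `p` of the first page: the `k`-th coordinate lies on the `(p+2k+1)`-fold
intersections -/
def P (p : ℤ) : Submodule K (ℕ → X.S) :=
  Submodule.pi Set.univ fun k => X.A.eigenspace ((p + 2 * k : ℤ) : K)

/-- weight-monodromy: `N ^ r` is a bijection from column `-r` to column `r` of the second page,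
in every total degree -/
structure WM : Prop where
  inj : ∀ (i : ℤ) (r : ℕ), ∀ x ∈ X.Z i ⊓ X.P (-r), (X.N ^ r) x ∈ X.B i → x ∈ X.B i
  surj : ∀ (i : ℤ) (r : ℕ), ∀ y ∈ X.Z i ⊓ X.P r, ∃ x ∈ X.Z i ⊓ X.P (-r), (X.N ^ r) x - y ∈ X.B i

/-- restriction vanishes on the generalized kernel of `D` in cohomological degrees `≤ n - 2` -/
def Low : Prop := ∀ (a : ℕ) (j : ℤ), j + 2 ≤ n → ∀ x ∈ X.H a j ⊓ X.G, X.ρ x = 0

end Pool.Agent.P.MP_898f40_nt.Bet.Page
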