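import Pool.Agent.P.MP_898f40_nt.Bet.Core
import Pool.Agent.P.MP_898f40_nt.Newt

/-! The Betti number criterion. -/

set_option autoImplicit false

namespace Pool.Agent.P.MP_898f40_nt.Bet

open Module Polynomial LinearMap

lemma charpoly_eq {K V W : Type} [Field K] [AddCommGroup V] [Module K V] [FiniteDimensional K V]
    [AddCommGroup W] [Module K W] [FiniteDimensional K W] {f : End K V} {g : End K W}
    (φ : V →ₗ[K] W) (h : Function.Bijective φ) (c : ∀ x, g (φ x) = φ (f x)) :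
    g.charpoly = f.charpoly := by
  rw [← (LinearEquiv.ofBijective φ h).charpoly_conj f]
  congr 1
  ext1 y
  obtain ⟨x, rfl⟩ := (LinearEquiv.ofBijective φ h).surjective y
  rw [LinearEquiv.conj_apply_apply, LinearEquiv.symm_apply_apply]
  exact c x

lemma aeval_restrict {K V : Type} [Field K] [AddCommGroup V] [Module K V] {f : End K V}
    {W : Submodule K V} (h : ∀ x ∈ W, f x ∈ W) (p : K[X]) (x : W) :
    (aeval (show End K W from f.restrict h) p x : V) = aeval f p x := by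
  induction p using Polynomial.induction_on generalizing x with
  | C a => simp
  | add p r hp hr => simp [hp, hr]
  | monomial m a ih =>
    rw [pow_succ, ← mul_assoc, map_mul, map_mul (aeval f), aeval_X, aeval_X, End.mul_apply,
      End.mul_apply, ih]
    rfl

/-- the trace on the generalized kernel is a rational combination of traces -/
lemma trace_G {K V : Type} [Field K] [CharZero K] [AddCommGroup V] [Module K V]
    [FiniteDimensional K V] {D f : End K V} {W : Submodule K V} (hD : ∀ x ∈ W, D x ∈ W)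
    (hf : ∀ x ∈ W ⊓ D.maxGenEigenspace 0, f x ∈ W ⊓ D.maxGenEigenspace 0)
    {hk : ∀ k : ℕ, ∀ x ∈ W, (f * D ^ k) x ∈ W} {t : ℕ → ℚ}
    (ht : ∀ k, trace K W ((f * D ^ k).restrict (hk k)) = t k) {u g v : ℚ[X]} {m : ℕ}
    (h1 : u * g + v * X ^ (m + 1) = 1)
    (h2 : (X ^ m * g).map (algebraMap ℚ K) = charpoly (D.restrict hD)) :
    trace K _ (f.restrict hf) =
      (∑ k ∈ Finset.range ((u * g).natDegree + 1), (u * g).coeff k * t k : ℚ) := by
  obtain ⟨h3, h4⟩ := proj_spec D hD (u := u.map (algebraMap ℚ K)) (g := g.map (algebraMap ℚ K))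
    (v := v.map (algebraMap ℚ K)) (m := m)
    (by simpa using congrArg (Polynomial.map (algebraMap ℚ K)) h1)
    (fun x hx => by
      have := aeval_restrict hD (charpoly (D.restrict hD)) ⟨x, hx⟩
      rw [aeval_self_charpoly, ← h2] at this
      simpa using this.symm)
  rw [← Polynomial.map_mul] at h3 h4
  generalize u * g = P at h3 h4
  let π : W →ₗ[K] ↥(W ⊓ D.maxGenEigenspace 0) :=
    (aeval D (P.map (algebraMap ℚ K)) ∘ₗ W.subtype).codRestrict _ fun x => h3 x x.2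
  let ι : ↥(W ⊓ D.maxGenEigenspace 0) →ₗ[K] W := Submodule.inclusion inf_le_left ∘ₗ f.restrict hf
  have e1 : f.restrict hf = π ∘ₗ ι := by
    ext x
    exact (h4 _ (hf x x.2)).symm
  have e2 : ι ∘ₗ π = ∑ k ∈ Finset.range (P.natDegree + 1),
      (P.coeff k : K) • (f * D ^ k).restrict (hk k) := by
    ext x
    change f (aeval D (P.map (algebraMap ℚ K)) x) = _
    rw [aeval_eq_sum_range' (Nat.lt_succ_of_le natDegree_map_le)]
    simp
  rw [e1, trace_comp_comm', e2, map_sum]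
  simp [ht]

namespace Page

variable {K : Type} [Field K] [CharZero K] {q n : ℕ} {X : Page K q n}

variable (X) in
/-- the generalized kernel of `D` on the first page -/
def M (i : ℤ) : Submodule K (ℕ → X.S) := Submodule.pi Set.univ fun k => X.T i k ⊓ X.G

omit [CharZero K] in
lemma mem_M {i : ℤ} {x : ℕ → X.S} : x ∈ X.M i ↔ ∀ k, x k ∈ X.T i k ⊓ X.G := by
  simp only [M, Submodule.mem_pi, Set.mem_univ, true_imp_iff]

lemma D_B {i : ℤ} {x : ℕ → X.S} (hx : x ∈ X.Z i) : X.D.compLeft ℕ x ∈ X.B i := by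
  rw [de' hx.1, show X.d x = 0 from hx.2, map_zero, add_zero]
  exact ⟨_, e_C hx.1, rfl⟩

lemma Z_le (i : ℤ) : X.Z i ≤ X.Z i ⊓ X.M i ⊔ X.B i := by
  intro x hx
  obtain ⟨p, v, h1, h2, -⟩ := exists_proj (X := X)
  have hZ : ∀ r : K[X], aeval (show End K _ from X.D.compLeft ℕ) r x ∈ X.Z i := fun r =>
    aeval_apply_smul_mem_of_le_comap hx r _ fun y hy => B_le_Z i (D_B hy)
  have h3 := congrArg (fun r => aeval (show End K _ from X.D.compLeft ℕ) r x) h1
  simp only [mul_comm v, map_add, map_mul, map_one, aeval_X, LinearMap.add_apply, End.mul_apply,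
    End.one_apply] at h3
  rw [← h3]
  refine Submodule.add_mem_sup ⟨hZ p, mem_M.2 fun k => ⟨mem_C.1 (hZ p).1 k, ?_⟩⟩ (D_B (hZ v))
  rw [aeval_compLeft]
  exact h2 _

omit [CharZero K] in
lemma T_inf (i : ℤ) (k : ℕ) :
    X.T i k ⊓ X.G = ⨆ a ∈ Finset.Icc k n, (X.H a (i - a) ⊓ X.G) := by
  refine le_antisymm (fun x hx => ?_) (iSup₂_le fun a ha y hy => ⟨mem_sup ha hy.1, hy.2⟩)
  obtain ⟨p, -, -, h2, h3⟩ := exists_proj (X := X)
  rw [← h3 x hx.2]
  exact sup_mem (fun a ha y hy => mem_sup (U := fun a => X.H a (i - a) ⊓ X.G) ha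
    ⟨aeval_apply_smul_mem_of_le_comap hy p _ (comm_mem X.AD X.JD), h2 y⟩) hx.1

lemma trace_T (i : ℤ) (k : ℕ) {f : End K X.S}
    (h1 : ∀ a : ℕ, ∀ x ∈ X.H a (i - a) ⊓ X.G, f x ∈ X.H a (i - a) ⊓ X.G)
    (h2 : ∀ x ∈ X.T i k ⊓ X.G, f x ∈ X.T i k ⊓ X.G) :
    trace K _ (f.restrict h2) = ∑ a ∈ Finset.Icc k n, trace K _ (f.restrict (h1 a)) := by
  have h3 : iSupIndep fun a : ℕ => X.A.eigenspace (a : K) :=
    X.A.eigenspaces_iSupIndep.comp (Nat.cast_injective (R := K))
  have h4 : iSupIndep fun a : ℕ => X.H a (i - a) ⊓ X.G :=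
    h3.mono fun _ => inf_le_left.trans inf_le_left
  have h5 : iSupIndep fun a : Finset.Icc k n => X.H a (i - a) ⊓ X.G :=
    h4.comp (f := fun a : Finset.Icc k n => (a : ℕ)) Subtype.val_injective
  exact trace_eq_sum_trace_restrict_of_eq_biSup (N := fun a : ℕ => X.H a (i - a) ⊓ X.G) _ h5
    h1 _ (T_inf i k) h2

instance (i : ℤ) : FiniteDimensional K (X.M i) :=
  Submodule.finiteDimensional_of_le (S₂ := X.C i) fun _ hx => mem_C.2 fun k => (mem_M.1 hx k).1

lemma finrank_M (i : ℤ) : finrank K (X.M i) = X.null i := by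
  have h : ∀ k, finrank K ↥(X.T i k ⊓ X.G) =
      ∑ a ∈ Finset.Icc k n, finrank K ↥(X.H a (i - a) ⊓ X.G) := fun k => by
    have := trace_T (X := X) i k (f := 1) (fun _ _ h => h) (fun _ h => h)
    have e : ∀ (W : Submodule K X.S) (h : ∀ x ∈ W, (1 : End K X.S) x ∈ W),
        trace K W (LinearMap.restrict 1 h) = finrank K W := fun W h => trace_id K W
    simp only [e] at this
    exact_mod_cast this
  rw [M, (X.piEquiv _ fun k hk => by simp [T, Finset.Icc_eq_empty_of_lt hk]).finrank_eq,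
    finrank_pi_fintype, Fin.sum_univ_eq_sum_range (fun k => finrank K ↥(X.T i k ⊓ X.G)),
    Finset.sum_congr rfl fun k _ => h k,
    Finset.sum_comm' (t' := Finset.range (n + 1)) (s' := fun a => Finset.range (a + 1))
      (fun k a => by simp only [Finset.mem_range, Finset.mem_Icc]; omega), null]
  simp

lemma finrank_E2 (i : ℤ) : finrank K (X.E2 i) + finrank K (X.B i) = finrank K (X.Z i) := by
  rw [← (Submodule.comapSubtypeEquivOfLe (B_le_Z i)).finrank_eq,
    Submodule.finrank_quotient_add_finrank]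

lemma key {i : ℤ} (h : finrank K (X.E2 i) = X.null i) :
    X.M i ≤ X.Z i ∧ X.M i ⊓ X.B i = ⊥ := by
  have : FiniteDimensional K (X.B i) := Submodule.finiteDimensional_of_le (B_le_Z i)
  have h1 := finrank_E2 (X := X) i
  have h2 := Submodule.finrank_sup_add_finrank_inf_eq (X.Z i ⊓ X.M i) (X.B i)
  rw [le_antisymm (sup_le inf_le_left (B_le_Z i)) (Z_le i)] at h2
  have h3 : finrank K ↥(X.Z i ⊓ X.M i) ≤ finrank K (X.M i) := Submodule.finrank_mono inf_le_right
  rw [← finrank_M] at h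
  have h4 := Submodule.eq_of_le_of_finrank_le (inf_le_right : X.Z i ⊓ X.M i ≤ X.M i) (by omega)
  rw [h4] at h2
  exact ⟨h4 ▸ inf_le_left, Submodule.finrank_eq_zero.1 (by omega)⟩

/-- if `d` vanishes on the generalized kernel the criterion holds -/
lemma crit (h : ∀ x ∈ X.G, X.ρ x = 0 ∧ X.γ x = 0) (i : ℤ) : finrank K (X.E2 i) = X.null i := by
  have : FiniteDimensional K (X.B i) := Submodule.finiteDimensional_of_le (B_le_Z i)
  have h0 : X.M i ≤ X.Z i := fun x hx => ⟨mem_C.2 fun k => (mem_M.1 hx k).1, funext fun k => by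
    rw [d_apply, (h _ (mem_M.1 hx _).2).1, (h _ (mem_M.1 hx _).2).2, add_zero]; rfl⟩
  have h1 : X.M i ⊓ X.B i = ⊥ := by
    rw [eq_bot_iff]
    rintro _ ⟨hx, y, -, rfl⟩
    obtain ⟨p, -, -, h2, h3⟩ := exists_proj (X := X)
    have c : ∀ f : End K X.S, X.D * f = f * X.D → ∀ z, aeval X.D p (f z) = f (aeval X.D p z) :=
      fun f hf z => LinearMap.congr_fun
        (Algebra.commute_of_mem_adjoin_singleton_of_commute (aeval_mem_adjoin_singleton K X.D)
          (Commute.symm hf)).symm.eq z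
    funext k
    rw [← h3 _ (mem_M.1 hx k).2, d_apply, map_add, c _ Dρ, c _ Dγ, (h _ (h2 _)).1, (h _ (h2 _)).2,
      add_zero]
    rfl
  have h2 := Submodule.finrank_sup_add_finrank_inf_eq (X.Z i ⊓ X.M i) (X.B i)
  rw [le_antisymm (sup_le inf_le_left (B_le_Z i)) (Z_le i), inf_eq_right.2 h0, h1, finrank_bot,
    finrank_M] at h2
  have h3 := finrank_E2 (X := X) i
  omega

lemma F_TG (hq : q ≠ 0) (i : ℤ) (x : X.S) (hx : x ∈ X.T i 0 ⊓ X.G) : X.F x ∈ X.T i 0 ⊓ X.G :=
  ⟨T_map (fun _ ha y hy => mem_T ha rfl (comm_mem X.AF X.JF y hy)) hx.1, comm_G (FD hq) x hx.2⟩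

lemma euler_eq (hq : q ≠ 0) {i : ℤ} (h : finrank K (X.E2 i) = X.null i) :
    X.euler i = (charpoly (X.F.restrict (F_TG hq i))).reverse := by
  obtain ⟨h1, h2⟩ := key h
  have s1 : ∀ y : ↥(X.T i 0 ⊓ X.G), (Pi.single 0 y.1 : ℕ → X.S) ∈ X.M i := fun y =>
    mem_M.2 fun k => by
      cases k with
      | zero => exact y.2
      | succ k => exact zero_mem _
  let φ : ↥(X.T i 0 ⊓ X.G) →ₗ[K] ker (X.N2 i) :=
    (Submodule.mkQ _ ∘ₗ (single K (fun _ => X.S) 0 ∘ₗ Submodule.subtype _).codRestrict (X.Z i)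
      fun y => h1 (s1 y)).codRestrict _ fun y =>
        (congrArg Submodule.Quotient.mk (Subtype.ext (_root_.funext fun _ => rfl))).trans
          (Submodule.Quotient.mk_zero _)
  refine congrArg reverse (charpoly_eq φ ⟨?_, ?_⟩ fun y => ?_)
  · refine (injective_iff_map_eq_zero φ).2 fun y hy => ?_
    have h3 : (Pi.single 0 y.1 : ℕ → X.S) ∈ X.M i ⊓ X.B i :=
      ⟨s1 y, (Submodule.Quotient.mk_eq_zero ((X.B i).comap (X.Z i).subtype)).1
        (congrArg Subtype.val hy)⟩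
    rw [h2] at h3
    exact Subtype.ext (congr_fun h3 0)
  · rintro ⟨z, hz⟩
    obtain ⟨⟨x, hx⟩, rfl⟩ := Submodule.Quotient.mk_surjective _ z
    have hN : X.N x ∈ X.B i :=
      (Submodule.Quotient.mk_eq_zero ((X.B i).comap (X.Z i).subtype)).1 hz
    obtain ⟨y, hy, b, hb, rfl⟩ := Submodule.mem_sup.1 (Z_le i hx)
    have h3 : X.N y ∈ X.M i ⊓ X.B i := by
      refine ⟨mem_M.2 fun k => ⟨T_mono (Nat.le_succ k) (mem_M.1 hy.2 _).1, (mem_M.1 hy.2 _).2⟩, ?_⟩
      rw [map_add] at hN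
      exact (add_mem_cancel_right ((chain dN (fun _ => N_C) i).2 b hb)).1 hN
    rw [h2] at h3
    refine ⟨⟨y 0, mem_M.1 hy.2 0⟩, Subtype.ext ((Submodule.Quotient.eq _).2 ?_)⟩
    have h4 : Pi.single 0 (y 0) = y := funext fun k => by
      cases k with
      | zero => rfl
      | succ k => exact (congr_fun h3 k).symm
    change Pi.single 0 (y 0) - (y + b) ∈ X.B i
    rw [h4, sub_add_cancel_left]
    exact neg_mem hb
  · refine Subtype.ext (congrArg Submodule.Quotient.mk (Subtype.ext (funext fun k => ?_)))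
    change (q : K) ^ k • X.F ((Pi.single 0 y.1 : ℕ → X.S) k) = (Pi.single 0 (X.F y.1) : ℕ → X.S) k
    cases k <;> simp

lemma F_HG (hq : q ≠ 0) (a : ℕ) (j : ℤ) (m : ℕ) (x : X.S) (hx : x ∈ X.H a j ⊓ X.G) :
    (X.F ^ m) x ∈ X.H a j ⊓ X.G :=
  End.pow_apply_mem_of_forall_mem (p := X.H a j ⊓ X.G) m
    (fun y hy => ⟨comm_mem X.AF X.JF y hy.1, comm_G (FD hq) y hy.2⟩) x hx

omit [CharZero K] in
lemma tr_D (a : ℕ) (j : ℤ) (k : ℕ) :
    trace K _ ((show End K (X.H a j) from X.D.restrict (comm_mem X.AD X.JD)) ^ k) =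
      X.tr a j 0 k := by
  rw [End.pow_restrict]
  simp only [tr, pow_zero, one_mul]

end Page

open Page in
theorem betti {ι : Type} {K : ι → Type} [∀ l, Field (K l)] [∀ l, CharZero (K l)] {q n : ℕ}
    (hq : q ≠ 0) (X : ∀ l, Page (K l) q n) (i : ℤ) (t : ℕ → ℕ → ℕ → ℚ)
    (ht : ∀ l a m k, (X l).tr a (i - a) m k = t a m k) (l₀ : ι)
    (hb : ∀ l, finrank (K l) ((X l).E2 i) = finrank (K l₀) ((X l₀).E2 i))
    (h0 : finrank (K l₀) ((X l₀).E2 i) = (X l₀).null i) :
    ∃ P : ℤ[X], ∀ l, (X l).euler i = P.map (Int.castRingHom (K l)) := by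
  have c : ∀ l (a : ℕ), (charQ (t a 0)).map (algebraMap ℚ (K l)) =
      charpoly ((X l).D.restrict (p := (X l).H a (i - a)) (comm_mem (X l).AD (X l).JD)) :=
    fun l a => charQ_map _ _ fun k => (tr_D a _ k).trans (ht l a 0 k)
  have c0 : ∀ a, charQ (t a 0) ≠ 0 := fun a e => by
    have := c l₀ a
    rw [e, Polynomial.map_zero] at this
    exact (charpoly_monic _).ne_zero this.symm
  choose u g v r h1 h2 using fun a => split_poly (c0 a)
  obtain ⟨s, hs⟩ : ∃ s : ℕ → ℕ → ℚ, ∀ l (a m : ℕ),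
      trace (K l) _ (((X l).F ^ m).restrict (F_HG hq a (i - a) m)) = s a m :=
    ⟨_, fun l a m => trace_G (comm_mem (X l).AD (X l).JD) _ (ht l a m) (h1 a)
      (by rw [h2, c])⟩
  have d : ∀ l (a : ℕ), (finrank (K l) ↥((X l).H a (i - a) ⊓ (X l).G) : ℚ) = s a 0 := fun l a => by
    apply (algebraMap ℚ (K l)).injective
    rw [map_natCast, eq_ratCast, ← hs l a 0, ← trace_id]
    congr 1
  have cr : ∀ l, finrank (K l) ((X l).E2 i) = (X l).null i := fun l => by
    rw [hb, h0]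
    refine Finset.sum_congr rfl fun a _ => congrArg _ ?_
    exact_mod_cast (d l₀ a).trans (d l a).symm
  have e : ∀ l, (charQ fun m => ∑ a ∈ Finset.Icc 0 n, s a m).map (algebraMap ℚ (K l)) =
      charpoly ((X l).F.restrict (F_TG hq i)) := fun l => charQ_map _ _ fun m => by
    rw [End.pow_restrict, trace_T i 0 (fun a => F_HG hq a _ m)]
    simp only [hs, Rat.cast_sum]
  obtain ⟨m, hm, hm'⟩ := (X l₀).int
  obtain ⟨Q, q1, q2, -⟩ := int_charpoly _ _ (e l₀) m hm ⟨1, by
    ext x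
    rw [pow_one, aeval_restrict, aeval_map_algebraMap, aeval_def, hm']
    rfl⟩
  refine ⟨Q.reverse, fun l => ?_⟩
  rw [euler_eq hq (cr l), ← e, ← q2, Polynomial.map_map, reverse, reverse, ← reflect_map,
    q1.natDegree_map, RingHom.eq_intCast' (RingHom.comp _ _)]

end Pool.Agent.P.MP_898f40_nt.Bet
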