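import Pool.Agent.P.MP_898f40_nt.Bet.Main
import Pool.Agent.P.MP_898f40_nt.Bet.DefsB

/-! The Betti number criterion for a direct summand. -/

set_option autoImplicit false

namespace Pool.Agent.P.MP_898f40_nt.Bet

open Module Polynomial LinearMap

lemma trace_eq {K V W : Type} [Field K] [AddCommGroup V] [Module K V] [FiniteDimensional K V]
    [AddCommGroup W] [Module K W] [FiniteDimensional K W] {f : End K V} {g : End K W}
    (φ : V →ₗ[K] W) (h : Function.Bijective φ) (c : ∀ x, g (φ x) = φ (f x)) :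
    trace K W g = trace K V f := by
  rw [← trace_conj' f (LinearEquiv.ofBijective φ h)]
  congr 1
  ext1 y
  obtain ⟨x, rfl⟩ := (LinearEquiv.ofBijective φ h).surjective y
  rw [LinearEquiv.conj_apply_apply, LinearEquiv.symm_apply_apply]
  exact c x

lemma aeval_comm {K V : Type} [Field K] [AddCommGroup V] [Module K V] {D f : End K V}
    (h : D * f = f * D) (p : K[X]) (x : V) : aeval D p (f x) = f (aeval D p x) :=
  LinearMap.congr_fun (Algebra.commute_of_mem_adjoin_singleton_of_commute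
    (aeval_mem_adjoin_singleton K D) (Commute.symm h)).symm.eq x

/-- the trace of the compression to the generalized kernel -/
lemma trace_G' {K V : Type} [Field K] [CharZero K] [AddCommGroup V] [Module K V]
    [FiniteDimensional K V] {D f : End K V} {W : Submodule K V} (hD : ∀ x ∈ W, D x ∈ W)
    {p : K[X]} (p1 : ∀ x, aeval D p x ∈ D.maxGenEigenspace 0)
    (p2 : ∀ x ∈ D.maxGenEigenspace 0, aeval D p x = x)
    (hf : ∀ x ∈ W ⊓ D.maxGenEigenspace 0, (aeval D p * f) x ∈ W ⊓ D.maxGenEigenspace 0)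
    {hk : ∀ k : ℕ, ∀ x ∈ W, (f * D ^ k) x ∈ W} {t : ℕ → ℚ}
    (ht : ∀ k, trace K W ((f * D ^ k).restrict (hk k)) = t k) {u g v : ℚ[X]} {m : ℕ}
    (h1 : u * g + v * X ^ (m + 1) = 1)
    (h2 : (X ^ m * g).map (algebraMap ℚ K) = charpoly (D.restrict hD)) :
    trace K _ ((aeval D p * f).restrict hf) =
      (∑ k ∈ Finset.range ((u * g).natDegree + 1), (u * g).coeff k * t k : ℚ) := by
  obtain ⟨h3, h4⟩ := proj_spec D hD (u := u.map (algebraMap ℚ K)) (g := g.map (algebraMap ℚ K))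
    (v := v.map (algebraMap ℚ K)) (m := m)
    (by simpa using congrArg (Polynomial.map (algebraMap ℚ K)) h1)
    (fun x hx => by
      have := aeval_restrict hD (charpoly (D.restrict hD)) ⟨x, hx⟩
      rw [aeval_self_charpoly, ← h2] at this
      simpa using this.symm)
  rw [← Polynomial.map_mul] at h3 h4
  generalize u * g = P at h3 h4
  have hW : ∀ x ∈ W, f x ∈ W := fun x hx => by simpa using hk 0 x hx
  have h5 : ∀ x ∈ W, aeval D p x = aeval D (P.map (algebraMap ℚ K)) x := fun x hx => by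
    rw [← p2 _ (h3 x hx).2, ← End.mul_apply, ← map_mul, mul_comm, map_mul, End.mul_apply,
      h4 _ ⟨aeval_apply_smul_mem_of_le_comap hx p D hD, p1 x⟩]
  let π : W →ₗ[K] ↥(W ⊓ D.maxGenEigenspace 0) :=
    (aeval D (P.map (algebraMap ℚ K)) ∘ₗ W.subtype).codRestrict _ fun x => h3 x x.2
  let ι : ↥(W ⊓ D.maxGenEigenspace 0) →ₗ[K] W := f.restrict hW ∘ₗ Submodule.inclusion inf_le_left
  have e1 : (aeval D p * f).restrict hf = π ∘ₗ ι := by
    ext x
    exact h5 _ (hW x x.2.1)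
  have e2 : ι ∘ₗ π = ∑ k ∈ Finset.range (P.natDegree + 1),
      (P.coeff k : K) • (f * D ^ k).restrict (hk k) := by
    ext x
    change f (aeval D (P.map (algebraMap ℚ K)) x) = _
    rw [aeval_eq_sum_range' (Nat.lt_succ_of_le natDegree_map_le)]
    simp
  rw [e1, trace_comp_comm', e2, map_sum]
  simp [ht]

/-- trace on the fixed space of an idempotent -/
lemma trace_fix {K V : Type} [Field K] [AddCommGroup V] [Module K V] [FiniteDimensional K V]
    {W : Submodule K V} {f e : End K V} (he : ∀ x, e (e x) = e x) (hW : ∀ x ∈ W, e x ∈ W)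
    (h1 : ∀ x ∈ W ⊓ ker (e - 1), f x ∈ W ⊓ ker (e - 1)) (h2 : ∀ x ∈ W, (f * e) x ∈ W) :
    trace K _ (f.restrict h1) = trace K _ ((f * e).restrict h2) := by
  let π : W →ₗ[K] ↥(W ⊓ ker (e - 1)) :=
    (e ∘ₗ W.subtype).codRestrict _ fun x => ⟨hW x x.2, sub_eq_zero.2 (he x)⟩
  let ι : ↥(W ⊓ ker (e - 1)) →ₗ[K] W := Submodule.inclusion inf_le_left ∘ₗ f.restrict h1
  have e1 : f.restrict h1 = π ∘ₗ ι := by
    ext x
    exact (sub_eq_zero.1 (h1 x x.2).2).symm
  rw [e1, trace_comp_comm']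
  rfl

namespace Page

variable {K : Type} [Field K] [CharZero K] {q n : ℕ} {X : Page K q n}

omit [CharZero K] in
lemma single_M {i : ℤ} (y : ↥(X.T i 0 ⊓ X.G)) : (Pi.single 0 y.1 : ℕ → X.S) ∈ X.M i :=
  mem_M.2 fun k => by
    cases k with
    | zero => exact y.2
    | succ k => exact zero_mem _

/-- the comparison map -/
def phi {i : ℤ} (h1 : X.M i ≤ X.Z i) : ↥(X.T i 0 ⊓ X.G) →ₗ[K] ker (X.N2 i) :=
  (Submodule.mkQ _ ∘ₗ (single K (fun _ => X.S) 0 ∘ₗ Submodule.subtype _).codRestrict (X.Z i)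
    fun y => h1 (single_M y)).codRestrict _ fun _ =>
      (congrArg Submodule.Quotient.mk (Subtype.ext (_root_.funext fun _ => rfl))).trans
        (Submodule.Quotient.mk_zero _)

lemma phi_bij {i : ℤ} (h1 : X.M i ≤ X.Z i) (h2 : X.M i ⊓ X.B i = ⊥) :
    Function.Bijective (phi h1) := by
  constructor
  · refine (injective_iff_map_eq_zero _).2 fun y hy => ?_
    have h3 : (Pi.single 0 y.1 : ℕ → X.S) ∈ X.M i ⊓ X.B i :=
      ⟨single_M y, (Submodule.Quotient.mk_eq_zero ((X.B i).comap (X.Z i).subtype)).1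
        (congrArg Subtype.val hy)⟩
    rw [h2] at h3
    exact Subtype.ext (congr_fun h3 0)
  · rintro ⟨z, hz⟩
    obtain ⟨⟨x, hx⟩, rfl⟩ := Submodule.Quotient.mk_surjective _ z
    have hN : X.N x ∈ X.B i :=
      (Submodule.Quotient.mk_eq_zero ((X.B i).comap (X.Z i).subtype)).1 hz
    obtain ⟨y, hy, b, hb, rfl⟩ := Submodule.mem_sup.1 (Z_le i hx)
    have h3 : X.N y ∈ X.M i ⊓ X.B i := by
      refine ⟨mem_M.2 fun k => ⟨T_mono (Nat.le_succ k) (mem_M.1 hy.2 _).1, (mem_M.1 hy.2 _).2⟩, ?_⟩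
      rw [map_add] at hN
      exact (add_mem_cancel_right ((chain dN (fun _ => N_C) i).2 b hb)).1 hN
    rw [h2] at h3
    refine ⟨⟨y 0, mem_M.1 hy.2 0⟩, Subtype.ext ((Submodule.Quotient.eq _).2 ?_)⟩
    have h4 : Pi.single 0 (y 0) = y := funext fun k => by
      cases k with
      | zero => rfl
      | succ k => exact (congr_fun h3 k).symm
    change Pi.single 0 (y 0) - (y + b) ∈ X.B i
    rw [h4, sub_add_cancel_left]
    exact neg_mem hb

lemma sub_proj {i : ℤ} {p v : K[X]} (h1 : p + v * Polynomial.X = 1) {x : ℕ → X.S}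
    (hx : x ∈ X.Z i) : x - (aeval X.D p).compLeft ℕ x ∈ X.B i := by
  have h3 := congrArg (fun r => aeval (show End K _ from X.D.compLeft ℕ) r x) h1
  simp only [mul_comm v, map_add, map_mul, map_one, aeval_X, LinearMap.add_apply, End.mul_apply,
    End.one_apply] at h3
  have h4 : (aeval X.D p).compLeft ℕ x = aeval (show End K _ from X.D.compLeft ℕ) p x :=
    funext fun k => (aeval_compLeft _ p x k).symm
  rw [h4, sub_eq_of_eq_add' h3.symm]
  exact D_B (aeval_apply_smul_mem_of_le_comap hx v _ fun y hy => B_le_Z i (D_B hy))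

omit [CharZero K] in
lemma F2_pow (i : ℤ) (m : ℕ) (y : X.Z i) : ∃ h : (X.Fr ^ m) y.1 ∈ X.Z i,
    (X.F2 i ^ m) (Submodule.Quotient.mk y) = Submodule.Quotient.mk ⟨_, h⟩ := by
  induction m with
  | zero => exact ⟨y.2, rfl⟩
  | succ m ih =>
    obtain ⟨h, e⟩ := ih
    rw [pow_succ', pow_succ', End.mul_apply, End.mul_apply, e]
    exact ⟨(chain dFr (fun _ => Fr_C) i).1 _ h, rfl⟩

omit [CharZero K] in
lemma Fr_single (m : ℕ) (y : X.S) :
    (X.Fr ^ m) (Pi.single 0 y) = Pi.single 0 ((X.F ^ m) y) := by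
  induction m with
  | zero => rfl
  | succ m ih =>
    rw [pow_succ', pow_succ', End.mul_apply, End.mul_apply, ih]
    funext k
    cases k <;> simp [Fr_apply]

omit [CharZero K] in
lemma aeval_F2 {i : ℤ} {m : K[X]} (hm : aeval X.F m = 0) {z : X.S} (h : Pi.single 0 z ∈ X.Z i) :
    aeval (X.F2 i) m (Submodule.Quotient.mk ⟨_, h⟩) = 0 := by
  rw [aeval_eq_sum_range, LinearMap.sum_apply]
  choose h1 h2 using fun k => F2_pow i k ⟨_, h⟩
  simp only [LinearMap.smul_apply, h2, ← Submodule.Quotient.mk_smul]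
  simp only [← Submodule.mkQ_apply, ← map_sum]
  refine (congrArg _ (Subtype.ext (funext fun k => ?_))).trans (map_zero _)
  have h3 := LinearMap.congr_fun hm z
  rw [aeval_eq_sum_range, LinearMap.sum_apply] at h3
  cases k <;> simp_all [Fr_single]

end Page

namespace Cut

open Page

variable {K : Type} [Field K] [CharZero K] {q n : ℕ} {X : Page K q n} (c : Cut X)

omit [CharZero K] in
lemma f_H (m a : ℕ) (j : ℤ) : ∀ x ∈ X.H a j, (X.F ^ m * c.ε) x ∈ X.H a j := comm_mem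
  ((Commute.pow_right X.AF m).mul_right c.Aε) ((Commute.pow_right X.JF m).mul_right c.Jε)

omit [CharZero K] in
lemma pf_H {p : K[X]} (p1 : ∀ x, aeval X.D p x ∈ X.G) (m a : ℕ) (j : ℤ) :
    ∀ x ∈ X.H a j ⊓ X.G, (aeval X.D p * (X.F ^ m * c.ε)) x ∈ X.H a j ⊓ X.G := fun x hx =>
  ⟨aeval_apply_smul_mem_of_le_comap (c.f_H m a j x hx.1) p _ (comm_mem X.AD X.JD), p1 _⟩

lemma trace_inv {i : ℤ} (h : finrank K (X.E2 i) = X.null i) {p v : K[X]}
    (p0 : p + v * Polynomial.X = 1) (p1 : ∀ x, aeval X.D p x ∈ X.G) (m : ℕ) :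
    trace K _ ((show End K (c.inv i) from (X.F2 i).restrict (c.F2_inv i)) ^ m) =
      ∑ a ∈ Finset.Icc 0 n,
        trace K _ ((aeval X.D p * (X.F ^ m * c.ε)).restrict (c.pf_H p1 m a (i - a))) := by
  obtain ⟨h1, h2⟩ := key h
  have e1 : ∀ x, c.ε2 i (c.ε2 i x) = c.ε2 i x := fun x => by
    obtain ⟨y, rfl⟩ := Submodule.Quotient.mk_surjective _ x
    exact (Submodule.Quotient.eq _).2 (c.idem i y.1 y.2)
  have e2 : ∀ x ∈ ker (X.N2 i), c.ε2 i x ∈ ker (X.N2 i) := fun x hx => by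
    have : X.N2 i (c.ε2 i x) = c.ε2 i (X.N2 i x) := by
      obtain ⟨y, rfl⟩ := Submodule.Quotient.mk_surjective _ x
      rfl
    rw [mem_ker] at hx ⊢
    rw [this, hx, map_zero]
  have e3 : ∀ x ∈ ker (X.N2 i), (X.F2 i ^ m * c.ε2 i) x ∈ ker (X.N2 i) := fun x hx =>
    End.pow_apply_mem_of_forall_mem m (X.F2_ker i) _ (e2 x hx)
  have e4 : ∀ x ∈ X.T i 0 ⊓ X.G, (aeval X.D p * (X.F ^ m * c.ε)) x ∈ X.T i 0 ⊓ X.G :=
    fun x hx => ⟨T_map (fun a ha y hy => mem_T ha rfl (aeval_apply_smul_mem_of_le_comap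
      (c.f_H m a _ y hy) p _ (comm_mem X.AD X.JD))) hx.1, p1 _⟩
  rw [End.pow_restrict, ← trace_T i 0 _ e4]
  refine (trace_fix e1 e2 _ e3).trans (trace_eq (phi h1) (phi_bij h1 h2) fun y => ?_)
  obtain ⟨h3, h4⟩ := F2_pow i m ⟨c.ε.compLeft ℕ (Pi.single 0 y.1),
    (chain c.dε c.ε_C i).1 _ (h1 (single_M y))⟩
  refine Subtype.ext (h4.trans ((Submodule.Quotient.eq _).2 ?_))
  have h5 : c.ε.compLeft ℕ (Pi.single 0 y.1) = Pi.single 0 (c.ε y.1) := funext fun k => by
    cases k <;> simp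
  have h6 := sub_proj p0 h3
  change (X.Fr ^ m) (c.ε.compLeft ℕ (Pi.single 0 y.1)) -
    Pi.single 0 (aeval X.D p ((X.F ^ m) (c.ε y.1))) ∈ X.B i
  convert h6 using 2
  simp only [h5, Fr_single]
  funext k
  cases k <;> simp

end Cut

open Page in
theorem bettiB {ι : Type} {K : ι → Type} [∀ l, Field (K l)] [∀ l, CharZero (K l)] {q n : ℕ}
    (X : ∀ l, Page (K l) q n) (c : ∀ l, Cut (X l)) (i : ℤ) (s : ℕ → ℕ → ℚ)
    (t : ℕ → ℕ → ℕ → ℚ) (hs : ∀ l a k, (X l).tr a (i - a) 0 k = s a k)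
    (ht : ∀ l a m k, (c l).tr a (i - a) m k = t a m k) (l₀ : ι)
    (hb : ∀ l, finrank (K l) ((X l).E2 i) = finrank (K l₀) ((X l₀).E2 i))
    (h0 : finrank (K l₀) ((X l₀).E2 i) = (X l₀).null i) :
    ∃ P : ℤ[X], ∀ l, (c l).euler i = P.map (Int.castRingHom (K l)) := by
  have cD : ∀ l (a : ℕ), (charQ (s a)).map (algebraMap ℚ (K l)) =
      charpoly ((X l).D.restrict (p := (X l).H a (i - a)) (comm_mem (X l).AD (X l).JD)) :=
    fun l a => charQ_map _ _ fun k => (tr_D a _ k).trans (hs l a k)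
  have c0 : ∀ a, charQ (s a) ≠ 0 := fun a e => by
    have := cD l₀ a
    rw [e, Polynomial.map_zero] at this
    exact (charpoly_monic _).ne_zero this.symm
  choose u g v r h1 h2 using fun a => split_poly (c0 a)
  choose p w p0 p1 p2 using fun l => exists_proj (X := X l)
  obtain ⟨z, hz⟩ : ∃ z : ℕ → ℚ, ∀ l (a : ℕ),
      (finrank (K l) ↥((X l).H a (i - a) ⊓ (X l).G) : ℚ) = z a := by
    refine ⟨fun a => ∑ k ∈ Finset.range ((u a * g a).natDegree + 1), (u a * g a).coeff k * s a k,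
      fun l a => (algebraMap ℚ (K l)).injective ?_⟩
    rw [map_natCast, eq_ratCast, ← trace_id, ← trace_G (f := (X l).F ^ 0)
      (comm_mem (X l).AD (X l).JD) (fun _ h => h) (hs l a) (h1 a) (by rw [h2, cD])]
    congr 1
  obtain ⟨y, hy⟩ : ∃ y : ℕ → ℕ → ℚ, ∀ l (a m : ℕ), trace (K l) _
      ((aeval (X l).D (p l) * ((X l).F ^ m * (c l).ε)).restrict
        ((c l).pf_H (p1 l) m a (i - a))) = y a m :=
    ⟨_, fun l a m => trace_G' (comm_mem (X l).AD (X l).JD) (p1 l) (p2 l) _ (ht l a m) (h1 a)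
      (by rw [h2, cD])⟩
  have cr : ∀ l, finrank (K l) ((X l).E2 i) = (X l).null i := fun l => by
    rw [hb, h0]
    refine Finset.sum_congr rfl fun a _ => congrArg _ ?_
    exact_mod_cast (hz l₀ a).trans (hz l a).symm
  have e : ∀ l, (charQ fun m => ∑ a ∈ Finset.Icc 0 n, y a m).map (algebraMap ℚ (K l)) =
      charpoly (((X l).F2 i).restrict ((c l).F2_inv i)) := fun l => charQ_map _ _ fun m => by
    rw [(c l).trace_inv (cr l) (p0 l) (p1 l)]
    simp only [hy, Rat.cast_sum]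
  obtain ⟨m, hm, hm'⟩ := (X l₀).int
  obtain ⟨h3, h4⟩ := key (cr l₀)
  obtain ⟨Q, q1, q2, -⟩ := int_charpoly _ _ (e l₀) m hm ⟨1, by
    ext1 x
    obtain ⟨y, hy⟩ := (phi_bij h3 h4).2 ⟨x.1, x.2.1⟩
    refine Subtype.ext ?_
    rw [pow_one, aeval_restrict, ← show (phi h3 y).1 = x.1 from congrArg Subtype.val hy]
    exact aeval_F2 (by rw [aeval_map_algebraMap, aeval_def, hm']) (h3 (single_M y))⟩
  refine ⟨Q.reverse, fun l => ?_⟩
  rw [Cut.euler, ← e, ← q2, Polynomial.map_map, reverse, reverse, ← reflect_map,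
    q1.natDegree_map, RingHom.eq_intCast' (RingHom.comp _ _)]

end Pool.Agent.P.MP_898f40_nt.Bet
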