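import Pool.Agent.P.MP_898f40_nt.Bet.NovI
import Pool.Agent.P.MP_cd312e_ag.One

/-! Levels, weights, and the dd-lemma read on the strata. -/

set_option autoImplicit false
set_option linter.unusedSectionVars false

namespace Pool.Agent.P.MP_898f40_nt.Bet

open Module RZW

namespace Page

variable {K : Type} [Field K] [CharZero K] {q n : ℕ} {X : Page K q n} {L : End K X.S}

variable (X) in
/-- the Lefschetz weight -/
def Yw : End K X.S := X.J + X.A - n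

variable (X) in
/-- the level `a` -/
def Lev (a : ℤ) : Submodule K X.S := X.A.eigenspace (a : K)

lemma mem_Lev {a : ℤ} {x : X.S} : x ∈ X.Lev a ↔ X.A x = (a : K) • x := End.mem_eigenspace_iff

lemma Yw_apply (x : X.S) : X.Yw x = X.J x + X.A x - (n : K) • x := by
  simp [Yw, Nat.cast_smul_eq_nsmul]

lemma eAρ (x : X.S) : X.A (X.ρ x) = X.ρ (X.A x) + X.ρ x := by
  simpa using LinearMap.congr_fun X.Aρ x
lemma eAγ (x : X.S) : X.A (X.γ x) = X.γ (X.A x) - X.γ x := by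
  simpa using LinearMap.congr_fun X.Aγ x
lemma eAΛ (x : X.S) : X.A (X.Λ x) = X.Λ (X.A x) := LinearMap.congr_fun X.AΛ x
lemma eJρ (x : X.S) : X.J (X.ρ x) = X.ρ (X.J x) := LinearMap.congr_fun X.Jρ x
lemma eJγ (x : X.S) : X.J (X.γ x) = X.γ (X.J x) + (2 : K) • X.γ x := by
  have := LinearMap.congr_fun X.Jγ x
  simp only [End.mul_apply, LinearMap.add_apply, map_add, End.ofNat_apply, map_nsmul] at this
  rw [this]; module
lemma eJΛ (x : X.S) : X.J (X.Λ x) = X.Λ (X.J x) - (2 : K) • X.Λ x := by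
  have := LinearMap.congr_fun X.JΛ x
  simp only [End.mul_apply, LinearMap.sub_apply, map_sub, End.ofNat_apply, map_nsmul] at this
  rw [this]; module
lemma eAL (hL : X.Lef L) (x : X.S) : X.A (L x) = L (X.A x) := LinearMap.congr_fun hL.AL x
lemma eJL (hL : X.Lef L) (x : X.S) : X.J (L x) = L (X.J x) + (2 : K) • L x := by
  have := LinearMap.congr_fun hL.JL x
  simp only [End.mul_apply, LinearMap.add_apply, map_add, End.ofNat_apply, map_nsmul] at this
  rw [this]; module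
lemma ρ2_apply (x : X.S) : X.ρ2 x = X.Λ (X.ρ x) - X.ρ (X.Λ x) := rfl
lemma γ2_apply (x : X.S) : X.γ2 x = X.Λ (X.γ x) - X.γ (X.Λ x) := rfl
lemma eAρ2 (x : X.S) : X.A (X.ρ2 x) = X.ρ2 (X.A x) + X.ρ2 x := by
  simp only [ρ2_apply, map_sub, eAΛ, eAρ, map_add]; abel
lemma eAγ2 (x : X.S) : X.A (X.γ2 x) = X.γ2 (X.A x) - X.γ2 x := by
  simp only [γ2_apply, map_sub, eAΛ, eAγ]; abel

lemma eAY (x : X.S) : X.A (X.Yw x) = X.Yw (X.A x) := by
  have : X.A * X.Yw = X.Yw * X.A := ext_H fun a j y hy => by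
    obtain ⟨h1, h2⟩ := mem_H.1 hy
    simp only [End.mul_apply, Yw_apply, map_add, map_sub, map_smul, h1, h2]; module
  exact LinearMap.congr_fun this x

lemma H_Y {a : ℕ} {j : ℤ} {x : X.S} (hx : x ∈ X.H a j) :
    X.Yw x = ((j + a - n : ℤ) : K) • x := by
  rw [Yw_apply, (mem_H.1 hx).1, (mem_H.1 hx).2]; push_cast; module

lemma mem_H' {a : ℕ} {j m : ℤ} {x : X.S} (h1 : x ∈ X.Lev a) (h2 : X.Yw x = (m : K) • x)
    (h : m = j + a - n) : x ∈ X.H a j := by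
  have h1 : X.A x = (a : K) • x := by simpa using mem_Lev.1 h1
  refine mem_H.2 ⟨h1, ?_⟩
  rw [Yw_apply, h1, h] at h2
  push_cast at h2
  linear_combination (norm := module) h2

lemma gA : ⨆ k : ℤ, X.A.eigenspace (k : K) = ⊤ := by
  rw [eq_top_iff, ← X.top]
  exact iSup₂_le fun a _ => iSup_le fun j => le_iSup_of_le (a : ℤ) (by simp)

lemma gY : ⨆ k : ℤ, X.Yw.eigenspace (k : K) = ⊤ := by
  rw [eq_top_iff, ← X.top]
  exact iSup₂_le fun a _ => iSup_le fun j => le_iSup_of_le (j + a - n)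
    fun x hx => End.mem_eigenspace_iff.2 (H_Y hx)

lemma Lev_bot {a : ℤ} (h : a < 0 ∨ n < a) {x : X.S} (hx : x ∈ X.Lev a) : x = 0 :=
  eig (mem_Lev.1 hx) fun b hb e => by
    have : a = (b : ℤ) := by exact_mod_cast e
    omega

/-- the sl2-triple with an odd operator -/
def sl (hL : X.Lef L) (d : End K X.S) (h1 : L * d = d * L)
    (h2 : ∀ x, X.Yw (d x) = d (X.Yw x) + d x) (h3 : d * d = 0) : S1 K X.S where
  L := L
  Λ := X.Λ
  Y := X.Yw
  d := d
  LΛ := hL.LΛ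
  YL := by
    ext1 x
    simp only [ad, LinearMap.sub_apply, End.mul_apply, Yw_apply, eJL hL, eAL hL, map_add, map_sub,
      map_smul, LinearMap.smul_apply]
    module
  YΛ := by
    ext1 x
    simp only [ad, LinearMap.sub_apply, End.mul_apply, Yw_apply, eJΛ, eAΛ, map_add, map_sub,
      map_smul, LinearMap.smul_apply]
    module
  Ld := sub_eq_zero.2 h1
  Yd := by ext1 x; simp [ad, h2]
  dd := h3
  gY := gY

lemma eYρ (x : X.S) : X.Yw (X.ρ x) = X.ρ (X.Yw x) + X.ρ x := by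
  simp only [Yw_apply, eJρ, eAρ, map_add, map_sub, map_smul]; module
lemma eYγ (x : X.S) : X.Yw (X.γ x) = X.γ (X.Yw x) + X.γ x := by
  simp only [Yw_apply, eJγ, eAγ, map_add, map_sub, map_smul]; module

/-- the triple with `ρ` -/
def sr (hL : X.Lef L) : S1 K X.S := sl hL X.ρ hL.Lρ eYρ X.ρρ
/-- the triple with `γ` -/
def sg (hL : X.Lef L) : S1 K X.S := sl hL X.γ hL.Lγ eYγ X.γγ

variable (X) in
/-- projections onto the levels -/
noncomputable def pA : Grad X.A := Classical.choice (exists_grad X.A gA)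

lemma π_Lev (a : ℤ) (x : X.S) : X.pA.π a x ∈ X.Lev a := mem_Lev.2 (X.pA.wt a x)
lemma π_same {a : ℤ} {x : X.S} (h : x ∈ X.Lev a) : X.pA.π a x = x := X.pA.same a x (mem_Lev.1 h)
lemma πρ (a : ℤ) (x : X.S) : X.pA.π a (X.ρ x) = X.ρ (X.pA.π (a - 1) x) :=
  X.pA.comm' _ 1 (fun x => by simp [eAρ]) a x
lemma πρ2 (a : ℤ) (x : X.S) : X.pA.π a (X.ρ2 x) = X.ρ2 (X.pA.π (a - 1) x) :=
  X.pA.comm' _ 1 (fun x => by simp [eAρ2]) a x
lemma πγ (a : ℤ) (x : X.S) : X.pA.π a (X.γ x) = X.γ (X.pA.π (a + 1) x) := by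
  rw [X.pA.comm' _ (-1) (fun x => by simp [eAγ, sub_eq_add_neg]) a x, sub_neg_eq_add]
lemma πγ2 (a : ℤ) (x : X.S) : X.pA.π a (X.γ2 x) = X.γ2 (X.pA.π (a + 1) x) := by
  rw [X.pA.comm' _ (-1) (fun x => by simp [eAγ2, sub_eq_add_neg]) a x, sub_neg_eq_add]

lemma ργ_Lev {a : ℤ} (ha : 1 ≤ a) {x : X.S} (hx : x ∈ X.Lev a) :
    X.ρ (X.γ x) = -X.γ (X.ρ x) := by
  have h := LinearMap.congr_fun X.ργ x
  rw [End.mul_apply, mem_Lev.1 hx, map_smul, LinearMap.zero_apply, smul_eq_zero] at h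
  exact eq_neg_of_add_eq_zero_left (h.resolve_left (Int.cast_ne_zero.2 (by omega)))

variable (X) in
/-- levels at least `k` -/
noncomputable def U (k : ℕ) : Submodule K X.S := ⨅ a : ℤ, ⨅ _ : a < k, LinearMap.ker (X.pA.π a)

lemma mem_U {k : ℕ} {x : X.S} : x ∈ X.U k ↔ ∀ a : ℤ, a < k → X.pA.π a x = 0 := by
  simp [U]

lemma U_map {f : End K X.S} {W : Submodule K X.S} {k : ℕ} {x : X.S} (hx : x ∈ X.U k)
    (h : ∀ a : ℤ, (k : ℤ) ≤ a → f (X.pA.π a x) ∈ W) : f x ∈ W := by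
  rw [← X.pA.sum x, map_sum]
  refine W.sum_mem fun a _ => ?_
  rcases lt_or_ge a k with ha | ha
  · rw [mem_U.1 hx a ha, map_zero]; exact W.zero_mem
  · exact h a ha

lemma Lev_U {a : ℤ} {k : ℕ} (h : (k : ℤ) ≤ a) {x : X.S} (hx : x ∈ X.Lev a) : x ∈ X.U k :=
  mem_U.2 fun b hb => X.pA.ne b a x (mem_Lev.1 hx) (by omega)

lemma U_zero (x : X.S) : x ∈ X.U 0 := mem_U.2 fun a ha => Lev_bot (.inl ha) (π_Lev a x)

variable (X) in
/-- the whole first page -/
noncomputable def E : Submodule K (ℕ → X.S) := Submodule.pi Set.univ X.U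

lemma mem_E {x : ℕ → X.S} : x ∈ X.E ↔ ∀ k, x k ∈ X.U k := by simp [E]

instance : FiniteDimensional K X.E :=
  (X.piEquiv _ fun k hk => (Submodule.eq_bot_iff _).2 fun x hx =>
    U_map (f := 1) (W := ⊥) hx fun a ha =>
      (Submodule.mem_bot K).2 (Lev_bot (.inr (by omega)) (π_Lev a x))).symm.finiteDimensional

lemma single_E {k : ℕ} {x : X.S} (hx : x ∈ X.U k) : Pi.single k x ∈ X.E := mem_E.2 fun l => by
  by_cases h : l = k
  · subst h; rwa [Pi.single_eq_same]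
  · rw [Pi.single_eq_of_ne h]; exact zero_mem _

lemma C_E {i : ℤ} {x : ℕ → X.S} (hx : x ∈ X.C i) : x ∈ X.E := mem_E.2 fun k =>
  T_map (f := 1) (i := i) (fun a ha y hy => Lev_U (a := a) (by exact_mod_cast ha)
    (mem_Lev.2 (by simpa using (mem_H.1 hy).1))) (mem_C.1 hx k)

lemma C_Y {i : ℤ} {x : ℕ → X.S} (hx : x ∈ X.C i) (k : ℕ) :
    X.Yw (x k) = ((i - n : ℤ) : K) • x k :=
  End.mem_eigenspace_iff.1 (T_map (f := 1) (i := i) (W := X.Yw.eigenspace ((i - n : ℤ) : K))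
    (fun a _ y hy => End.mem_eigenspace_iff.2 (by rw [End.one_apply, H_Y hy]; congr 2; ring))
    (mem_C.1 hx k))

lemma E_C {i m : ℤ} (h : m = i - n) {x : ℕ → X.S} (hx : x ∈ X.E)
    (hw : ∀ k, X.Yw (x k) = (m : K) • x k) : x ∈ X.C i := mem_C.2 fun k =>
  U_map (f := 1) (W := X.T i k) (mem_E.1 hx k) fun a ha => by
    obtain ⟨b, rfl⟩ : ∃ b : ℕ, a = b := ⟨a.toNat, by omega⟩
    refine mem_T (by exact_mod_cast ha) rfl (mem_H' (m := m) (π_Lev _ _) ?_ (by omega))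
    rw [End.one_apply, ← X.pA.comm0 _ eAY, hw, map_smul]

/-- an operator that preserves the levels, on the first page -/
noncomputable def lift (f : End K X.S) (hf : ∀ x, X.A (f x) = f (X.A x)) : End K X.E :=
  (f.compLeft ℕ).restrict fun x hx => mem_E.2 fun k => mem_U.2 fun a ha => by
    change X.pA.π a (f (x k)) = 0
    rw [X.pA.comm0 f hf, mem_U.1 (mem_E.1 hx k) a ha, map_zero]

lemma lift_apply (f : End K X.S) (hf : ∀ x, X.A (f x) = f (X.A x)) (x : X.E) (k : ℕ) :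
    (lift f hf x).1 k = f (x.1 k) := rfl

lemma lift_pow (f : End K X.S) (hf : ∀ x, X.A (f x) = f (X.A x)) (r : ℕ) (x : X.E) :
    ((lift f hf ^ r) x).1 = (f ^ r).compLeft ℕ x.1 := by
  induction r with
  | zero => rfl
  | succ r ih =>
    funext k
    rw [pow_succ', End.mul_apply, lift_apply, ih, pow_succ']
    rfl

variable (X) in
/-- the differential on the first page -/
noncomputable def dE : End K X.E := X.d.restrict fun x hx => mem_E.2 fun k => mem_U.2 fun a ha => by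
  rw [d_apply, map_add, πρ, πγ, mem_U.1 (mem_E.1 hx k) _ (by omega),
    mem_U.1 (mem_E.1 hx (k + 1)) _ (by push_cast; omega), map_zero, map_zero, add_zero]

lemma dE_apply (x : X.E) (k : ℕ) : (X.dE x).1 k = X.ρ (x.1 k) + X.γ (x.1 (k + 1)) := rfl

lemma E_ext {x y : X.E} (h : ∀ k, x.1 k = y.1 k) : x = y := Subtype.ext (funext h)

/-- the first page as a module over the triple -/
noncomputable def sE (hL : X.Lef L) : S1 K X.E where
  L := lift L (eAL hL)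
  Λ := lift X.Λ eAΛ
  Y := lift X.Yw eAY
  d := X.dE
  LΛ := LinearMap.ext fun x => E_ext fun k => LinearMap.congr_fun (sr hL).LΛ (x.1 k)
  YL := LinearMap.ext fun x => E_ext fun k => LinearMap.congr_fun (sr hL).YL (x.1 k)
  YΛ := LinearMap.ext fun x => E_ext fun k => LinearMap.congr_fun (sr hL).YΛ (x.1 k)
  Ld := LinearMap.ext fun x => E_ext fun k => by
    have h1 : ∀ y, L (X.ρ y) = X.ρ (L y) := LinearMap.congr_fun hL.Lρ
    have h2 : ∀ y, L (X.γ y) = X.γ (L y) := LinearMap.congr_fun hL.Lγ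
    change L (X.ρ (x.1 k) + X.γ (x.1 (k + 1))) - (X.ρ (L (x.1 k)) + X.γ (L (x.1 (k + 1)))) = 0
    rw [map_add, h1, h2, sub_self]
  Yd := LinearMap.ext fun x => E_ext fun k => by
    change X.Yw (X.ρ (x.1 k) + X.γ (x.1 (k + 1))) -
      (X.ρ (X.Yw (x.1 k)) + X.γ (X.Yw (x.1 (k + 1)))) = X.ρ (x.1 k) + X.γ (x.1 (k + 1))
    rw [map_add, eYρ, eYγ]; abel
  dd := LinearMap.ext fun x => E_ext fun k => by
    have h1 : ∀ y, X.ρ (X.ρ y) = 0 := LinearMap.congr_fun X.ρρ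
    have h2 : ∀ y, X.γ (X.γ y) = 0 := LinearMap.congr_fun X.γγ
    have h3 := (Submodule.mem_bot K).1 (U_map (f := X.ρ * X.γ + X.γ * X.ρ) (W := ⊥)
      (mem_E.1 x.2 (k + 1)) fun a ha => (Submodule.mem_bot K).2 (by
        rw [LinearMap.add_apply, End.mul_apply, End.mul_apply,
          ργ_Lev (by push_cast at ha; omega) (π_Lev a _), neg_add_cancel]))
    change X.ρ (X.ρ (x.1 k) + X.γ (x.1 (k + 1))) +
      X.γ (X.ρ (x.1 (k + 1)) + X.γ (x.1 (k + 1 + 1))) = 0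
    rw [map_add, map_add, h1, h2, zero_add, add_zero]
    exact h3
  gY := by
    obtain ⟨G⟩ := exists_grad X.Yw gY
    rw [eq_top_iff]
    intro x _
    have hc : ∀ m y, X.A (G.π m y) = G.π m (X.A y) := fun m y =>
      (G.comm0 X.A (fun y => (eAY y).symm) m y).symm
    have : x = ∑ m ∈ Finset.Icc (-(G.M : ℤ)) G.M, lift (G.π m) (hc m) x := E_ext fun k => by
      rw [Submodule.coe_sum, Finset.sum_apply]
      exact (G.sum (x.1 k)).symm
    rw [this]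
    exact Submodule.sum_mem _ fun m _ => Submodule.mem_iSup_of_mem m
      (End.mem_eigenspace_iff.2 (E_ext fun k => G.wt m (x.1 k)))

lemma bE_apply (hL : X.Lef L) (x : X.E) (k : ℕ) :
    ((sE hL).b x).1 k = X.ρ2 (x.1 k) + X.γ2 (x.1 (k + 1)) := by
  change X.Λ (X.ρ (x.1 k) + X.γ (x.1 (k + 1))) -
    (X.ρ (X.Λ (x.1 k)) + X.γ (X.Λ (x.1 (k + 1)))) = _
  rw [ρ2_apply, γ2_apply, map_add]; abel

lemma sE_d (hL : X.Lef L) (x : X.E) (k : ℕ) :
    ((sE hL).d x).1 k = X.ρ (x.1 k) + X.γ (x.1 (k + 1)) := rfl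

lemma sE_HL (hL : X.Lef L) : (sE hL).HL := by
  obtain ⟨G⟩ := exists_grad (sE hL).Y (sE hL).gY
  have hC : ∀ (i m : ℤ) (x : X.E), m = i - n → (sE hL).Y x = (m : K) • x → x.1 ∈ X.C i :=
    fun i m x h hx => E_C h x.2 fun k => congr_fun (congrArg Subtype.val hx) k
  have hB : ∀ (i : ℤ) (x : X.E), x.1 ∈ X.B i → x ∈ LinearMap.range (sE hL).d := by
    rintro i x ⟨t, ht, e⟩
    exact ⟨⟨t, C_E ht⟩, Subtype.ext e⟩
  constructor
  · rintro k x hd hx ⟨t, ht⟩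
    have hx' : (sE hL).Y x = ((-k : ℤ) : K) • x := by rw [hx]; push_cast; rfl
    have h1 := congrArg (G.π (-k + 2 * k)) ht
    rw [G.same _ _ ((sE hL).wLp hx' k), (sE hL).πd] at h1
    refine hB _ _ (hL.inj k x.1 ⟨hC _ _ x (by ring) hx', congrArg Subtype.val hd⟩ ?_)
    refine ⟨_, hC _ _ _ (by ring) (G.wt (-k + 2 * k - 1) t), ?_⟩
    rw [← lift_pow L (eAL hL)]
    exact congrArg Subtype.val h1
  · intro k y hd hy
    obtain ⟨x, hx, h⟩ := hL.surj k y.1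
      ⟨hC _ k y (by ring) (by simpa using hy), congrArg Subtype.val hd⟩
    refine ⟨⟨x, C_E hx.1⟩, Subtype.ext hx.2, E_ext fun l => ?_, hB (n + k) _ ?_⟩
    · have := C_Y hx.1 l
      rw [show ((n : ℤ) - k - n : ℤ) = -k by ring] at this
      push_cast at this
      exact this
    · rw [Submodule.coe_sub]
      change ((lift L (eAL hL) ^ k) _).1 - _ ∈ _
      rw [lift_pow]
      exact h

variable (X) in
/-- the three components of `d b` -/
def Tp : End K X.S := X.ρ * X.ρ2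
variable (X) in
/-- the three components of `d b` -/
def T0 : End K X.S := X.ρ * X.γ2 + X.γ * X.ρ2
variable (X) in
/-- the three components of `d b` -/
def Tm : End K X.S := X.γ * X.γ2

lemma Tp_apply (x : X.S) : X.Tp x = X.ρ (X.ρ2 x) := rfl
lemma T0_apply (x : X.S) : X.T0 x = X.ρ (X.γ2 x) + X.γ (X.ρ2 x) := rfl
lemma Tm_apply (x : X.S) : X.Tm x = X.γ (X.γ2 x) := rfl

lemma om_apply (hL : X.Lef L) (x : X.E) (k : ℕ) : ((sE hL).d ((sE hL).b x)).1 k =
    X.Tp (x.1 k) + X.T0 (x.1 (k + 1)) + X.Tm (x.1 (k + 2)) := by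
  rw [sE_d, bE_apply, bE_apply, Tp_apply, T0_apply, Tm_apply, map_add, map_add]; abel

lemma K1 (hL : X.Lef L) {a : ℤ} {u : X.S} (hu : u ∈ X.Lev a) (h1 : X.Tp u = 0) (h2 : X.T0 u = 0)
    (h3 : X.Tm u = 0) (hg : ∀ b, a < b → ∀ y ∈ X.Lev b, X.γ y = 0 ∧ X.γ2 y = 0) :
    (X.ρ u = 0 ∧ X.ρ2 u = 0) ∧ X.γ u = 0 ∧ X.γ2 u = 0 := by
  rcases lt_or_ge a 0 with ha | ha
  · rw [Lev_bot (.inl ha) hu]; simp
  obtain ⟨c, rfl⟩ : ∃ c : ℕ, a = c := ⟨a.toNat, by omega⟩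
  have hs : ∀ (T : End K X.S), T u = 0 → ∀ k, T ((Pi.single c u : ℕ → X.S) k) = 0 := by
    intro T hT k
    by_cases h : k = c
    · subst h; rwa [Pi.single_eq_same]
    · rw [Pi.single_eq_of_ne h, map_zero]
  obtain ⟨z, hz, t, s, e⟩ := S1.kerdb (sE_HL hL) ⟨Pi.single c u, single_E (Lev_U le_rfl hu)⟩
    (E_ext fun k => by rw [om_apply, hs _ h1, hs _ h2, hs _ h3]; simp)
  have e1 : u = z.1 c + ((sE hL).d t).1 c + ((sE hL).b s).1 c := by
    have := congr_fun (congrArg Subtype.val e) c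
    exact (Pi.single_eq_same (M := fun _ => X.S) c u).symm.trans this
  have e2 : X.pA.π c (z.1 c) = u := by
    have := congrArg (X.pA.π c) e1
    rw [π_same hu, sE_d, bE_apply] at this
    simp only [map_add, πρ, πγ, πρ2, πγ2, mem_U.1 (mem_E.1 t.2 c) _ (sub_one_lt _),
      mem_U.1 (mem_E.1 s.2 c) _ (sub_one_lt _), (hg _ (lt_add_one _) _ (π_Lev _ _)).1,
      (hg _ (lt_add_one _) _ (π_Lev _ _)).2, map_zero, add_zero] at this
    exact this.symm
  have hd : ∀ k, X.ρ (z.1 k) + X.γ (z.1 (k + 1)) = 0 := fun k =>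
    congr_fun (congrArg Subtype.val ((sE hL).mem_Z.1 hz).1) k
  have hb : ∀ k, X.ρ2 (z.1 k) + X.γ2 (z.1 (k + 1)) = 0 := fun k =>
    (bE_apply hL z k).symm.trans (congr_fun (congrArg Subtype.val ((sE hL).mem_Z.1 hz).2) k)
  refine ⟨⟨?_, ?_⟩, ?_⟩
  · have := congrArg (X.pA.π (c + 1)) (hd c)
    rwa [map_add, πρ, πγ, add_sub_cancel_right, e2, (hg _ (by omega) _ (π_Lev _ _)).1, add_zero,
      map_zero] at this
  · have := congrArg (X.pA.π (c + 1)) (hb c)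
    rwa [map_add, πρ2, πγ2, add_sub_cancel_right, e2, (hg _ (by omega) _ (π_Lev _ _)).2, add_zero,
      map_zero] at this
  · cases c with
    | zero =>
      have k1 := π_Lev (X := X) (-1) (X.γ u)
      have k2 := π_Lev (X := X) (-1) (X.γ2 u)
      rw [πγ, show (-1 + 1 : ℤ) = (0 : ℕ) from rfl, π_same hu] at k1
      rw [πγ2, show (-1 + 1 : ℤ) = (0 : ℕ) from rfl, π_same hu] at k2
      exact ⟨Lev_bot (.inl (by omega)) k1, Lev_bot (.inl (by omega)) k2⟩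
    | succ c =>
      have k1 := congrArg (X.pA.π c) (hd c)
      have k2 := congrArg (X.pA.π c) (hb c)
      push_cast at e2
      rw [map_add, πρ, πγ, e2, mem_U.1 (mem_E.1 z.2 c) _ (sub_one_lt _), map_zero, zero_add,
        map_zero] at k1
      rw [map_add, πρ2, πγ2, e2, mem_U.1 (mem_E.1 z.2 c) _ (sub_one_lt _), map_zero, zero_add,
        map_zero] at k2
      exact ⟨k1, k2⟩

lemma K2 (hL : X.Lef L) {a : ℤ} (ha : 0 ≤ a) {x u z : X.S} (hu : u ∈ X.Lev (a + 1))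
    (hz : z ∈ X.Lev a) (h1 : X.ρ z = 0) (h2 : X.ρ2 z = 0)
    (h : (X.ρ u = 0 ∧ z = X.ρ x + X.γ u) ∨ (X.ρ2 u = 0 ∧ z = X.ρ2 x + X.γ2 u)) :
    ∃ x' ∈ X.Lev (a - 2), ∃ v ∈ X.Lev a, ∃ y ∈ X.Lev (a + 2),
      z = X.Tp x' + X.T0 v + X.Tm y := by
  let w : X.E := ⟨Pi.single 0 z, single_E (U_zero z)⟩
  let y : X.E := ⟨Pi.single 0 x + Pi.single 1 u,
    add_mem (single_E (U_zero x)) (single_E (Lev_U (by push_cast; omega) hu))⟩
  have hw : ∀ f g : End K X.S, f z = 0 → ∀ k, f (w.1 k) + g (w.1 (k + 1)) = 0 := by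
    intro f g hf k
    cases k <;> simp [w, hf]
  have hy : ∀ f g : End K X.S, f u = 0 → z = f x + g u → ∀ k,
      f (y.1 k) + g (y.1 (k + 1)) = w.1 k := by
    intro f g hf e k
    rcases k with _ | _ | k <;> simp [w, y, hf, e]
  have hd : (sE hL).d w = 0 := E_ext (hw _ _ h1)
  have hb : (sE hL).b w = 0 := E_ext fun k => (bE_apply hL w k).trans (hw _ _ h2 k)
  have hr : w ∈ LinearMap.range (sE hL).d := by
    rcases h with h | h
    · exact ⟨y, E_ext (hy _ _ h.1 h.2)⟩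
    · have : (sE hL).b y = w := E_ext fun k => (bE_apply hL y k).trans (hy _ _ h.1 h.2 k)
      rw [← this] at hd ⊢
      exact (S1.weyl (sE_HL hL)).2 y hd
  obtain ⟨t, ht⟩ := S1.ddl (sE_HL hL) ⟨(sE hL).mem_Z.2 ⟨hd, hb⟩, hr⟩
  have e : X.Tp (t.1 0) + X.T0 (t.1 1) + X.Tm (t.1 2) = z :=
    (om_apply hL t 0).symm.trans (congr_fun (congrArg Subtype.val ht) 0)
  refine ⟨_, π_Lev (a - 2) (t.1 0), _, π_Lev a (t.1 1), _, π_Lev (a + 2) (t.1 2), ?_⟩
  have := congrArg (X.pA.π a) e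
  rw [π_same hz] at this
  rw [← this]
  simp only [Tp_apply, T0_apply, Tm_apply, map_add, πρ, πγ, πρ2, πγ2, sub_add_cancel,
    add_sub_cancel_right, sub_sub, add_assoc, one_add_one_eq_two]

end Page

end Pool.Agent.P.MP_898f40_nt.Bet
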