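import Pool.Agent.P.MP_898f40_nt.Bet.NovA

/-! Without V-shapes the restriction and Gysin maps vanish. -/

set_option autoImplicit false
set_option linter.unusedSectionVars false

namespace Pool.Agent.P.MP_898f40_nt.Bet

open Module RZW

namespace Page

variable {K : Type} [Field K] [CharZero K] {q n : ℕ} {X : Page K q n} {L : End K X.S}

lemma ρ_Lev {a b : ℤ} (h : b = a + 1) {x : X.S} (hx : x ∈ X.Lev a) : X.ρ x ∈ X.Lev b := by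
  rw [mem_Lev] at hx ⊢; rw [eAρ, hx, h, map_smul]; push_cast; module
lemma ρ2_Lev {a b : ℤ} (h : b = a + 1) {x : X.S} (hx : x ∈ X.Lev a) : X.ρ2 x ∈ X.Lev b := by
  rw [mem_Lev] at hx ⊢; rw [eAρ2, hx, h, map_smul]; push_cast; module
lemma γ_Lev {a b : ℤ} (h : b = a - 1) {x : X.S} (hx : x ∈ X.Lev a) : X.γ x ∈ X.Lev b := by
  rw [mem_Lev] at hx ⊢; rw [eAγ, hx, h, map_smul]; push_cast; module
lemma γ2_Lev {a b : ℤ} (h : b = a - 1) {x : X.S} (hx : x ∈ X.Lev a) : X.γ2 x ∈ X.Lev b := by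
  rw [mem_Lev] at hx ⊢; rw [eAγ2, hx, h, map_smul]; push_cast; module
lemma Λ_Lev {a : ℤ} {x : X.S} (hx : x ∈ X.Lev a) : X.Λ x ∈ X.Lev a := by
  rw [mem_Lev] at hx ⊢; rw [eAΛ, hx, map_smul]
lemma L_Lev (hL : X.Lef L) {a : ℤ} {x : X.S} (hx : x ∈ X.Lev a) : L x ∈ X.Lev a := by
  rw [mem_Lev] at hx ⊢; rw [eAL hL, hx, map_smul]

lemma eΛρ (x : X.S) : X.Λ (X.ρ x) = X.ρ (X.Λ x) + X.ρ2 x := by rw [ρ2_apply]; abel
lemma eΛγ (x : X.S) : X.Λ (X.γ x) = X.γ (X.Λ x) + X.γ2 x := by rw [γ2_apply]; abel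
lemma eρρ (x : X.S) : X.ρ (X.ρ x) = 0 := LinearMap.congr_fun X.ρρ x
lemma eγγ (x : X.S) : X.γ (X.γ x) = 0 := LinearMap.congr_fun X.γγ x

variable (X) in
/-- primitive elements of level `a` and weight `m` -/
def Pn (a m : ℤ) : Submodule K X.S := X.Lev a ⊓ X.Yw.eigenspace (m : K) ⊓ LinearMap.ker X.Λ

lemma mem_P {a m : ℤ} {x : X.S} :
    x ∈ X.Pn a m ↔ x ∈ X.Lev a ∧ X.Yw x = (m : K) • x ∧ X.Λ x = 0 := by
  simp [Pn, and_assoc]

variable (X L) in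
/-- the component of `ρ` that raises the weight of a primitive element -/
def rm (m : ℤ) : End K X.S := ((1 : K) - m) • X.ρ - L * X.ρ2
variable (X L) in
/-- the component of `γ` that raises the weight of a primitive element -/
def gm (m : ℤ) : End K X.S := ((1 : K) - m) • X.γ - L * X.γ2

lemma rm_apply (m : ℤ) (x : X.S) : X.rm L m x = ((1 : K) - m) • X.ρ x - L (X.ρ2 x) := rfl
lemma gm_apply (m : ℤ) (x : X.S) : X.gm L m x = ((1 : K) - m) • X.γ x - L (X.γ2 x) := rfl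

variable (X L) in
/-- `w` is obtained from `u` by words that contain an odd operator -/
def Dn (u w : X.S) : Prop := ∀ Y, X.St L Y → u ∈ Y → w ∈ X.Jm Y

lemma St_ρ2 {Y : Submodule K X.S} (h : X.St L Y) {y : X.S} (hy : y ∈ Y) : X.ρ2 y ∈ Y :=
  sub_mem (h _ (h y hy).2.2.2.1).2.2.1 (h _ (h y hy).2.2.1).2.2.2.1
lemma St_γ2 {Y : Submodule K X.S} (h : X.St L Y) {y : X.S} (hy : y ∈ Y) : X.γ2 y ∈ Y :=
  sub_mem (h _ (h y hy).2.2.2.2).2.2.1 (h _ (h y hy).2.2.1).2.2.2.2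
lemma J1 {Y : Submodule K X.S} {y : X.S} (hy : y ∈ Y) : X.ρ y ∈ X.Jm Y :=
  Submodule.mem_sup_left (Submodule.mem_sup_left (Submodule.mem_sup_left ⟨y, hy, rfl⟩))
lemma J2 {Y : Submodule K X.S} {y : X.S} (hy : y ∈ Y) : X.ρ2 y ∈ X.Jm Y :=
  Submodule.mem_sup_left (Submodule.mem_sup_left (Submodule.mem_sup_right ⟨y, hy, rfl⟩))
lemma J3 {Y : Submodule K X.S} {y : X.S} (hy : y ∈ Y) : X.γ y ∈ X.Jm Y :=
  Submodule.mem_sup_left (Submodule.mem_sup_right ⟨y, hy, rfl⟩)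
lemma J4 {Y : Submodule K X.S} {y : X.S} (hy : y ∈ Y) : X.γ2 y ∈ X.Jm Y :=
  Submodule.mem_sup_right ⟨y, hy, rfl⟩

lemma Jm_map {Y W : Submodule K X.S} {f : End K X.S} (h : ∀ y ∈ Y, f (X.ρ y) ∈ W ∧
    f (X.ρ2 y) ∈ W ∧ f (X.γ y) ∈ W ∧ f (X.γ2 y) ∈ W) {x : X.S} (hx : x ∈ X.Jm Y) : f x ∈ W :=
  (sup_le (sup_le (sup_le (by rintro _ ⟨y, hy, rfl⟩; exact (h y hy).1)
    (by rintro _ ⟨y, hy, rfl⟩; exact (h y hy).2.1)) (by rintro _ ⟨y, hy, rfl⟩; exact (h y hy).2.2.1))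
    (by rintro _ ⟨y, hy, rfl⟩; exact (h y hy).2.2.2) : X.Jm Y ≤ W.comap f) hx

lemma Dn_T0 (u : X.S) : X.Dn L u (X.T0 u) := fun _ h hu =>
  add_mem (J1 (St_γ2 h hu)) (J3 (St_ρ2 h hu))

section
variable (hL : X.Lef L)
include hL

lemma eLρ (x : X.S) : L (X.ρ x) = X.ρ (L x) := (sr hL).eLd x
lemma eLγ (x : X.S) : L (X.γ x) = X.γ (L x) := (sg hL).eLd x
lemma eLρ2 (x : X.S) : L (X.ρ2 x) = X.ρ2 (L x) + X.ρ x := (sr hL).eLb x
lemma eLγ2 (x : X.S) : L (X.γ2 x) = X.γ2 (L x) + X.γ x := (sg hL).eLb x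
lemma eΛρ2 (x : X.S) : X.Λ (X.ρ2 x) = X.ρ2 (X.Λ x) := (sr hL).eΛb x
lemma eΛγ2 (x : X.S) : X.Λ (X.γ2 x) = X.γ2 (X.Λ x) := (sg hL).eΛb x
lemma eYρ2 (x : X.S) : X.Yw (X.ρ2 x) = X.ρ2 (X.Yw x) - X.ρ2 x := (sr hL).eYb x
lemma eYγ2 (x : X.S) : X.Yw (X.γ2 x) = X.γ2 (X.Yw x) - X.γ2 x := (sg hL).eYb x
lemma eρ22 (x : X.S) : X.ρ2 (X.ρ2 x) = 0 := (sr hL).ebb x
lemma eγ22 (x : X.S) : X.γ2 (X.γ2 x) = 0 := (sg hL).ebb x
lemma eρ21 (x : X.S) : X.ρ2 (X.ρ x) = -X.ρ (X.ρ2 x) :=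
  (neg_eq_iff_eq_neg.2 ((sr hL).edb x)).symm.trans (by rfl) |>.trans rfl
lemma eγ21 (x : X.S) : X.γ2 (X.γ x) = -X.γ (X.γ2 x) :=
  (neg_eq_iff_eq_neg.2 ((sg hL).edb x)).symm.trans (by rfl) |>.trans rfl
lemma eLΛ (x : X.S) : L (X.Λ x) = X.Λ (L x) + X.Yw x := (sr hL).eLΛ x
lemma eYL (x : X.S) : X.Yw (L x) = L (X.Yw x) + (2 : K) • L x := (sr hL).eYL x

lemma mid {a : ℤ} (ha : 1 ≤ a) {x : X.S} (hx : x ∈ X.Lev a) :
    X.ρ2 (X.γ x) = -X.ρ (X.γ2 x) - X.γ (X.ρ2 x) - X.γ2 (X.ρ x) := by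
  have h1 := congrArg X.Λ (ργ_Lev ha hx)
  simp only [map_neg, eΛρ, eΛγ, map_add, ργ_Lev ha (Λ_Lev hx)] at h1
  linear_combination (norm := module) h1

lemma ργ22 {a : ℤ} (ha : 1 ≤ a) {x : X.S} (hx : x ∈ X.Lev a) :
    X.ρ2 (X.γ2 x) = -X.γ2 (X.ρ2 x) := by
  have h1 := congrArg X.Λ (mid hL ha hx)
  simp only [map_neg, map_sub, eΛρ, eΛγ, eΛρ2 hL, eΛγ2 hL, map_add, mid hL ha (Λ_Lev hx)] at h1
  linear_combination (norm := module) (2⁻¹ : K) • h1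

lemma LTp (x : X.S) : L (X.Tp x) = X.Tp (L x) := by
  simp only [Tp_apply, eLρ hL, eLρ2 hL, map_add, eρρ, add_zero]
lemma LTm (x : X.S) : L (X.Tm x) = X.Tm (L x) := by
  simp only [Tm_apply, eLγ hL, eLγ2 hL, map_add, eγγ, add_zero]
lemma LT0 {a : ℤ} (ha : 1 ≤ a) {x : X.S} (hx : x ∈ X.Lev a) : L (X.T0 x) = X.T0 (L x) := by
  simp only [T0_apply, eLρ hL, eLγ hL, eLρ2 hL, eLγ2 hL, map_add, ργ_Lev ha hx]; abel
lemma YTp (x : X.S) : X.Yw (X.Tp x) = X.Tp (X.Yw x) := by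
  simp only [Tp_apply, eYρ, eYρ2 hL, map_sub]; abel
lemma YTm (x : X.S) : X.Yw (X.Tm x) = X.Tm (X.Yw x) := by
  simp only [Tm_apply, eYγ, eYγ2 hL, map_sub]; abel
lemma YT0 (x : X.S) : X.Yw (X.T0 x) = X.T0 (X.Yw x) := by
  simp only [T0_apply, eYρ, eYγ, eYρ2 hL, eYγ2 hL, map_add, map_sub]; abel

lemma ρ2_P {a m b k : ℤ} (hb : b = a + 1) (hk : k = m - 1) {u : X.S} (hu : u ∈ X.Pn a m) :
    X.ρ2 u ∈ X.Pn b k := by
  obtain ⟨h1, h2, h3⟩ := mem_P.1 hu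
  exact mem_P.2 ⟨ρ2_Lev hb h1, hk ▸ (sr hL).wb h2, (sr hL).b_prim u h3⟩
lemma γ2_P {a m b k : ℤ} (hb : b = a - 1) (hk : k = m - 1) {u : X.S} (hu : u ∈ X.Pn a m) :
    X.γ2 u ∈ X.Pn b k := by
  obtain ⟨h1, h2, h3⟩ := mem_P.1 hu
  exact mem_P.2 ⟨γ2_Lev hb h1, hk ▸ (sg hL).wb h2, (sg hL).b_prim u h3⟩
lemma rm_P {a m b k : ℤ} (hb : b = a + 1) (hk : k = m + 1) {u : X.S} (hu : u ∈ X.Pn a m) :
    X.rm L m u ∈ X.Pn b k := by
  obtain ⟨h1, h2, h3⟩ := mem_P.1 hu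
  refine mem_P.2 ⟨sub_mem (Submodule.smul_mem _ _ (ρ_Lev hb h1)) (L_Lev hL (ρ2_Lev hb h1)), ?_, ?_⟩
  · simp only [rm_apply, map_sub, map_smul, eYρ, eYL hL, eYρ2 hL, h2, hk]; push_cast; module
  · have := eLΛ hL (X.ρ2 u)
    simp only [eΛρ2 hL, eYρ2 hL, h2, h3, map_zero, map_smul] at this
    simp only [rm_apply, map_sub, map_smul, eΛρ, h3, map_zero]
    linear_combination (norm := module) this
lemma gm_P {a m b k : ℤ} (hb : b = a - 1) (hk : k = m + 1) {u : X.S} (hu : u ∈ X.Pn a m) :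
    X.gm L m u ∈ X.Pn b k := by
  obtain ⟨h1, h2, h3⟩ := mem_P.1 hu
  refine mem_P.2 ⟨sub_mem (Submodule.smul_mem _ _ (γ_Lev hb h1)) (L_Lev hL (γ2_Lev hb h1)), ?_, ?_⟩
  · simp only [gm_apply, map_sub, map_smul, eYγ, eYL hL, eYγ2 hL, h2, hk]; push_cast; module
  · have := eLΛ hL (X.γ2 u)
    simp only [eΛγ2 hL, eYγ2 hL, h2, h3, map_zero, map_smul] at this
    simp only [gm_apply, map_sub, map_smul, eΛγ, h3, map_zero]
    linear_combination (norm := module) this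
lemma Tp_P {a m b : ℤ} (hb : b = a + 2) {u : X.S} (hu : u ∈ X.Pn a m) : X.Tp u ∈ X.Pn b m := by
  obtain ⟨h1, h2, h3⟩ := mem_P.1 hu
  refine mem_P.2 ⟨ρ_Lev (by omega) (ρ2_Lev rfl h1), by rw [YTp hL, h2, map_smul], ?_⟩
  simp only [Tp_apply, eΛρ, eΛρ2 hL, eρ22 hL, h3, map_zero, add_zero]
lemma Tm_P {a m b : ℤ} (hb : b = a - 2) {u : X.S} (hu : u ∈ X.Pn a m) : X.Tm u ∈ X.Pn b m := by
  obtain ⟨h1, h2, h3⟩ := mem_P.1 hu
  refine mem_P.2 ⟨γ_Lev (by omega) (γ2_Lev rfl h1), by rw [YTm hL, h2, map_smul], ?_⟩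
  simp only [Tm_apply, eΛγ, eΛγ2 hL, eγ22 hL, h3, map_zero, add_zero]
lemma T0_P {a m : ℤ} (ha : 1 ≤ a) {u : X.S} (hu : u ∈ X.Pn a m) : X.T0 u ∈ X.Pn a m := by
  obtain ⟨h1, h2, h3⟩ := mem_P.1 hu
  refine mem_P.2 ⟨add_mem (ρ_Lev (by omega) (γ2_Lev rfl h1)) (γ_Lev (by omega) (ρ2_Lev rfl h1)),
    by rw [YT0 hL, h2, map_smul], ?_⟩
  simp only [T0_apply, map_add, eΛρ, eΛγ, eΛρ2 hL, eΛγ2 hL, h3, map_zero, ργ22 hL ha h1]; abel

lemma ρ2_rm (m : ℤ) (x : X.S) : X.ρ2 (X.rm L m x) = (m : K) • X.Tp x := by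
  have := eLρ2 hL (X.ρ2 x)
  rw [eρ22 hL, map_zero] at this
  simp only [rm_apply, Tp_apply, map_sub, map_smul, eρ21 hL]
  linear_combination (norm := module) this
lemma γ2_gm (m : ℤ) (x : X.S) : X.γ2 (X.gm L m x) = (m : K) • X.Tm x := by
  have := eLγ2 hL (X.γ2 x)
  rw [eγ22 hL, map_zero] at this
  simp only [gm_apply, Tm_apply, map_sub, map_smul, eγ21 hL]
  linear_combination (norm := module) this
lemma gm_eq (m : ℤ) (x : X.S) : X.gm L m x = (-m : K) • X.γ x - X.γ2 (L x) := by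
  rw [gm_apply, eLγ2 hL]; module

lemma P_nonpos {a m : ℤ} {u : X.S} (hu : u ∈ X.Pn a m) (h0 : u ≠ 0) : m ≤ 0 := by
  by_contra h
  exact h0 ((sr hL).prim_pos m (by omega) u (mem_P.1 hu).2.1 (mem_P.1 hu).2.2)

lemma decL {a m : ℤ} {x : X.S} (h1 : x ∈ X.Lev a) (h2 : X.Yw x = (m : K) • x) :
    ∃ p ∈ X.Pn a m, ∃ v ∈ X.Lev a, X.Yw v = ((m - 2 : ℤ) : K) • v ∧ x = p + L v := by
  obtain ⟨p, v, k1, k2, k3, k4⟩ := (sr hL).dec m x h2
  have k1 : X.Λ p = 0 := k1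
  have k2 : X.Yw p = (m : K) • p := k2
  have k3 : X.Yw v = ((m - 2 : ℤ) : K) • v := k3
  have k4 : x = p + L v := k4
  refine ⟨X.pA.π a p, mem_P.2 ⟨π_Lev _ _, ?_, ?_⟩, X.pA.π a v, π_Lev _ _, ?_, ?_⟩
  · rw [← X.pA.comm0 _ eAY, k2, map_smul]
  · rw [← X.pA.comm0 _ eAΛ, k1, map_zero]
  · rw [← X.pA.comm0 _ eAY, k3, map_smul]
  · rw [← X.pA.comm0 _ (eAL hL), ← map_add, ← k4, π_same h1]

lemma πY_Lev (G : Grad X.Yw) (m : ℤ) {a : ℤ} {x : X.S} (h : x ∈ X.Lev a) : G.π m x ∈ X.Lev a := by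
  rw [mem_Lev] at h ⊢
  rw [← G.comm0 X.A (fun y => (eAY y).symm), h, map_smul]

lemma PR {f : End K X.S} {a : ℤ} (hf : ∀ x ∈ X.Lev a, L (f x) = f (L x))
    (h : ∀ m, ∀ u ∈ X.Pn a m, f u = 0) : ∀ x ∈ X.Lev a, f x = 0 := by
  obtain ⟨G⟩ := exists_grad X.Yw gY
  have key : ∀ (r : ℕ) (m : ℤ), m + G.M < r → ∀ x ∈ X.Lev a, X.Yw x = (m : K) • x → f x = 0 := by
    intro r
    induction r with
    | zero =>
      intro m hm x _ hx
      rw [G.bd m x hx (by rw [lt_abs]; right; omega), map_zero]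
    | succ r ih =>
      intro m hm x h1 h2
      obtain ⟨p, hp, v, k1, k2, rfl⟩ := decL hL h1 h2
      rw [map_add, h m p hp, ← hf v k1, ih _ (by push_cast at hm; omega) v k1 k2, map_zero, add_zero]
  exact G.ind (X.Lev a) (LinearMap.ker f) (fun k _ hx => πY_Lev hL G k hx)
    fun k x h1 h2 => key (k + G.M + 1).toNat k (by omega) x h1 h2

lemma prim2 {a b c m : ℤ} (hb : 1 ≤ b) {s : X.S} (hs : s ∈ X.Pn c m)
    (h : s ∈ (X.Lev a).map X.Tp ⊔ (X.Lev b).map X.T0) :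
    ∃ x ∈ X.Pn a m, ∃ v ∈ X.Pn b m, s = X.Tp x + X.T0 v := by
  obtain ⟨G⟩ := exists_grad X.Yw gY
  obtain ⟨_, ⟨x, hx, rfl⟩, _, ⟨v, hv, rfl⟩, e⟩ := Submodule.mem_sup.1 h
  have e' := congrArg (G.π m) e
  rw [G.same m s (mem_P.1 hs).2.1, map_add, G.comm0 _ (YTp hL), G.comm0 _ (YT0 hL)] at e'
  obtain ⟨x0, hx0, x1, -, k2, k3⟩ := decL hL (πY_Lev hL G m hx) (G.wt m x)
  obtain ⟨v0, hv0, v1, l1, l2, l3⟩ := decL hL (πY_Lev hL G m hv) (G.wt m v)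
  refine ⟨x0, hx0, v0, hv0, sub_eq_zero.1 ((sr hL).uniq m _ (X.Tp x1 + X.T0 v1) ?_ ?_ ?_)⟩
  · change X.Λ _ = 0
    rw [map_sub, map_add, (mem_P.1 hs).2.2, (mem_P.1 (Tp_P hL rfl hx0)).2.2,
      (mem_P.1 (T0_P hL hb hv0)).2.2, add_zero, sub_zero]
  · change X.Yw _ = _
    rw [map_add, YTp hL, YT0 hL, k2, l2, map_smul, map_smul, smul_add]
  · change _ = L _
    rw [← e', k3, l3, map_add L, LTp hL, LT0 hL hb l1, map_add, map_add]; abel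

lemma St_Jm {Y : Submodule K X.S} (h : X.St L Y) : X.St L (X.Jm Y) := by
  intro x hx
  have h1 : x ∈ Y := Jm_map (f := 1)
    (fun y hy => ⟨(h y hy).2.2.2.1, St_ρ2 h hy, (h y hy).2.2.2.2, St_γ2 h hy⟩) hx
  refine ⟨Jm_map (fun y hy => ?_) hx, Jm_map (fun y hy => ?_) hx, Jm_map (fun y hy => ?_) hx,
    J1 h1, J3 h1⟩
  · have k := (h y hy).1
    rw [eAρ, eAρ2, eAγ, eAγ2]
    exact ⟨add_mem (J1 k) (J1 hy), add_mem (J2 k) (J2 hy), sub_mem (J3 k) (J3 hy),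
      sub_mem (J4 k) (J4 hy)⟩
  · have k := (h y hy).2.1
    rw [eLρ hL, eLρ2 hL, eLγ hL, eLγ2 hL]
    exact ⟨J1 k, add_mem (J2 k) (J1 hy), J3 k, add_mem (J4 k) (J3 hy)⟩
  · have k := (h y hy).2.2.1
    rw [eΛρ, eΛρ2 hL, eΛγ, eΛγ2 hL]
    exact ⟨add_mem (J1 k) (J2 hy), J2 k, add_mem (J3 k) (J4 hy), J4 k⟩

lemma Dn_gm (m : ℤ) (u : X.S) : X.Dn L u (X.gm L m (X.ρ2 u)) := fun _ h hu => by
  rw [gm_eq hL]
  exact sub_mem (Submodule.smul_mem _ _ (J3 (St_ρ2 h hu))) (J4 (h _ (St_ρ2 h hu)).2.1)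

variable (hN : X.Nil L) (hV : X.NoV0)
include hN hV

lemma noV {a m b k l : ℤ} (ha : 1 ≤ a) (hb : b = a - 1) (hk : k = m - 1) (hl : l = m + 1)
    {u w s : X.S} (hu : u ∈ X.Pn a m) (hw : w ∈ X.Pn a m) (h0 : w ≠ 0) (hd : X.Dn L u w)
    (hs : s ∈ X.Pn b k) (s0 : s ≠ 0) (h' : m < 0 → ∃ s' ∈ X.Pn b l, s' ≠ 0) : False := by
  obtain ⟨c, rfl⟩ : ∃ c : ℕ, b = c := ⟨b.toNat, by omega⟩
  obtain rfl : a = ((c + 1 : ℕ) : ℤ) := by push_cast; omega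
  have key : ∀ {c : ℕ} {j m : ℤ} {x : X.S}, x ∈ X.Pn c m → m = j + c - n →
      x ∈ X.H c j ⊓ LinearMap.ker X.Λ := fun hx e =>
    ⟨mem_H' (mem_P.1 hx).1 (mem_P.1 hx).2.1 e, (mem_P.1 hx).2.2⟩
  have h2 : 2 ≤ finrank K ↥(X.H (c + 1) (m + n - c - 1) ⊓ LinearMap.ker X.Λ) := by
    by_contra h
    obtain ⟨v, hv⟩ := finrank_le_one_iff.1 (Nat.lt_succ_iff.1 (not_le.1 h))
    obtain ⟨c1, h1⟩ := hv ⟨u, key hu (by push_cast; ring)⟩
    obtain ⟨c2, h2⟩ := hv ⟨w, key hw (by push_cast; ring)⟩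
    have h1 : c1 • v.1 = u := congrArg Subtype.val h1
    have h2 : c2 • v.1 = w := congrArg Subtype.val h2
    have c0 : c2 ≠ 0 := by rintro rfl; exact h0 (by rw [← h2, zero_smul])
    have e : u = (c1 / c2) • w := by rw [← h1, ← h2, smul_smul, div_mul_cancel₀ _ c0]
    have s1 : X.St L (sInf {Y | X.St L Y ∧ u ∈ Y}) := fun y hy => by
      simp only [Submodule.mem_sInf] at hy ⊢
      exact ⟨fun Y h => (h.1 y (hy Y h)).1, fun Y h => (h.1 y (hy Y h)).2.1,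
        fun Y h => (h.1 y (hy Y h)).2.2.1, fun Y h => (h.1 y (hy Y h)).2.2.2.1,
        fun Y h => (h.1 y (hy Y h)).2.2.2.2⟩
    have s2 : u ∈ sInf {Y | X.St L Y ∧ u ∈ Y} := Submodule.mem_sInf.2 fun Y h => h.2
    have s3 := hd _ s1 s2
    have s4 := hN _ s1 (sInf_le ⟨St_Jm hL s1, e.symm.subst (motive := fun y => y ∈ X.Jm _)
      (Submodule.smul_mem _ _ s3)⟩)
    rw [s4] at s3
    exact h0 (by simpa [Jm] using s3)
  rcases hV c _ h2 with h | ⟨h, h3⟩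
  · exact s0 ((Submodule.eq_bot_iff _).1 h s (key hs (by omega)))
  · obtain ⟨s', k1, k2⟩ := h' (by omega)
    exact k2 ((Submodule.eq_bot_iff _).1 h3 s' (key k1 (by omega)))

/-- on a level where all products `γ ρ` vanish, all products `ρ γ` vanish -/
lemma step0 {a : ℤ} (ha : 1 ≤ a) (h : ∀ x ∈ X.Lev a, (X.γ (X.ρ x) = 0 ∧ X.γ2 (X.ρ x) = 0) ∧
    X.γ (X.ρ2 x) = 0 ∧ X.γ2 (X.ρ2 x) = 0) : ∀ x ∈ X.Lev a, X.T0 x = 0 := by
  refine PR hL (fun x hx => LT0 hL ha hx) fun m u hu => ?_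
  by_contra h0
  have h1 := (mem_P.1 hu).1
  have e : X.T0 u = X.ρ (X.γ2 u) := by rw [T0_apply, (h u h1).2.1, add_zero]
  refine noV hL hN hV ha rfl rfl rfl hu (T0_P hL ha hu) h0 (Dn_T0 u) (γ2_P hL rfl rfl hu)
    (fun k => h0 (by rw [e, k, map_zero])) fun hm => ⟨_, gm_P hL rfl rfl hu, fun k => h0 ?_⟩
  have := congrArg X.ρ2 k
  rw [gm_eq hL, map_sub, map_smul, mid hL ha h1, ργ22 hL ha (L_Lev hL h1), (h u h1).2.1,
    (h u h1).1.2, (h _ (L_Lev hL h1)).2.2, map_zero, ← e] at this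
  have hm' : (m : K) ≠ 0 := Int.cast_ne_zero.2 hm.ne
  exact (smul_eq_zero.1 (show (m : K) • X.T0 u = 0 by
    linear_combination (norm := module) this)).resolve_left hm'

variable {p : ℤ} (hp : 1 ≤ p) (hr : ∀ b, p ≤ b → ∀ y ∈ X.Lev b, X.ρ y = 0 ∧ X.ρ2 y = 0)
  (hg : ∀ b, p < b → ∀ y ∈ X.Lev b, X.γ y = 0 ∧ X.γ2 y = 0)
include hp hr hg

lemma top0 : ∀ x ∈ X.Lev p, X.T0 x = 0 :=
  step0 hL hN hV hp fun x hx => by simp [(hr p le_rfl x hx).1, (hr p le_rfl x hx).2]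

lemma step1 : ∀ x ∈ X.Lev p, X.γ x = 0 ∧ X.γ2 x = 0 := by
  have t0 := top0 hL hN hV hp hr hg
  have r0 := hr p le_rfl
  suffices h : ∀ x ∈ X.Lev p, X.Tm x = 0 from fun x hx =>
    (K1 hL hx (by rw [Tp_apply, (hr _ (by omega) _ (ρ2_Lev rfl hx)).1]) (t0 x hx) (h x hx) hg).2
  refine PR hL (fun x _ => LTm hL x) fun m u hu => ?_
  by_contra h0
  have ht := Tm_P hL rfl hu
  have hm := P_nonpos hL ht h0
  have p2 : 1 ≤ p - 1 := by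
    by_contra k
    exact h0 (Lev_bot (.inl (by omega)) (mem_P.1 ht).1)
  have im : ∀ x ∈ X.Lev p, X.γ x ∈ (X.Lev (p - 1 - 2)).map X.Tp ⊔ (X.Lev (p - 1)).map X.T0 ∧
      X.γ2 x ∈ (X.Lev (p - 1 - 2)).map X.Tp ⊔ (X.Lev (p - 1)).map X.T0 := by
    intro x hx
    have k1 : X.ρ (X.γ2 x) = 0 := by
      have := t0 x hx
      rwa [T0_apply, (r0 x hx).2, map_zero, add_zero] at this
    have hx' : x ∈ X.Lev (p - 1 + 1) := by rwa [sub_add_cancel]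
    have fin : ∀ z, (∃ x' ∈ X.Lev (p - 1 - 2), ∃ v ∈ X.Lev (p - 1), ∃ y ∈ X.Lev (p - 1 + 2),
        z = X.Tp x' + X.T0 v + X.Tm y) →
        z ∈ (X.Lev (p - 1 - 2)).map X.Tp ⊔ (X.Lev (p - 1)).map X.T0 := by
      rintro _ ⟨x', h1, v, h2, y, h3, rfl⟩
      rw [Tm_apply, (hg _ (by omega) y h3).2, map_zero, add_zero]
      exact Submodule.add_mem_sup ⟨x', h1, rfl⟩ ⟨v, h2, rfl⟩
    exact ⟨fin _ (K2 hL (x := 0) (by omega) hx' (γ_Lev rfl hx)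
        (by simp [ργ_Lev hp hx, (r0 x hx).1]) (by simp [mid hL hp hx, k1, (r0 x hx).1, (r0 x hx).2])
        (.inl ⟨(r0 x hx).1, by simp⟩)),
      fin _ (K2 hL (x := 0) (by omega) hx' (γ2_Lev rfl hx) k1
        (by simp [ργ22 hL hp hx, (r0 x hx).2]) (.inr ⟨(r0 x hx).2, by simp⟩))⟩
  have h1 := (mem_P.1 hu).1
  obtain ⟨x, hx, v, hv, e⟩ := prim2 hL p2 (γ2_P hL rfl rfl hu) (im u h1).2
  have hv1 := (mem_P.1 hv).1
  have k1 : X.gm L (m - 1) (X.T0 v) = 0 := by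
    by_contra k
    refine noV hL hN hV p2 (b := p - 2) (by ring) rfl (sub_add_cancel m 1).symm hv (T0_P hL p2 hv)
      (fun k' => k (by rw [k', map_zero])) (Dn_T0 v) (γ2_P hL (by ring) rfl hv)
      (fun k' => k ?_) fun _ => ⟨_, ht, h0⟩
    have := ργ22 hL p2 hv1
    rw [k', map_zero, eq_comm, neg_eq_zero] at this
    simp only [T0_apply, gm_apply, k', map_zero, zero_add, eγγ, eγ21 hL, this, smul_zero, neg_zero,
      sub_zero]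
  have c1 : ((m - 1 : ℤ) : K) ≠ 0 := Int.cast_ne_zero.2 (by omega)
  have c2 : (1 : K) - (m - 1 : ℤ) ≠ 0 := by
    have : (1 - (m - 1) : ℤ) ≠ 0 := by omega
    exact_mod_cast this
  have k2 : X.gm L (m - 1) (X.Tp x) ≠ 0 := fun k => by
    have := congrArg (X.gm L (m - 1)) e
    rw [map_add, k, k1, add_zero, gm_apply, eγ22 hL, map_zero, sub_zero] at this
    exact h0 ((smul_eq_zero.1 this).resolve_left c2)
  have x0 : x ≠ 0 := fun k => k2 (by rw [k, map_zero, map_zero])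
  have p3 : 1 ≤ p - 2 := by
    by_contra k
    exact x0 (Lev_bot (.inl (by omega)) (mem_P.1 hx).1)
  have hy : X.rm L (m - 1) x ∈ X.Pn (p - 2) m := rm_P hL (by ring) (by ring) hx
  refine noV hL hN hV p3 (b := p - 1 - 2) (by ring) rfl rfl hy
    (gm_P hL (a := p - 1) (by ring) (by ring) (ρ2_P hL (by ring) rfl hy)) ?_ (Dn_gm hL _ _) hx x0
    fun hm' => ?_
  · rw [ρ2_rm hL, map_smul]
    exact smul_ne_zero c1 k2
  obtain ⟨x', hx', v', hv', e'⟩ := prim2 hL p2 (gm_P hL rfl rfl hu) (by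
    rw [gm_eq hL]
    exact sub_mem (Submodule.smul_mem _ _ (im u h1).1) (im _ (L_Lev hL h1)).2)
  have hv2 := (mem_P.1 hv').1
  have k3 : X.γ2 (X.T0 v') = 0 := by
    by_contra k
    refine noV hL hN hV p2 (b := p - 2) (by ring) (add_sub_cancel_right m 1).symm rfl hv'
      (T0_P hL p2 hv') (fun k' => k (by rw [k', map_zero])) (Dn_T0 v') ht h0
      fun hm2 => ⟨_, gm_P hL (by ring) rfl hv', fun k' => k ?_⟩
    have c3 : ((m + 1 : ℤ) : K) ≠ 0 := Int.cast_ne_zero.2 hm2.ne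
    have a1 := congrArg (fun y => X.γ2 (X.ρ2 y)) k'
    simp only [gm_eq hL, map_sub, map_smul, ργ22 hL p2 (L_Lev hL hv2), map_neg, eγ22 hL, neg_zero,
      sub_zero, map_zero, mid hL p2 hv2] at a1
    refine (smul_eq_zero.1 (show ((m + 1 : ℤ) : K) • X.γ2 (X.T0 v') = 0 from ?_)).resolve_left c3
    rw [T0_apply, map_add]
    linear_combination (norm := module) a1
  refine ⟨x', hx', fun k => h0 ?_⟩
  have := congrArg X.γ2 e'
  rw [γ2_gm hL, map_add, k3, k, map_zero, map_zero, add_zero] at this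
  exact (smul_eq_zero.1 this).resolve_left (Int.cast_ne_zero.2 hm'.ne)

lemma step2 : ∀ x ∈ X.Lev (p - 1), X.ρ x = 0 := by
  have t0 := top0 hL hN hV hp hr hg
  have g0 := step1 hL hN hV hp hr hg
  have hg' : ∀ b, p - 1 < b → ∀ y ∈ X.Lev b, X.γ y = 0 ∧ X.γ2 y = 0 := fun b hb y hy => by
    rcases (show p = b ∨ p < b by omega) with rfl | h
    · exact g0 y hy
    · exact hg b h y hy
  suffices h : ∀ x ∈ X.Lev (p - 2), X.Tp x = 0 by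
    intro x hx
    have h1 : X.ρ x ∈ X.Lev p := ρ_Lev (by ring) hx
    obtain ⟨x', k1, v, k2, y, k3, e⟩ := K2 hL (x := x) (u := 0) (by omega) (zero_mem _) h1
      (hr p le_rfl _ h1).1 (hr p le_rfl _ h1).2 (.inl ⟨map_zero _, by simp⟩)
    rw [e, h x' k1, t0 v k2, Tm_apply, (hg _ (by omega) y k3).2]; simp
  refine PR hL (fun x _ => LTp hL x) fun m w hw => ?_
  by_contra h0
  have w0 : w ≠ 0 := fun k => h0 (by rw [k, map_zero])
  have hm := P_nonpos hL hw w0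
  have p2 : 1 ≤ p - 1 := by
    by_contra k
    exact w0 (Lev_bot (.inl (by omega)) (mem_P.1 hw).1)
  have t1 := step0 hL hN hV p2 fun x hx =>
    ⟨g0 _ (ρ_Lev (by ring) hx), g0 _ (ρ2_Lev (by ring) hx)⟩
  have key : ∀ x ∈ X.Lev (p - 1), X.Tm x = 0 → X.ρ x = 0 ∧ X.ρ2 x = 0 := fun x hx h =>
    (K1 hL hx (hr p le_rfl _ (ρ2_Lev (by ring) hx)).1 (t1 x hx) h hg').1
  have hx : X.ρ2 w ∈ X.Pn (p - 1) (m - 1) := ρ2_P hL (by ring) rfl hw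
  have k1 : X.Tm (X.ρ2 w) ≠ 0 := fun k => h0 (key _ (mem_P.1 hx).1 k).1
  have k2 := Tm_P hL rfl hx
  have p3 : 1 ≤ p - 2 := by
    by_contra k
    exact k1 (Lev_bot (.inl (by omega)) (mem_P.1 k2).1)
  refine noV hL hN hV p3 (b := p - 1 - 2) (by ring) rfl rfl hw (gm_P hL (by ring) (by ring) hx)
    (fun k => k1 ?_) (Dn_gm hL _ _) k2 k1 fun hm' => ?_
  · have := congrArg X.γ2 k
    rw [γ2_gm hL, map_zero] at this
    exact (smul_eq_zero.1 this).resolve_left (Int.cast_ne_zero.2 (by omega))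
  · have hx' : X.rm L m w ∈ X.Pn (p - 1) (m + 1) := rm_P hL (by ring) rfl hw
    refine ⟨_, Tm_P hL rfl hx', fun k => h0 ?_⟩
    have := (key _ (mem_P.1 hx').1 k).2
    rw [ρ2_rm hL] at this
    exact (smul_eq_zero.1 this).resolve_left (Int.cast_ne_zero.2 hm'.ne)

end

end Page

open Page in
theorem p_CORE {K : Type} [Field K] [CharZero K] {q n : ℕ} : S_CORE K q n := by
  intro X L hL hN hV
  have key : ∀ (r : ℕ) (p : ℤ), (n : ℤ) + 1 < p + r →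
      (∀ x ∈ X.Lev (p - 1), X.ρ x = 0) ∧ ∀ x ∈ X.Lev p, X.γ x = 0 := by
    intro r
    induction r with
    | zero =>
      intro p hp
      exact ⟨fun x hx => by rw [Lev_bot (.inr (by omega)) hx, map_zero],
        fun x hx => by rw [Lev_bot (.inr (by omega)) hx, map_zero]⟩
    | succ r ih =>
      intro p hp
      rcases lt_or_ge p 1 with h | h
      · exact ⟨fun x hx => by rw [Lev_bot (.inl (by omega)) hx, map_zero],
          fun x hx => Lev_bot (a := p - 1) (.inl (by omega)) (γ_Lev rfl hx)⟩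
      have hr : ∀ b, p ≤ b → ∀ y ∈ X.Lev b, X.ρ y = 0 ∧ X.ρ2 y = 0 := fun b hb y hy => by
        have k := (ih (b + 1) (by push_cast at hp; omega)).1
        rw [add_sub_cancel_right] at k
        exact ⟨k y hy, by rw [ρ2_apply, k y hy, k _ (Λ_Lev hy), map_zero, sub_zero]⟩
      have hg : ∀ b, p < b → ∀ y ∈ X.Lev b, X.γ y = 0 ∧ X.γ2 y = 0 := fun b hb y hy => by
        have k := (ih b (by push_cast at hp; omega)).2
        exact ⟨k y hy, by rw [γ2_apply, k y hy, k _ (Λ_Lev hy), map_zero, sub_zero]⟩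
      exact ⟨step2 hL hN hV h hr hg, fun x hx => (step1 hL hN hV h hr hg x hx).1⟩
  constructor
  · ext1 x
    refine (Submodule.mem_bot K).1 (U_map (W := ⊥) (U_zero x) fun a ha => ?_)
    exact (key (n + 1) (a + 1) (by push_cast at ha ⊢; omega)).1 _
      (by rw [add_sub_cancel_right]; exact π_Lev a x)
  · ext1 x
    refine (Submodule.mem_bot K).1 (U_map (W := ⊥) (U_zero x) fun a ha => ?_)
    exact (key (n + 2) a (by push_cast at ha ⊢; omega)).2 _ (π_Lev a x)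

end Pool.Agent.P.MP_898f40_nt.Bet
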