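import Pool.Agent.P.MP_898f40_nt.Bet.Core

/-! Interface of the proof that the absence of V-shapes kills the differential. -/

set_option autoImplicit false

namespace Pool.Agent.P.MP_898f40_nt.Bet

open Module

namespace Page

variable {K : Type} [Field K] {q n : ℕ} (X : Page K q n)

/-- stable under all operators -/
def St (L : End K X.S) (Y : Submodule K X.S) : Prop :=
  ∀ y ∈ Y, X.A y ∈ Y ∧ L y ∈ Y ∧ X.Λ y ∈ Y ∧ X.ρ y ∈ Y ∧ X.γ y ∈ Y

/-- the sum of the images under the four odd operators -/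
def Jm (Y : Submodule K X.S) : Submodule K X.S :=
  Y.map X.ρ ⊔ Y.map X.ρ2 ⊔ Y.map X.γ ⊔ Y.map X.γ2

/-- no V-shape, without reference to Frobenius -/
def NoV0 : Prop := ∀ (a : ℕ) (j : ℤ), 2 ≤ finrank K ↥(X.H (a + 1) j ⊓ LinearMap.ker X.Λ) →
  X.H a j ⊓ LinearMap.ker X.Λ = ⊥ ∨ (j + a + 1 < n ∧ X.H a (j + 2) ⊓ LinearMap.ker X.Λ = ⊥)

/-- the odd operators generate a nilpotent ideal -/
def Nil (L : End K X.S) : Prop := ∀ Y : Submodule K X.S, X.St L Y → Y ≤ X.Jm Y → Y = ⊥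

end Page

/-- block NIL -/
def S_NIL (K : Type) [Field K] (q n : ℕ) : Prop :=
  ∀ (X : Page K q n) (L : End K X.S), X.Lef L → IsNilpotent X.D → X.Nil L

/-- block CORE -/
def S_CORE (K : Type) [Field K] (q n : ℕ) : Prop :=
  ∀ (X : Page K q n) (L : End K X.S), X.Lef L → X.Nil L → X.NoV0 → X.ρ = 0 ∧ X.γ = 0

end Pool.Agent.P.MP_898f40_nt.Bet
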