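import Pool.Agent.P.MP_898f40_nt.Bet.NovI
import Pool.Agent.P.MP_898f40_nt.Bet.Low
import Pool.Agent.P.MP_cd312e_ag.One
import Pool.Agent.P.MP_898f40_nt.Bet.MainB

/-! The odd operators generate a nilpotent ideal. -/

set_option autoImplicit false

namespace Pool.Agent.P.MP_898f40_nt.Bet

open Module RZW

lemma indep_le {α ι : Type*} [CompleteLattice α] [IsModularLattice α] {E W : ι → α}
    (hE : iSupIndep E) (h : ∀ i, W i ≤ E i) (i : ι) : E i ⊓ ⨆ j, W j ≤ W i := by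
  classical
  rw [iSup_split_single W i, inf_comm, sup_inf_assoc_of_le _ (h i),
    ((hE i).mono_right (iSup₂_mono fun j _ => h j)).symm.eq_bot, sup_bot_eq]

namespace Page

variable {K : Type} [Field K] [CharZero K] {q n : ℕ} {X : Page K q n} {L : End K X.S}

omit [CharZero K] in
lemma gYn : ⨆ k : ℤ, (X.J + X.A - n : End K X.S).eigenspace (k : K) = ⊤ := by
  rw [eq_top_iff, ← X.top]
  refine iSup₂_le fun a _ => iSup_le fun j => le_iSup_of_le (j + a - n) fun x hx => ?_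
  have h := mem_H.1 hx
  rw [End.mem_eigenspace_iff, LinearMap.sub_apply, LinearMap.add_apply, h.1, h.2,
    End.natCast_apply]
  push_cast
  module

/-- the sl2-triple on the strata with an odd operator -/
def sOne (hL : X.Lef L) (d : End K X.S) (h1 : L * d = d * L)
    (h2 : (X.J + X.A) * d = d * (X.J + X.A + 1)) (h3 : d * d = 0) : S1 K X.S where
  L := L
  Λ := X.Λ
  Y := X.J + X.A - n
  d := d
  LΛ := hL.LΛ
  YL := by
    rw [ad, sub_mul, add_mul, hL.JL, hL.AL, mul_sub, Nat.cast_comm n L, two_smul]; noncomm_ring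
  YΛ := by
    rw [ad, sub_mul, add_mul, X.JΛ, X.AΛ, mul_sub _ _ (n : End K X.S), Nat.cast_comm n X.Λ,
      neg_smul, two_smul]
    noncomm_ring
  Ld := sub_eq_zero.2 h1
  Yd := by rw [ad, sub_mul, h2, mul_sub, Nat.cast_comm n d]; noncomm_ring
  dd := h3
  gY := gYn

/-- with the restriction map -/
def sρ (hL : X.Lef L) : S1 K X.S :=
  sOne hL X.ρ hL.Lρ (by rw [add_mul, X.Jρ, X.Aρ]; noncomm_ring) X.ρρ

/-- with the Gysin map -/
def sγ (hL : X.Lef L) : S1 K X.S :=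
  sOne hL X.γ hL.Lγ (by rw [add_mul, X.Jγ, X.Aγ]; noncomm_ring) X.γγ

lemma DΛ (hL : X.Lef L) : X.D * X.Λ = X.Λ * X.D := by
  have h1 : ad (sρ hL).Y X.D = 0 := sub_eq_zero.2
    ((((Commute.add_left X.JD X.AD).sub_left (Nat.cast_commute n _))).eq)
  have h2 : ad L X.D = 0 := sub_eq_zero.2 (LowX.DL hL).symm
  refine (sub_eq_zero.1 (hw_ad (T := ad X.Λ X.D) (sρ hL).LΛ (sρ hL).YL (sρ hL).YΛ 1 ?_ ?_)).symm
  · rw [ad_ad, h1, ad_zero, add_zero, show ad (sρ hL).Y X.Λ = _ from (sρ hL).YΛ, smul_ad]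
    norm_num
    rfl
  · change ad L (ad X.Λ X.D) = 0
    rw [ad_ad, h2, ad_zero, add_zero, show ad L X.Λ = _ from (sρ hL).LΛ, h1]

end Page

open Page in
theorem p_NIL {K : Type} [Field K] [CharZero K] {q n : ℕ} : S_NIL K q n := by
  rintro X L hL ⟨m, hm⟩ Y hY hJ
  have sρ1 : ∀ y ∈ Y, X.ρ y ∈ Y := fun y hy => (hY y hy).2.2.2.1
  have sγ1 : ∀ y ∈ Y, X.γ y ∈ Y := fun y hy => (hY y hy).2.2.2.2
  have sΛ : ∀ y ∈ Y, X.Λ y ∈ Y := fun y hy => (hY y hy).2.2.1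
  have sρ2 : ∀ y ∈ Y, X.ρ2 y ∈ Y := fun y hy => sub_mem (sΛ _ (sρ1 y hy)) (sρ1 _ (sΛ y hy))
  have aΛ : ∀ y, X.A (X.Λ y) = X.Λ (X.A y) := LinearMap.congr_fun X.AΛ
  have aρ : ∀ y, X.A (X.ρ y) = X.ρ (X.A y) + X.ρ y := fun y => by
    simpa using LinearMap.congr_fun X.Aρ y
  have aγ : ∀ y, X.A (X.γ y) = X.γ (X.A y) - X.γ y := fun y => by
    simpa using LinearMap.congr_fun X.Aγ y
  have eρ : ∀ y, X.ρ2 y = X.Λ (X.ρ y) - X.ρ (X.Λ y) := fun _ => rfl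
  have eγ : ∀ y, X.γ2 y = X.Λ (X.γ y) - X.γ (X.Λ y) := fun _ => rfl
  have wρ : ∀ (μ : K) y, X.A y = (μ - 1) • y → X.A (X.ρ y) = μ • X.ρ y := fun μ y h => by
    rw [aρ, h, map_smul]; module
  have wρ2 : ∀ (μ : K) y, X.A y = (μ - 1) • y → X.A (X.ρ2 y) = μ • X.ρ2 y := fun μ y h => by
    simp only [eρ, map_sub, aΛ, aρ, h, map_smul, map_add]; module
  have wγ : ∀ (μ : K) y, X.A y = (μ + 1) • y → X.A (X.γ y) = μ • X.γ y := fun μ y h => by
    rw [aγ, h, map_smul]; module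
  have wγ2 : ∀ (μ : K) y, X.A y = (μ + 1) • y → X.A (X.γ2 y) = μ • X.γ2 y := fun μ y h => by
    simp only [eγ, map_sub, aΛ, aγ, h, map_smul]; module
  let Yl : K → Submodule K X.S := fun μ => Y ⊓ X.A.eigenspace μ
  have mY : ∀ μ y, y ∈ Yl μ ↔ y ∈ Y ∧ X.A y = μ • y := fun μ y =>
    and_congr_right fun _ => End.mem_eigenspace_iff
  have hs : Y = ⨆ μ, Yl μ := Submodule.eq_iSup_inf_genEigenspace 1 (fun y hy => (hY y hy).1) (by
    rw [eq_top_iff, ← X.top]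
    exact iSup₂_le fun a _ => iSup_le fun j => le_iSup_of_le (a : K) inf_le_left)
  have dec : ∀ μ, ∀ y ∈ Yl μ, ∃ x1 ∈ Yl (μ - 1), ∃ x2 ∈ Yl (μ - 1), ∃ x3 ∈ Yl (μ + 1),
      ∃ x4 ∈ Yl (μ + 1), y = X.ρ x1 + X.ρ2 x2 + X.γ x3 + X.γ2 x4 := by
    intro μ y hy
    have h1 : X.Jm Y ≤ ⨆ μ, (Yl (μ - 1)).map X.ρ ⊔ (Yl (μ - 1)).map X.ρ2 ⊔ (Yl (μ + 1)).map X.γ ⊔
        (Yl (μ + 1)).map X.γ2 := by
      rw [Jm, hs]
      simp only [Submodule.map_iSup, ← iSup_sup_eq]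
      refine iSup_le fun ν => sup_le (sup_le (sup_le ?_ ?_) ?_) ?_
      · exact le_iSup_of_le (ν + 1) (by simp [le_sup_of_le_left])
      · exact le_iSup_of_le (ν + 1) (by simp [le_sup_of_le_left])
      · exact le_iSup_of_le (ν - 1) (by simp [le_sup_of_le_left])
      · exact le_iSup_of_le (ν - 1) (by simp)
    have h2 := indep_le X.A.eigenspaces_iSupIndep (fun μ => sup_le (sup_le (sup_le
      (by rintro _ ⟨y, hy, rfl⟩; exact End.mem_eigenspace_iff.2 (wρ μ y ((mY _ _).1 hy).2))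
      (by rintro _ ⟨y, hy, rfl⟩; exact End.mem_eigenspace_iff.2 (wρ2 μ y ((mY _ _).1 hy).2)))
      (by rintro _ ⟨y, hy, rfl⟩; exact End.mem_eigenspace_iff.2 (wγ μ y ((mY _ _).1 hy).2)))
      (by rintro _ ⟨y, hy, rfl⟩; exact End.mem_eigenspace_iff.2 (wγ2 μ y ((mY _ _).1 hy).2))) μ
      ⟨hy.2, h1 (hJ hy.1)⟩
    obtain ⟨_, h3, _, ⟨x4, h4, rfl⟩, rfl⟩ := Submodule.mem_sup.1 h2
    obtain ⟨_, h8, _, ⟨x3, h5, rfl⟩, rfl⟩ := Submodule.mem_sup.1 h3
    obtain ⟨_, ⟨x1, h6, rfl⟩, _, ⟨x2, h7, rfl⟩, rfl⟩ := Submodule.mem_sup.1 h8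
    exact ⟨x1, h6, x2, h7, x3, h5, x4, h4, rfl⟩
  have r11 : ∀ y, X.ρ (X.ρ y) = 0 := LinearMap.congr_fun X.ρρ
  have r12 : ∀ y, X.ρ (X.ρ2 y) = -X.ρ2 (X.ρ y) := (sρ hL).edb
  have r22 : ∀ y, X.ρ2 (X.ρ2 y) = 0 := (sρ hL).ebb
  have Λρ : ∀ y, X.Λ (X.ρ y) = X.ρ (X.Λ y) + X.ρ2 y := (sρ hL).eΛd
  have Λγ : ∀ y, X.Λ (X.γ y) = X.γ (X.Λ y) + X.γ2 y := (sγ hL).eΛd
  have Λρ2 : ∀ y, X.Λ (X.ρ2 y) = X.ρ2 (X.Λ y) := (sρ hL).eΛb
  have Λγ2 : ∀ y, X.Λ (X.γ2 y) = X.γ2 (X.Λ y) := (sγ hL).eΛb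
  have t1 : ∀ (μ : K) y, μ ≠ 0 → X.A y = μ • y → X.ρ (X.γ y) = -X.γ (X.ρ y) := fun μ y h0 h => by
    have := LinearMap.congr_fun X.ργ y
    rw [End.mul_apply, h, map_smul, LinearMap.zero_apply, smul_eq_zero] at this
    exact eq_neg_of_add_eq_zero_left (this.resolve_left h0)
  have lΛ : ∀ (μ : K) y, X.A y = μ • y → X.A (X.Λ y) = μ • X.Λ y := fun μ y h => by
    rw [aΛ, h, map_smul]
  have t2 : ∀ (μ : K) y, μ ≠ 0 → X.A y = μ • y →
      X.ρ2 (X.γ y) = -X.ρ (X.γ2 y) - X.γ (X.ρ2 y) - X.γ2 (X.ρ y) := fun μ y h0 h => by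
    have := congrArg X.Λ (t1 μ y h0 h)
    simp only [Λρ, Λγ, map_add, map_neg, t1 μ _ h0 (lΛ μ y h)] at this
    linear_combination (norm := module) this
  have t3 : ∀ (μ : K) y, μ ≠ 0 → X.A y = μ • y → X.ρ2 (X.γ2 y) = -X.γ2 (X.ρ2 y) :=
    fun μ y h0 h => by
    have := congrArg X.Λ (t2 μ y h0 h)
    simp only [Λρ, Λγ, Λρ2, Λγ2, map_add, map_neg, map_sub, t2 μ _ h0 (lΛ μ y h)] at this
    linear_combination (norm := module) (1 / 2 : K) • this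
  have eD : ∀ (μ : K) y, μ ≠ 0 → X.A y = μ • y →
      μ • X.ρ (X.γ2 y) = X.γ (X.ρ2 y) - (μ + 1) • X.γ2 (X.ρ y) - X.D y := fun μ y h0 h => by
    simp only [D, eρ, eγ, LinearMap.sub_apply, LinearMap.add_apply, End.mul_apply, End.ofNat_apply,
      End.one_apply, map_add, map_sub, map_smul, map_nsmul, h, t1 μ _ h0 (lΛ μ y h)]
    module
  let Y0 := Y.map X.D
  have c0 : ∀ f : End K X.S, X.D * f = f * X.D → (∀ y ∈ Y, f y ∈ Y) → ∀ y ∈ Y0, f y ∈ Y0 := by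
    rintro f h1 h2 _ ⟨y, hy, rfl⟩
    exact ⟨f y, h2 y hy, LinearMap.congr_fun h1 y⟩
  have cΛ := c0 _ (DΛ hL) sΛ
  have cρ := c0 _ Dρ sρ1
  have cγ := c0 _ Dγ sγ1
  have cρ2 : ∀ y ∈ Y0, X.ρ2 y ∈ Y0 := fun y hy => sub_mem (cΛ _ (cρ y hy)) (cρ _ (cΛ y hy))
  have cγ2 : ∀ y ∈ Y0, X.γ2 y ∈ Y0 := fun y hy => sub_mem (cΛ _ (cγ y hy)) (cγ _ (cΛ y hy))
  have uρ : ∀ μ, ∀ y ∈ Yl (μ - 1), X.ρ y ∈ Yl μ := fun μ y hy =>
    (mY _ _).2 ⟨sρ1 y hy.1, wρ μ y ((mY _ _).1 hy).2⟩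
  have uρ2 : ∀ μ, ∀ y ∈ Yl (μ - 1), X.ρ2 y ∈ Yl μ := fun μ y hy =>
    (mY _ _).2 ⟨sρ2 y hy.1, wρ2 μ y ((mY _ _).1 hy).2⟩
  have neg : ∀ c : ℕ, ∀ y ∈ Yl (-(c + 1)), y = 0 := fun c y hy =>
    eig ((mY _ _).1 hy).2 fun b _ e => by
      have : ((b + c + 1 : ℕ) : K) = 0 := by push_cast; linear_combination -e
      exact Nat.succ_ne_zero _ (Nat.cast_eq_zero.1 this)
  have step : ∀ p : ℕ, Yl (p + 1) ≤ Y0 → Yl p ≤ Y0 := by
    intro p h y hy
    have loop : p ≠ 0 → ∀ u ∈ Yl p, X.ρ (X.γ u) ∈ Y0 ∧ X.ρ (X.γ2 u) ∈ Y0 ∧ X.ρ2 (X.γ u) ∈ Y0 ∧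
        X.ρ2 (X.γ2 u) ∈ Y0 := fun hp u hu => by
      have p0 : (p : K) ≠ 0 := Nat.cast_ne_zero.2 hp
      have a := ((mY _ _).1 hu).2
      have b1 := h (uρ _ u (by rwa [add_sub_cancel_right]))
      have b2 := h (uρ2 _ u (by rwa [add_sub_cancel_right]))
      have b3 : X.ρ (X.γ2 u) ∈ Y0 := (Y0.smul_mem_iff p0).1 (eD _ u p0 a ▸
        sub_mem (sub_mem (cγ _ b2) (Y0.smul_mem _ (cγ2 _ b1))) ⟨u, hu.1, rfl⟩)
      exact ⟨t1 _ u p0 a ▸ neg_mem (cγ _ b1), b3,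
        t2 _ u p0 a ▸ sub_mem (sub_mem (neg_mem b3) (cγ _ b2)) (cγ2 _ b1),
        t3 _ u p0 a ▸ neg_mem (cγ2 _ b2)⟩
    have two : ∀ w ∈ Yl (p - 1 - 1), X.ρ2 (X.ρ w) ∈ Y0 := fun w hw => by
      by_cases hp : p < 2
      · rw [neg (1 - p) w (by
          convert hw using 2; rw [Nat.cast_sub (by omega)]; ring), map_zero, map_zero]
        exact zero_mem _
      have p1 : (p : K) - 1 ≠ 0 := by
        rw [sub_ne_zero]; exact_mod_cast (by omega : p ≠ 1)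
      obtain ⟨x1, -, x2, -, x3, h3, x4, h4, rfl⟩ := dec _ w hw
      rw [sub_add_cancel] at h3 h4
      have e3 := t1 _ x3 p1 ((mY _ _).1 h3).2
      have e4 := t3 _ x4 p1 ((mY _ _).1 h4).2
      have e5 : X.ρ2 (X.ρ (X.γ2 x4)) = X.ρ (X.γ2 (X.ρ2 x4)) := by
        rw [← neg_neg (X.γ2 (X.ρ2 x4)), ← e4, map_neg, r12, neg_neg]
      simp only [map_add, r11, r12, r22, map_neg, map_zero, neg_zero, zero_add, e3, e5]
      exact add_mem (neg_mem (loop (by omega) _ (uρ _ _ h3)).2.2.1)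
        (loop (by omega) _ (uρ2 _ _ h4)).2.1
    have one : ∀ x ∈ Yl (p - 1), X.ρ x ∈ Y0 ∧ X.ρ2 x ∈ Y0 := fun x hx => by
      by_cases hp : p = 0
      · rw [neg 0 x (by convert hx using 2; rw [hp]; simp), map_zero, map_zero]
        exact ⟨zero_mem _, zero_mem _⟩
      obtain ⟨x1, h1, x2, h2, x3, h3, x4, h4, rfl⟩ := dec _ x hx
      rw [sub_add_cancel] at h3 h4
      simp only [map_add, r11, r12, r22, zero_add, add_zero]
      exact ⟨add_mem (add_mem (neg_mem (two _ h2)) (loop hp _ h3).1) (loop hp _ h4).2.1,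
        add_mem (add_mem (two _ h1) (loop hp _ h3).2.2.1) (loop hp _ h4).2.2.2⟩
    obtain ⟨x1, h1, x2, h2, x3, h3, x4, h4, rfl⟩ := dec _ y hy
    exact add_mem (add_mem (add_mem (one _ h1).1 (one _ h2).2) (cγ _ (h h3))) (cγ2 _ (h h4))
  have all : ∀ c p : ℕ, p + c = n + 1 → Yl p ≤ Y0 := by
    intro c
    induction c with
    | zero =>
      intro p hp y hy
      rw [eig ((mY _ _).1 hy).2 fun b hb e => by have := Nat.cast_injective (R := K) e; omega]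
      exact zero_mem _
    | succ c ih => exact fun p hp => step p (by exact_mod_cast ih (p + 1) (by omega))
  have fin : Y ≤ Y0 := hs.le.trans (iSup_le fun μ y hy => by
    by_cases h : ∃ a : ℕ, a ≤ n ∧ μ = a
    · obtain ⟨a, ha, rfl⟩ := h
      exact all (n + 1 - a) a (by omega) hy
    · rw [eig ((mY _ _).1 hy).2 fun b hb e => h ⟨b, hb, e⟩]
      exact zero_mem _)
  have pw : ∀ r : ℕ, Y ≤ Y.map (X.D ^ r) := fun r => by
    induction r with
    | zero => exact fun y hy => ⟨y, hy, rfl⟩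
    | succ r ih =>
      intro y hy
      obtain ⟨z, hz, rfl⟩ := ih hy
      obtain ⟨w, hw, rfl⟩ := fin hz
      exact ⟨w, hw, by rw [pow_succ, End.mul_apply]⟩
  simpa [hm] using pw m

end Pool.Agent.P.MP_898f40_nt.Bet

namespace Pool.Agent.P.MP_898f40_nt.Bet

open Module RZW Polynomial

namespace Page

variable {K : Type} [Field K] {q n : ℕ} {X : Page K q n} {L : End K X.S}

/-- a projector onto `M` commuting with all operators -/
structure Pr (L π : End K X.S) (M : Submodule K X.S) : Prop where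
  mem : ∀ x, π x ∈ M
  fix : ∀ x ∈ M, π x = x
  A : ∀ x, π (X.A x) = X.A (π x)
  J : ∀ x, π (X.J x) = X.J (π x)
  ρ : ∀ x, π (X.ρ x) = X.ρ (π x)
  γ : ∀ x, π (X.γ x) = X.γ (π x)
  Λ : ∀ x, π (X.Λ x) = X.Λ (π x)
  F : ∀ x, π (X.F x) = X.F (π x)
  L : ∀ x, π (L x) = L (π x)

namespace Pr

variable {π : End K X.S} {M : Submodule K X.S} (h : Pr L π M)

include h in
lemma st {f : End K X.S} (c : ∀ x, π (f x) = f (π x)) : ∀ x ∈ M, f x ∈ M := fun x hx => by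
  rw [← h.fix x hx, ← c]; exact h.mem _

/-- restriction to `M` -/
def res {f : End K X.S} (c : ∀ x, π (f x) = f (π x)) : End K M := f.restrict (h.st c)

/-- the projector as a map to `M` -/
def tm : X.S →ₗ[K] M := π.codRestrict M h.mem

lemma to_coe (x : M) : h.tm x = x := Subtype.ext (h.fix x x.2)

lemma eig_to {f : End K X.S} (c : ∀ x, π (f x) = f (π x)) {μ : K} {x : X.S}
    (hx : x ∈ f.eigenspace μ) : h.tm x ∈ (h.res c).eigenspace μ := by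
  rw [End.mem_eigenspace_iff] at hx ⊢
  refine Subtype.ext ?_
  change f (π x) = μ • π x
  rw [← c, hx, map_smul]

/-- the summand -/
@[reducible] def sub : Page K q n where
  S := M
  A := h.res h.A
  J := h.res h.J
  ρ := h.res h.ρ
  γ := h.res h.γ
  Λ := h.res h.Λ
  F := h.res h.F
  top := by
    refine eq_top_iff.2 fun x _ => ?_
    have : (⊤ : Submodule K X.S) ≤ Submodule.comap h.tm (⨆ a ∈ Finset.range (n + 1), ⨆ j : ℤ,
        (h.res h.A).eigenspace a ⊓ (h.res h.J).eigenspace j) := by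
      rw [← X.top]
      exact iSup₂_le fun a ha => iSup_le fun j y hy => Submodule.mem_iSup_of_mem a
        (Submodule.mem_iSup_of_mem ha (Submodule.mem_iSup_of_mem j
          ⟨h.eig_to h.A hy.1, h.eig_to h.J hy.2⟩))
    exact h.to_coe x ▸ this (Submodule.mem_top (x := x.1))
  Aρ := LinearMap.ext fun x => Subtype.ext (LinearMap.congr_fun X.Aρ x.1)
  Aγ := LinearMap.ext fun x => Subtype.ext (LinearMap.congr_fun X.Aγ x.1)
  AΛ := LinearMap.ext fun x => Subtype.ext (LinearMap.congr_fun X.AΛ x.1)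
  AF := LinearMap.ext fun x => Subtype.ext (LinearMap.congr_fun X.AF x.1)
  Jρ := LinearMap.ext fun x => Subtype.ext (LinearMap.congr_fun X.Jρ x.1)
  Jγ := LinearMap.ext fun x => Subtype.ext (LinearMap.congr_fun X.Jγ x.1)
  JΛ := LinearMap.ext fun x => Subtype.ext (LinearMap.congr_fun X.JΛ x.1)
  JF := LinearMap.ext fun x => Subtype.ext (LinearMap.congr_fun X.JF x.1)
  ρρ := LinearMap.ext fun x => Subtype.ext (LinearMap.congr_fun X.ρρ x.1)
  γγ := LinearMap.ext fun x => Subtype.ext (LinearMap.congr_fun X.γγ x.1)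
  ργ := LinearMap.ext fun x => Subtype.ext (LinearMap.congr_fun X.ργ x.1)
  Fρ := LinearMap.ext fun x => Subtype.ext (LinearMap.congr_fun X.Fρ x.1)
  Fγ := LinearMap.ext fun x => Subtype.ext (LinearMap.congr_fun X.Fγ x.1)
  FΛ := LinearMap.ext fun x => Subtype.ext (LinearMap.congr_fun X.FΛ x.1)
  int := by
    obtain ⟨m, hm, hm'⟩ := X.int
    refine ⟨m, hm, LinearMap.ext fun x => Subtype.ext ?_⟩
    have := aeval_restrict (h.st h.F) (m.map (algebraMap ℤ K)) x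
    rw [aeval_map_algebraMap, aeval_map_algebraMap, aeval_def, aeval_def, hm'] at this
    exact this

lemma coe_H {a : ℕ} {j : ℤ} {x : M} : x ∈ h.sub.H a j ↔ x.1 ∈ X.H a j := by
  rw [mem_H (X := X)]
  exact (mem_H (X := h.sub)).trans (and_congr Subtype.ext_iff Subtype.ext_iff)

lemma coe_C {i : ℤ} {x : ℕ → M} (hx : x ∈ h.sub.C i) : (fun k => (x k).1) ∈ X.C i :=
  mem_C.2 fun k => (iSup₂_le fun _ ha _ hy => mem_sup ha (h.coe_H.1 hy) :
    ⨆ a ∈ Finset.Icc k n, h.sub.H a (i - a) ≤ Submodule.comap M.subtype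
      (⨆ a ∈ Finset.Icc k n, X.H a (i - a))) ((mem_C (X := h.sub)).1 hx k)

lemma to_C {i : ℤ} {x : ℕ → X.S} (hx : x ∈ X.C i) : (fun k => h.tm (x k)) ∈ h.sub.C i :=
  (mem_C (X := h.sub)).2 fun k => (iSup₂_le fun _ ha _ hy => mem_sup (X := h.sub) ha
      ⟨h.eig_to h.A hy.1, h.eig_to h.J hy.2⟩ :
    ⨆ a ∈ Finset.Icc k n, X.H a (i - a) ≤ Submodule.comap h.tm
      (⨆ a ∈ Finset.Icc k n, h.sub.H a (i - a))) (mem_C.1 hx k)

lemma to_d (x : ℕ → X.S) : h.sub.d (fun k => h.tm (x k)) = fun k => h.tm (X.d x k) :=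
  funext fun k => Subtype.ext (by
    change X.ρ (π (x k)) + X.γ (π (x (k + 1))) = π (X.ρ (x k) + X.γ (x (k + 1)))
    rw [map_add, h.ρ, h.γ])

lemma coe_Z {i : ℤ} {x : ℕ → M} (hx : x ∈ h.sub.Z i) : (fun k => (x k).1) ∈ X.Z i :=
  ⟨h.coe_C hx.1, funext fun k => congrArg Subtype.val (congr_fun hx.2 k)⟩

lemma to_Z {i : ℤ} {x : ℕ → X.S} (hx : x ∈ X.Z i) : (fun k => h.tm (x k)) ∈ h.sub.Z i :=
  ⟨h.to_C hx.1, (h.to_d x).trans (funext fun k => by
    rw [show X.d x = 0 from hx.2]; exact map_zero _)⟩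

lemma coe_B {i : ℤ} {x : ℕ → M} (hx : x ∈ h.sub.B i) : (fun k => (x k).1) ∈ X.B i := by
  obtain ⟨y, hy, rfl⟩ := hx
  exact ⟨_, h.coe_C hy, rfl⟩

lemma to_B {i : ℤ} {x : ℕ → X.S} (hx : x ∈ X.B i) : (fun k => h.tm (x k)) ∈ h.sub.B i := by
  obtain ⟨y, hy, rfl⟩ := hx
  exact ⟨_, h.to_C hy, h.to_d y⟩

lemma res_pow {f : End K X.S} (c : ∀ x, π (f x) = f (π x)) (r : ℕ) (x : M) :
    ((h.res c ^ r) x).1 = (f ^ r) x.1 := by
  rw [res, End.pow_restrict]; rfl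

lemma lef (hL : X.Lef L) : h.sub.Lef (h.res h.L) where
  AL := LinearMap.ext fun x => Subtype.ext (LinearMap.congr_fun hL.AL x.1)
  JL := LinearMap.ext fun x => Subtype.ext (LinearMap.congr_fun hL.JL x.1)
  Lρ := LinearMap.ext fun x => Subtype.ext (LinearMap.congr_fun hL.Lρ x.1)
  Lγ := LinearMap.ext fun x => Subtype.ext (LinearMap.congr_fun hL.Lγ x.1)
  FL := LinearMap.ext fun x => Subtype.ext (LinearMap.congr_fun hL.FL x.1)
  LΛ := LinearMap.ext fun x => Subtype.ext (LinearMap.congr_fun hL.LΛ x.1)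
  inj r x hx hb := by
    have h1 := h.to_B (hL.inj r _ (h.coe_Z hx) (by
      convert h.coe_B hb using 1
      exact funext fun k => (h.res_pow h.L r (x k)).symm))
    simpa only [to_coe] using h1
  surj r y hy := by
    obtain ⟨x, hx, hb⟩ := hL.surj r _ (h.coe_Z hy)
    refine ⟨_, h.to_Z hx, ?_⟩
    convert h.to_B hb using 1
    refine funext fun k => Subtype.ext ?_
    have c : π ((L ^ r) (x k)) = (L ^ r) (π (x k)) := LinearMap.congr_fun
      (Commute.pow_right (LinearMap.ext h.L : π * L = L * π) r).eq _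
    change ((h.res h.L ^ r) (h.tm (x k))).1 - (y k).1 = π ((L ^ r) (x k) - (y k).1)
    rw [res_pow, map_sub, c, h.fix _ (y k).2]
    rfl

lemma D_pow (r : ℕ) (x : M) : ((h.sub.D ^ r) x).1 = (X.D ^ r) x.1 := by
  induction r with
  | zero => rfl
  | succ r ih => rw [pow_succ', pow_succ', End.mul_apply, End.mul_apply, ← ih]; rfl

lemma map_prim (a : ℕ) (j : ℤ) : (h.sub.H a j ⊓ LinearMap.ker h.sub.Λ).map M.subtype =
    X.H a j ⊓ LinearMap.ker X.Λ ⊓ M := by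
  ext x
  constructor
  · rintro ⟨y, hy, rfl⟩
    exact ⟨⟨h.coe_H.1 hy.1, congrArg Subtype.val hy.2⟩, y.2⟩
  · rintro ⟨h1, h2⟩
    exact ⟨⟨x, h2⟩, ⟨h.coe_H.2 h1.1, Subtype.ext h1.2⟩, rfl⟩

end Pr

lemma proj_eig (f : End K X.S) (α : K) : ∃ p : K[X],
    (∀ x, aeval (f - α • 1) p x ∈ f.maxGenEigenspace α) ∧
      ∀ x ∈ f.maxGenEigenspace α, aeval (f - α • 1) p x = x := by
  obtain ⟨u, g, v, m, h1, h2⟩ := split_poly (f - α • 1).charpoly_monic.ne_zero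
  obtain ⟨h3, h4⟩ := proj_spec (f - α • 1) (W := ⊤) (fun _ _ => trivial) h1
    (fun x _ => by rw [h2, LinearMap.aeval_self_charpoly, LinearMap.zero_apply])
  have e : ∀ x, x ∈ (f - α • 1).maxGenEigenspace 0 ↔ x ∈ f.maxGenEigenspace α := fun x => by
    simp only [End.mem_maxGenEigenspace, zero_smul, sub_zero]
  exact ⟨u * g, fun x => (e _).1 (h3 x trivial).2, fun x hx => h4 x ⟨trivial, (e x).2 hx⟩⟩

variable [CharZero K]

/-- normalised Frobenius -/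
lemma exists_Φ : ∃ Φ : End K X.S, ∀ (j : ℤ) x, X.J x = (j : K) • x →
    Φ x = ((q : K) ^ (j / 2))⁻¹ • X.F x := by
  obtain ⟨G⟩ := exists_grad X.J (by
    rw [eq_top_iff, ← X.top]
    exact iSup₂_le fun a _ => iSup_mono fun j => inf_le_right)
  refine ⟨∑ k ∈ Finset.Icc (-(G.M : ℤ)) G.M, ((q : K) ^ (k / 2))⁻¹ • (X.F * G.π k),
    fun j x hx => ?_⟩
  by_cases hj : (G.M : ℤ) < |j|
  · rw [G.bd j x hx hj, map_zero, map_zero, smul_zero]
  rw [LinearMap.sum_apply, Finset.sum_eq_single_of_mem j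
    (Finset.mem_Icc.2 (abs_le.1 (not_lt.1 hj)))]
  · rw [LinearMap.smul_apply, End.mul_apply, G.same j x hx]
  · intro k _ hk
    rw [LinearMap.smul_apply, End.mul_apply, G.ne k j x hx hk, map_zero, smul_zero]

theorem nov_of (hC : S_CORE K q n) [IsAlgClosed K] (hq : q ≠ 0) (hL : X.Lef L) (hV : X.NoV) :
    ∀ x ∈ X.G, X.ρ x = 0 ∧ X.γ x = 0 := by
  have q0 : (q : K) ≠ 0 := Nat.cast_ne_zero.2 hq
  obtain ⟨Φ, hΦ⟩ := exists_Φ (X := X)
  have cm : ∀ (T : End K X.S) (c : ℤ), X.J * T = T * (X.J + 2 * c) →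
      (∀ x, X.F (T x) = (q : K) ^ c • T (X.F x)) → Φ * T = T * Φ := fun T c h1 h2 =>
    ext_H fun a j x hx => by
      have e := (mem_H.1 hx).2
      have e2 : X.J (T x) = ((j + c * 2 : ℤ) : K) • T x := by
        have := LinearMap.congr_fun h1 x
        simp only [End.mul_apply, LinearMap.add_apply, e, map_add, map_smul, End.ofNat_apply,
          End.intCast_apply, map_nsmul, map_zsmul] at this
        rw [this]; push_cast; module
      rw [End.mul_apply, End.mul_apply, hΦ _ _ e2, hΦ _ _ e, h2, map_smul, smul_smul,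
        Int.add_mul_ediv_right _ _ two_ne_zero, zpow_add₀ q0, mul_inv,
        inv_mul_cancel_right₀ (zpow_ne_zero _ q0)]
  have c0 : ∀ T : End K X.S, X.J * T = T * X.J → X.F * T = T * X.F → Φ * T = T * Φ :=
    fun T h1 h2 => cm T 0 (by simpa using h1) fun x => by simpa using LinearMap.congr_fun h2 x
  have c1 : ∀ T : End K X.S, X.J * T = T * (X.J + 2) → X.F * T = q * T * X.F → Φ * T = T * Φ :=
    fun T h1 h2 => cm T 1 (by simpa using h1) fun x => by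
      simpa [Nat.cast_smul_eq_nsmul] using LinearMap.congr_fun h2 x
  have cΛ : Φ * X.Λ = X.Λ * Φ := cm _ (-1) (by simpa [sub_eq_add_neg] using X.JΛ) fun x => by
    rw [zpow_neg_one, eq_inv_smul_iff₀ q0]
    simpa [Nat.cast_smul_eq_nsmul] using LinearMap.congr_fun X.FΛ x
  have JA : X.J * X.A = X.A * X.J := ext_H fun a j x hx => by
    simp [(mem_H.1 hx).1, (mem_H.1 hx).2, smul_comm (a : K)]
  have cD := c0 _ X.JD (FD hq)
  have eg : ∀ (j : ℤ) (α : K) x, X.J x = (j : K) • x →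
      (x ∈ Φ.maxGenEigenspace α ↔ x ∈ X.F.maxGenEigenspace ((q : K) ^ (j / 2) * α)) := by
    intro j α x hx
    have z0 := zpow_ne_zero (j / 2) q0
    have pw : ∀ r : ℕ, X.J (((X.F - ((q : K) ^ (j / 2) * α) • 1) ^ r) x) =
        (j : K) • ((X.F - ((q : K) ^ (j / 2) * α) • 1) ^ r) x ∧ ((Φ - α • 1) ^ r) x =
        ((q : K) ^ (j / 2))⁻¹ ^ r • ((X.F - ((q : K) ^ (j / 2) * α) • 1) ^ r) x := fun r => by
      induction r with
      | zero => simpa using hx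
      | succ r ih =>
        have jf : ∀ y, X.J (X.F y) = X.F (X.J y) := LinearMap.congr_fun X.JF
        simp only [pow_succ', End.mul_apply, LinearMap.sub_apply, LinearMap.smul_apply,
          End.one_apply, map_sub, map_smul, ih.1, ih.2, jf, hΦ _ _ ih.1]
        refine ⟨by module, ?_⟩
        match_scalars <;> field_simp
    simp only [End.mem_maxGenEigenspace, (pw _).2, smul_eq_zero, pow_ne_zero _ (inv_ne_zero z0),
      false_or]
  have hG : X.G ≤ ⨆ α, X.G ⊓ Φ.maxGenEigenspace α :=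
    (Submodule.eq_iSup_inf_genEigenspace ⊤ (comm_G cD) Φ.iSup_maxGenEigenspace_eq_top).le
  suffices ∀ α, X.G ⊓ Φ.maxGenEigenspace α ≤ LinearMap.ker X.ρ ⊓ LinearMap.ker X.γ from
    fun x hx => (hG.trans (iSup_le this)) hx
  intro α
  obtain ⟨p, -, -, p1, p2⟩ := exists_proj (X := X)
  obtain ⟨r, r1, r2⟩ := proj_eig Φ α
  have c : ∀ T : End K X.S, X.D * T = T * X.D → Φ * T = T * Φ → ∀ x,
      (aeval X.D p * aeval (Φ - α • 1) r) (T x) = T ((aeval X.D p * aeval (Φ - α • 1) r) x) :=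
    fun T h1 h2 x => by
      have h3 : (Φ - α • 1) * T = T * (Φ - α • 1) := by simp [sub_mul, mul_sub, h2]
      rw [End.mul_apply, End.mul_apply, aeval_comm h3, aeval_comm h1]
  have h : Pr L (aeval X.D p * aeval (Φ - α • 1) r) (X.G ⊓ Φ.maxGenEigenspace α) :=
    ⟨fun x => ⟨p1 _, End.mapsTo_maxGenEigenspace_of_comm
        (LinearMap.ext fun y => (aeval_comm cD.symm p y).symm) α (r1 x)⟩,
      fun x hx => by rw [End.mul_apply, r2 x hx.2, p2 x hx.1], c _ X.AD.symm (c0 _ JA X.AF.symm),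
      c _ X.JD.symm (c0 _ rfl X.JF.symm), c _ Dρ (c0 _ X.Jρ X.Fρ), c _ Dγ (c1 _ X.Jγ X.Fγ),
      c _ (DΛ hL) cΛ, c _ (FD hq).symm (c0 _ X.JF rfl), c _ (LowX.DL hL) (c1 _ hL.JL hL.FL)⟩
  have mu : ∀ (a : ℕ) (j : ℤ), finrank K ↥(h.sub.H a j ⊓ LinearMap.ker h.sub.Λ) =
      X.mult a j ((q : K) ^ (j / 2) * α) := fun a j => by
    rw [← Submodule.finrank_map_subtype_eq, h.map_prim, mult, inf_assoc _ X.G]
    exact congrArg (fun W : Submodule K X.S => finrank K W) (Submodule.ext fun x =>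
      and_congr_right fun h1 => and_congr_right fun _ => eg j α x (mem_H.1 h1.1).2)
  have nil : IsNilpotent h.sub.D := End.isNilpotent_iff_of_finite.2 fun x => by
    obtain ⟨m, hm⟩ := (End.mem_maxGenEigenspace _ _ _).1 x.2.1
    exact ⟨m, Subtype.ext ((h.D_pow m x).trans (by simpa using hm))⟩
  obtain ⟨e1, e2⟩ := hC h.sub _ (h.lef hL) (p_NIL _ _ (h.lef hL) nil) fun a j h2 => by
    rw [mu] at h2
    refine (hV a j _ h2).imp (fun h3 => ?_) (And.imp_right fun h3 => ?_)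
    · exact Submodule.finrank_eq_zero.1 ((mu a j).trans h3)
    · refine Submodule.finrank_eq_zero.1 ((mu a (j + 2)).trans ?_)
      rwa [show (j + 2) / 2 = 1 + j / 2 by omega, zpow_add₀ q0, zpow_one, mul_assoc]
  exact fun x hx => ⟨congrArg Subtype.val (LinearMap.congr_fun e1 ⟨x, hx⟩),
    congrArg Subtype.val (LinearMap.congr_fun e2 ⟨x, hx⟩)⟩

end Page

end Pool.Agent.P.MP_898f40_nt.Bet
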