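import Pool.Agent.P.MP_898f40_nt.Bet.DefsB
import Pool.Agent.P.MP_898f40_nt.Bet.LowDefs

/-! Linear data of the first page of the weight spectral sequence of a strictly semistable model
of relative dimension `n` with residue field of `q` elements. -/

set_option autoImplicit false

namespace Pool.Agent.P.MP_898f40_nt.Bet

open Module Polynomial

/-- Operators on the cohomology `S` of all strata. `A` acts by `a` and `J` by `j` on the cohomology
in degree `j` of the `(a+1)`-fold intersections; `ρ` restriction, `γ` Gysin map, `Λ` a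
correspondence lowering the degree by two, `F` geometric Frobenius. -/
structure Pg (K S : Type) [Field K] [AddCommGroup S] [Module K S] (q n : ℕ) where
  (A J ρ γ Λ F : End K S)
  top : ⨆ a ∈ Finset.range (n + 1), ⨆ j : ℤ, A.eigenspace a ⊓ J.eigenspace j = ⊤
  Aρ : A * ρ = ρ * (A + 1)
  Aγ : A * γ = γ * (A - 1)
  AΛ : A * Λ = Λ * A
  AF : A * F = F * A
  Jρ : J * ρ = ρ * J
  Jγ : J * γ = γ * (J + 2)
  JΛ : J * Λ = Λ * (J - 2)
  JF : J * F = F * J
  ρρ : ρ * ρ = 0
  γγ : γ * γ = 0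
  ργ : (ρ * γ + γ * ρ) * A = 0
  Fρ : F * ρ = ρ * F
  Fγ : F * γ = q * γ * F
  FΛ : q * F * Λ = Λ * F
  int : IsIntegral ℤ F

section

variable {K V : Type} [Field K] [AddCommGroup V] [Module K V]

/-- the subquotient `Z / (Z ∩ B)` -/
abbrev Sq (Z B : Submodule K V) : Type := Z ⧸ B.comap Z.subtype

/-- the endomorphism induced on a subquotient -/
def sq {Z B : Submodule K V} (f : End K V) (hZ : ∀ x ∈ Z, f x ∈ Z) (hB : ∀ x ∈ B, f x ∈ B) :
    End K (Sq Z B) :=
  Submodule.mapQ _ _ (f.restrict hZ) fun x hx => hB x hx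

/-- the trace on an invariant subspace -/
noncomputable def trOn (W : Submodule K V) (f : End K V) (h : ∀ x ∈ W, f x ∈ W) : K :=
  LinearMap.trace K W (f.restrict h)

/-- the vectors killed by `N` and fixed by `ε` -/
def fix (N ε : End K V) : Submodule K V := LinearMap.ker N ⊓ LinearMap.ker (ε - 1)

/-- `F` preserves `fix N ε` -/
def Pres (N ε F : End K V) : Prop := ∀ x ∈ fix N ε, F x ∈ fix N ε

/-- the polynomial `det (1 - T F)` on `fix N ε` -/
noncomputable def detOn [FiniteDimensional K V] (N ε F : End K V) (h : Pres N ε F) : K[X] :=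
  (LinearMap.charpoly (F.restrict h)).reverse

/-- `f` induces a bijection from `Z / B` to `Z' / B'` -/
structure Bij (f : End K V) (Z B Z' B' : Submodule K V) : Prop where
  inj : ∀ x ∈ Z, f x ∈ B' → x ∈ B
  surj : ∀ y ∈ Z', ∃ x ∈ Z, f x - y ∈ B'

variable (K V) in
/-- a finite-dimensional subquotient with two operators -/
structure Two where
  (Z B : Submodule K V)
  (N F : End K V)
  fin : FiniteDimensional K Z
  NZ : ∀ x ∈ Z, N x ∈ Z
  NB : ∀ x ∈ B, N x ∈ B
  FZ : ∀ x ∈ Z, F x ∈ Z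
  FB : ∀ x ∈ B, F x ∈ B
  NF : ∃ c : K, ∀ x, N (F x) = c • F (N x)

attribute [instance] Two.fin

namespace Two

variable (T : Two K V)

/-- the dimension of the subquotient -/
noncomputable def dim : ℕ := finrank K (Sq T.Z T.B)

/-- `N` on the subquotient -/
def N2 : End K (Sq T.Z T.B) := sq T.N T.NZ T.NB

/-- `F` on the subquotient -/
def F2 : End K (Sq T.Z T.B) := sq T.F T.FZ T.FB

variable (ε : End K V) (hZ : ∀ x ∈ T.Z, ε x ∈ T.Z) (hB : ∀ x ∈ T.B, ε x ∈ T.B)

theorem pres (h : ∀ x, ε (T.F x) = T.F (ε x)) : Pres T.N2 (sq ε hZ hB) T.F2 := by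
  obtain ⟨c, hc⟩ := T.NF
  have h1 : ∀ x, T.N2 (T.F2 x) = c • T.F2 (T.N2 x) := fun x => by
    obtain ⟨y, rfl⟩ := Submodule.Quotient.mk_surjective _ x
    exact congrArg Submodule.Quotient.mk (Subtype.ext (hc y.1))
  have h2 : ∀ x, sq ε hZ hB (T.F2 x) = T.F2 (sq ε hZ hB x) := fun x => by
    obtain ⟨y, rfl⟩ := Submodule.Quotient.mk_surjective _ x
    exact congrArg Submodule.Quotient.mk (Subtype.ext (h y.1))
  exact fun x hx => ⟨(h1 x).trans (by rw [show T.N2 x = 0 from hx.1, map_zero, smul_zero]),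
    sub_eq_zero.2 ((h2 x).trans (congrArg _ (sub_eq_zero.1 hx.2)))⟩

/-- the polynomial `det (1 - T F)` on the classes killed by `N` and fixed by `ε` -/
noncomputable def euler (h : ∀ x, ε (T.F x) = T.F (ε x)) : K[X] :=
  detOn T.N2 (sq ε hZ hB) T.F2 (T.pres ε hZ hB h)

end Two

/-- an operator applied to every coordinate -/
def each (f : End K V) : End K (ℕ → V) := f.compLeft ℕ

/-- the shift of coordinates -/
def shift : End K (ℕ → V) := LinearMap.funLeft K V (· + 1)

end

namespace Pg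

variable {K S : Type} [Field K] [AddCommGroup S] [Module K S] {q n : ℕ} (X : Pg K S q n)

/-- cohomology in degree `j` of the `(a+1)`-fold intersections -/
def H (a : ℕ) (j : ℤ) : Submodule K S := X.A.eigenspace a ⊓ X.J.eigenspace j

/-- the correspondence `D` -/
def D : End K S :=
  X.γ * X.Λ * X.ρ * (X.A + 2) - X.ρ * X.Λ * X.γ * X.A -
    (X.Λ * X.γ * X.ρ + X.γ * X.ρ * X.Λ) * (X.A + 1)

/-- total degree `i` of the first page: the `k`-th coordinate (Tate twist `-k`) lies in the sum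
of the `H a (i - a)` over `k ≤ a ≤ n` -/
def C (i : ℤ) : Submodule K (ℕ → S) :=
  Submodule.pi Set.univ fun k => ⨆ a ∈ Finset.Icc k n, X.H a (i - a)

/-- differential -/
def d : End K (ℕ → S) := each X.ρ + each X.γ * shift

/-- Frobenius -/
def Fr : End K (ℕ → S) := LinearMap.pi fun k => (q : K) ^ k • X.F ∘ₗ LinearMap.proj k

/-- cycles -/
def Z (i : ℤ) : Submodule K (ℕ → S) := X.C i ⊓ LinearMap.ker X.d

/-- boundaries -/
def B (i : ℤ) : Submodule K (ℕ → S) := (X.C (i - 1)).map X.d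

/-- the generalized kernel of `D` -/
def G : Submodule K S := X.D.maxGenEigenspace 0

/-- the dimension of the generalized kernel of `D` on total degree `i` of the first page -/
noncomputable def null (i : ℤ) : ℕ :=
  ∑ a ∈ Finset.range (n + 1), (a + 1) * finrank K ↥(X.H a (i - a) ⊓ X.G)

/-- `L` is a Lefschetz operator: it forms an sl2-triple with `Λ` on the strata and satisfies hard
Lefschetz on the second page -/
structure Lef (L : End K S) : Prop where
  AL : X.A * L = L * X.A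
  JL : X.J * L = L * (X.J + 2)
  Lρ : L * X.ρ = X.ρ * L
  Lγ : L * X.γ = X.γ * L
  FL : X.F * L = q * L * X.F
  LΛ : L * X.Λ - X.Λ * L = X.J + X.A - n
  bij : ∀ r : ℕ, Bij (each (L ^ r)) (X.Z (n - r)) (X.B (n - r)) (X.Z (n + r)) (X.B (n + r))

/-- multiplicity of the Frobenius eigenvalue `α` on the primitive part of `H a j` in the
generalized kernel of `D` -/
noncomputable def mult (a : ℕ) (j : ℤ) (α : K) : ℕ :=
  finrank K ↥(X.H a j ⊓ LinearMap.ker X.Λ ⊓ X.G ⊓ X.F.maxGenEigenspace α)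

/-- a multiple eigenvalue in codimension `a + 1` is missing in one of the two neighbouring
primitive parts in codimension `a` -/
def NoV : Prop := ∀ (a : ℕ) (j : ℤ) (α : K), 2 ≤ X.mult (a + 1) j α →
  X.mult a j α = 0 ∨ (j + a + 1 < n ∧ X.mult a (j + 2) (q * α) = 0)

/-- restriction vanishes on the generalized kernel of `D` in cohomological degrees `≤ n - 2` -/
def Low : Prop := ∀ (a : ℕ) (j : ℤ), j + 2 ≤ n → ∀ x ∈ X.H a j ⊓ X.G, X.ρ x = 0

/-- the column `p` of the first page: the `k`-th coordinate lies on the `(p+2k+1)`-fold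
intersections -/
def P (p : ℤ) : Submodule K (ℕ → S) :=
  Submodule.pi Set.univ fun k => X.A.eigenspace ((p + 2 * k : ℤ) : K)

/-- weight-monodromy in total degree `i`: the `r`-th power of the monodromy is a bijection from
column `-r` to column `r` of the second page -/
def WM (i : ℤ) : Prop :=
  ∀ r : ℕ, Bij (shift ^ r) (X.Z i ⊓ X.P (-r)) (X.B i) (X.Z i ⊓ X.P r) (X.B i)

/-- an operator `ε` on the cohomology of the strata that commutes with the gradings, restriction,
Gysin map and Frobenius and is idempotent on the second page -/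
structure Cut where
  ε : End K S
  Aε : X.A * ε = ε * X.A
  Jε : X.J * ε = ε * X.J
  ρε : X.ρ * ε = ε * X.ρ
  γε : X.γ * ε = ε * X.γ
  Fε : X.F * ε = ε * X.F
  idem : ∀ i, ∀ x ∈ X.Z i, each (ε * ε - ε) x ∈ X.B i

variable [FiniteDimensional K S]

/-- the same data, bundled with the space (used in proofs only) -/
def toPage : Page K q n :=
  { X with S := S }

theorem fin_Z (i : ℤ) : FiniteDimensional K (X.Z i) :=
  (inferInstance : FiniteDimensional K (X.toPage.Z i))

theorem N_Z (i : ℤ) : ∀ x ∈ X.Z i, shift (K := K) x ∈ X.Z i :=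
  (Page.chain (X := X.toPage) Page.dN (fun _ => Page.N_C) i).1

theorem N_B (i : ℤ) : ∀ x ∈ X.B i, shift (K := K) x ∈ X.B i :=
  (Page.chain (X := X.toPage) Page.dN (fun _ => Page.N_C) i).2

theorem F_Z (i : ℤ) : ∀ x ∈ X.Z i, X.Fr x ∈ X.Z i :=
  (Page.chain (X := X.toPage) Page.dFr (fun _ => Page.Fr_C) i).1

theorem F_B (i : ℤ) : ∀ x ∈ X.B i, X.Fr x ∈ X.B i :=
  (Page.chain (X := X.toPage) Page.dFr (fun _ => Page.Fr_C) i).2

theorem N_F : ∃ c : K, ∀ x, shift (K := K) (X.Fr x) = c • X.Fr (shift (K := K) x) :=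
  ⟨q, Page.NFr (X := X.toPage)⟩

/-- total degree `i` of the second page, with monodromy (the shift) and Frobenius -/
def E2 (i : ℤ) : Two K (ℕ → S) :=
  ⟨X.Z i, X.B i, shift, X.Fr, X.fin_Z i, X.N_Z i, X.N_B i, X.F_Z i, X.F_B i, X.N_F⟩

theorem F_H (a : ℕ) (j : ℤ) : ∀ x ∈ X.H a j, X.F x ∈ X.H a j :=
  Page.comm_mem (X := X.toPage) X.AF X.JF

theorem FD_H (a : ℕ) (j : ℤ) (m k : ℕ) : ∀ x ∈ X.H a j, (X.F ^ m * X.D ^ k) x ∈ X.H a j :=
  Page.comm_mem (X := X.toPage)
    ((Commute.pow_right X.AF m).mul_right (Commute.pow_right X.toPage.AD k))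
    ((Commute.pow_right X.JF m).mul_right (Commute.pow_right X.toPage.JD k))

/-- the trace of `F ^ m * D ^ k` on `H a j` -/
noncomputable def tr (a : ℕ) (j : ℤ) (m k : ℕ) : K := trOn _ (X.F ^ m * X.D ^ k) (X.FD_H a j m k)

namespace Cut

variable {X} (c : X.Cut)

/-- the same data on the bundled page (used in proofs only) -/
def toCut : Bet.Cut X.toPage := { c with }

theorem ε_Z (i : ℤ) : ∀ x ∈ (X.E2 i).Z, each c.ε x ∈ (X.E2 i).Z :=
  (Page.chain (X := X.toPage) c.toCut.dε c.toCut.ε_C i).1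

theorem ε_B (i : ℤ) : ∀ x ∈ (X.E2 i).B, each c.ε x ∈ (X.E2 i).B :=
  (Page.chain (X := X.toPage) c.toCut.dε c.toCut.ε_C i).2

theorem ε_F (i : ℤ) (x : ℕ → S) : each c.ε ((X.E2 i).F x) = (X.E2 i).F (each c.ε x) := by
  funext k
  have h : X.F (c.ε (x k)) = c.ε (X.F (x k)) := LinearMap.congr_fun c.Fε _
  change c.ε ((q : K) ^ k • X.F (x k)) = (q : K) ^ k • X.F (c.ε (x k))
  rw [map_smul, h]

/-- the local Euler factor: `det (1 - T F)` on the classes of degree `i` killed by the monodromy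
and fixed by `ε` -/
noncomputable def euler (i : ℤ) : K[X] :=
  (X.E2 i).euler (each c.ε) (c.ε_Z i) (c.ε_B i) (c.ε_F i)

theorem FD_H (a : ℕ) (j : ℤ) (m k : ℕ) :
    ∀ x ∈ X.H a j, (X.F ^ m * c.ε * X.D ^ k) x ∈ X.H a j :=
  Page.comm_mem (X := X.toPage)
    (((Commute.pow_right X.AF m).mul_right c.Aε).mul_right (Commute.pow_right X.toPage.AD k))
    (((Commute.pow_right X.JF m).mul_right c.Jε).mul_right (Commute.pow_right X.toPage.JD k))

/-- the trace of `F ^ m * ε * D ^ k` on `H a j` -/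
noncomputable def tr (a : ℕ) (j : ℤ) (m k : ℕ) : K :=
  trOn _ (X.F ^ m * c.ε * X.D ^ k) (c.FD_H a j m k)

end Cut

end Pg

end Pool.Agent.P.MP_898f40_nt.Bet
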