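import Pool.Agent.P.MP_898f40_nt.Bet.Pg
import Pool.Agent.P.MP_898f40_nt.Bet.MainB
import Pool.Agent.P.MP_898f40_nt.Bet.Low

/-! Transfer of the main theorems to the unbundled data. -/

set_option autoImplicit false

namespace Pool.Agent.P.MP_898f40_nt.Bet.Pg

open Module Polynomial

section

variable {K S : Type} [Field K] [AddCommGroup S] [Module K S] [FiniteDimensional K S] {q n : ℕ}
  {X : Pg K S q n}

theorem Lef.toPage {L : End K S} (h : X.Lef L) : X.toPage.Lef L :=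
  ⟨h.AL, h.JL, h.Lρ, h.Lγ, h.FL, h.LΛ, fun r => (h.bij r).inj, fun r => (h.bij r).surj⟩

theorem NoV.toPage (h : X.NoV) : X.toPage.NoV := h

theorem Low.toPage (h : X.Low) : X.toPage.Low := h

theorem crit [CharZero K] (h : ∀ x ∈ X.G, X.ρ x = 0 ∧ X.γ x = 0) (i : ℤ) :
    (X.E2 i).dim = X.null i := Page.crit (X := X.toPage) h i

theorem low [CharZero K] {L : End K S} (hL : X.Lef L) (hW : ∀ i : ℤ, i ≤ n → X.WM i)
    (hlow : X.Low) : ∀ x ∈ X.G, X.ρ x = 0 ∧ X.γ x = 0 :=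
  Page.low' (X := X.toPage) hL.toPage (hW n le_rfl 1).inj (fun i r hi => (hW i hi r).surj) hlow

end

theorem betti {ι : Type} {K S : ι → Type} [∀ l, Field (K l)] [∀ l, CharZero (K l)]
    [∀ l, AddCommGroup (S l)] [∀ l, Module (K l) (S l)] [∀ l, FiniteDimensional (K l) (S l)]
    {q n : ℕ} (X : ∀ l, Pg (K l) (S l) q n) (c : ∀ l, (X l).Cut) (i : ℤ) (s : ℕ → ℕ → ℚ)
    (t : ℕ → ℕ → ℕ → ℚ) (hs : ∀ l a k, (X l).tr a (i - a) 0 k = s a k)
    (ht : ∀ l a m k, (c l).tr a (i - a) m k = t a m k) (l₀ : ι)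
    (hb : ∀ l, ((X l).E2 i).dim = ((X l₀).E2 i).dim)
    (h0 : ((X l₀).E2 i).dim = (X l₀).null i) :
    ∃ P : ℤ[X], ∀ l, (c l).euler i = P.map (Int.castRingHom (K l)) :=
  bettiB (fun l => (X l).toPage) (fun l => (c l).toCut) i s t hs ht l₀ hb h0

end Pool.Agent.P.MP_898f40_nt.Bet.Pg
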