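import Pool.Agent.P.MP_898f40_nt.Bet.Low
import Pool.Agent.P.MP_898f40_nt.Bet.Main

/-! The Betti number criterion implies weight-monodromy; transfer between coefficient fields. -/

set_option autoImplicit false

namespace Pool.Agent.P.MP_898f40_nt.Bet

open Module Polynomial LinearMap

namespace Page

variable {K : Type} [Field K] [CharZero K] {q n : ℕ} {X : Page K q n}

omit [CharZero K] in
lemma T_H {i : ℤ} {k a : ℕ} {y : X.S} (hy : y ∈ X.T i k) (h : X.A y = (a : K) • y) :
    y ∈ X.H a (i - a) := by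
  have h1 : (X.A + X.J - (i : K) • 1) y ∈ (⊥ : Submodule K X.S) := T_map (fun b _ z hz => by
    simp only [LinearMap.sub_apply, LinearMap.add_apply, (mem_H.1 hz).1, (mem_H.1 hz).2,
      LinearMap.smul_apply, End.one_apply, Submodule.mem_bot]
    push_cast
    module) hy
  simp only [LinearMap.sub_apply, LinearMap.add_apply, h, LinearMap.smul_apply, End.one_apply,
    Submodule.mem_bot] at h1
  refine mem_H.2 ⟨h, ?_⟩
  push_cast
  linear_combination (norm := module) h1

open LowX in
theorem wm_of_crit (h : ∀ i, finrank K (X.E2 i) = X.null i) : X.WM := by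
  obtain ⟨p, v, h1, πG, πid⟩ := exists_proj (X := X)
  have c : ∀ f : End K X.S, X.D * f = f * X.D → ∀ z, aeval X.D p (f z) = f (aeval X.D p z) :=
    fun f hf z => LinearMap.congr_fun (Algebra.commute_of_mem_adjoin_singleton_of_commute
      (aeval_mem_adjoin_singleton K X.D) (Commute.symm hf)).symm.eq z
  have πT : ∀ {i k y}, y ∈ X.T i k → aeval X.D p y ∈ X.T i k ⊓ X.G := fun hy =>
    ⟨T_map (fun a ha z hz => mem_T ha rfl
      (aeval_apply_smul_mem_of_le_comap hz p _ (comm_mem X.AD X.JD))) hy, πG _⟩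
  have πA : ∀ {μ : K} {y}, y ∈ X.A.eigenspace μ → X.A (aeval X.D p y) = μ • aeval X.D p y :=
    fun hy => by rw [← c _ X.AD.symm, End.mem_eigenspace_iff.1 hy, map_smul]
  have πB : ∀ i, ∀ x ∈ X.Z i, x - (fun k => aeval X.D p (x k)) ∈ X.B i := by
    intro i x hx
    have hZ : aeval (show End K _ from X.D.compLeft ℕ) v x ∈ X.Z i :=
      aeval_apply_smul_mem_of_le_comap hx v _ fun y hy => B_le_Z i (D_B hy)
    convert D_B hZ using 1
    funext k
    have h3 := congrArg (fun r => aeval X.D r (x k)) h1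
    simp only [mul_comm v, map_add, map_mul, map_one, aeval_X, LinearMap.add_apply, End.mul_apply,
      End.one_apply] at h3
    change x k - aeval X.D p (x k) = X.D (aeval (show End K _ from X.D.compLeft ℕ) v x k)
    rw [aeval_compLeft, sub_eq_iff_eq_add', h3]
  constructor
  · intro i r x hx hN
    have h2 : (X.N ^ r) x ∈ X.Z i := B_le_Z i hN
    have h3 : (fun k => aeval X.D p ((X.N ^ r) x k)) ∈ X.M i ⊓ X.B i :=
      ⟨mem_M.2 fun k => πT (mem_C.1 h2.1 k), by simpa using sub_mem hN (πB i _ h2)⟩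
    rw [(key (h i)).2] at h3
    have h4 : (fun k => aeval X.D p (x k)) = 0 := by
      funext k
      by_cases hk : r ≤ k
      · have := congr_fun h3 (k - r)
        rwa [N_pow, Nat.sub_add_cancel hk] at this
      · exact T_eig (b := -(r : ℤ) + 2 * k) (by omega) (πT (mem_C.1 hx.1.1 k)).1
          (πA (hx.2 k trivial))
    simpa [h4] using πB i x hx.1
  · intro i r y hy
    have h2 : ∀ k, r ≤ k → X.A (aeval X.D p (y (k - r))) =
        ((-(r : ℤ) + 2 * k : ℤ) : K) • aeval X.D p (y (k - r)) := fun k hk => by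
      rw [πA (hy.2 (k - r) trivial)]
      congr 2
      omega
    refine ⟨fun k => if r ≤ k then aeval X.D p (y (k - r)) else 0,
      ⟨(key (h i)).1 (mem_M.2 fun k => ?_), fun k _ => ?_⟩, ?_⟩
    · split_ifs with hk
      · obtain ⟨h3, h4⟩ := πT (mem_C.1 hy.1.1 (k - r))
        refine ⟨mem_T (a := 2 * k - r) (by omega) rfl (T_H h3 ?_), h4⟩
        rw [h2 k hk, show -(r : ℤ) + 2 * k = ((2 * k - r : ℕ) : ℤ) by omega, Int.cast_natCast]
      · exact zero_mem _
    · change (if r ≤ k then _ else _) ∈ X.A.eigenspace ((-(r : ℤ) + 2 * k : ℤ) : K)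
      split_ifs with hk
      · exact End.mem_eigenspace_iff.2 (h2 k hk)
      · exact zero_mem _
    · convert neg_mem (πB i y hy.1) using 1
      funext k
      simp [N_pow]

end Page

open Page in
theorem null_eq {K K' : Type} [Field K] [CharZero K] [Field K'] [CharZero K'] {q n : ℕ}
    (X : Page K q n) (X' : Page K' q n) (i : ℤ)
    (ht : ∀ (a k : ℕ), ∃ τ : ℚ, X.tr a (i - a) 0 k = τ ∧ X'.tr a (i - a) 0 k = τ) :
    X.null i = X'.null i := by
  choose t h h' using ht
  refine Finset.sum_congr rfl fun a _ => congrArg _ ?_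
  have c := charQ_map _ _ fun k => (tr_D a _ k).trans (h a k)
  have c' := charQ_map _ _ fun k => (tr_D a _ k).trans (h' a k)
  have c0 : charQ (t a) ≠ 0 := fun e => by
    rw [e, Polynomial.map_zero] at c
    exact (charpoly_monic _).ne_zero c.symm
  obtain ⟨u, g, v, r, h1, h2⟩ := split_poly c0
  have d := trace_G (f := X.F ^ 0) (comm_mem X.AD X.JD) (fun x hx => by simpa using hx) (h a) h1
    (by rw [h2, c])
  have d' := trace_G (f := X'.F ^ 0) (comm_mem X'.AD X'.JD) (fun x hx => by simpa using hx) (h' a)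
    h1 (by rw [h2, c'])
  generalize (∑ k ∈ Finset.range ((u * g).natDegree + 1), (u * g).coeff k * t a k) = s at d d'
  have e : (finrank K ↥(X.H a (i - a) ⊓ X.G) : ℚ) = s := by
    apply (algebraMap ℚ K).injective
    rw [map_natCast, eq_ratCast, ← d, ← trace_id]
    congr 1
  have e' : (finrank K' ↥(X'.H a (i - a) ⊓ X'.G) : ℚ) = s := by
    apply (algebraMap ℚ K').injective
    rw [map_natCast, eq_ratCast, ← d', ← trace_id]
    congr 1
  exact_mod_cast e.trans e'.symm

open Page in
theorem wm_transfer {K K' : Type} [Field K] [CharZero K] [Field K'] [CharZero K'] {q n : ℕ}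
    (X : Page K q n) (X' : Page K' q n)
    (ht : ∀ (a : ℕ) (j : ℤ) (k : ℕ), ∃ τ : ℚ, X.tr a j 0 k = τ ∧ X'.tr a j 0 k = τ)
    (hb : ∀ i, finrank K (X.E2 i) = finrank K' (X'.E2 i))
    (h : ∀ x ∈ X.G, X.ρ x = 0 ∧ X.γ x = 0) : X'.WM :=
  wm_of_crit fun i => by
    rw [← hb, crit h, null_eq X X' i fun a k => ht a _ k]

end Pool.Agent.P.MP_898f40_nt.Bet
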